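import Pool.Agent.Lib.MP_776dcc_nt.SPart

/-!
MP_776dcc_nt, part Tup: tuples with `σ₂ = σ_n` and two distinct entries.
-/

set_option autoImplicit false

namespace Pool.Agent.Lib.MP_776dcc_nt

/-- `X` is an element of `S(n)`: `n` positive integers with `σ₂(X) = σ_n(X)` -/
def IsS (n : ℕ) (X : Multiset ℕ) : Prop :=
  Multiset.card X = n ∧ 0 ∉ X ∧ X.esymm 2 = X.prod

theorem esymm_two_cons (a : ℕ) (s : Multiset ℕ) :
    (a ::ₘ s).esymm 2 = s.esymm 2 + a * s.sum := by
  unfold Multiset.esymm
  rw [Multiset.powersetCard_cons, Multiset.map_add, Multiset.sum_add, Multiset.map_map,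
    Multiset.powersetCard_one, Multiset.map_map]
  congr 1
  have h : Multiset.map ((Multiset.prod ∘ Multiset.cons a) ∘ singleton) s =
      Multiset.map (fun x => a * x) s := by
    refine Multiset.map_congr rfl fun x _ => ?_
    simp
  rw [h, Multiset.sum_map_mul_left, Multiset.map_id']

theorem newton (s : Multiset ℕ) :
    2 * s.esymm 2 + (s.map fun x => x ^ 2).sum = s.sum ^ 2 := by
  induction s using Multiset.induction_on with
  | empty => simp [Multiset.esymm]
  | cons a s ih =>
    rw [esymm_two_cons, Multiset.map_cons, Multiset.sum_cons, Multiset.sum_cons]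
    nlinarith

theorem choose_lt : ∀ n : ℕ, 6 ≤ n → n.choose 2 < 2 ^ (n - 2) := by
  intro n hn
  induction n, hn using Nat.le_induction with
  | base => decide
  | succ n hn ih =>
    have h1 : (n + 1).choose 2 = n + n.choose 2 := by
      rw [Nat.choose_succ_succ' n 1, Nat.choose_one_right]
    have h2 : 2 ^ (n + 1 - 2) = 2 * 2 ^ (n - 2) := by
      rw [← pow_succ']
      congr 1
      omega
    have h3 : n ≤ n.choose 2 := by
      rw [Nat.choose_two_right]
      rw [Nat.le_div_iff_mul_le (by norm_num)]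
      exact Nat.mul_le_mul_left n (by omega)
    rw [h1, h2]
    omega

/-- all entries at least `2` and `n ≥ 6`: `σ₂ < σ_n` -/
theorem esymm_lt_prod {X : Multiset ℕ} (hX : ∀ x ∈ X, 2 ≤ x) (hn : 6 ≤ Multiset.card X) :
    X.esymm 2 < X.prod := by
  have hpow : ∀ Y : Multiset ℕ, (∀ x ∈ Y, 2 ≤ x) → 2 ^ Multiset.card Y ≤ Y.prod := by
    intro Y
    induction Y using Multiset.induction_on with
    | empty => simp
    | cons a s ih =>
      intro h
      rw [Multiset.card_cons, Multiset.prod_cons, pow_succ']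
      exact Nat.mul_le_mul (h a (Multiset.mem_cons_self a s))
        (ih fun x hx => h x (Multiset.mem_cons_of_mem hx))
  have h1 : X.esymm 2 * 2 ^ (Multiset.card X - 2) ≤ (Multiset.card X).choose 2 * X.prod := by
    unfold Multiset.esymm
    rw [← Multiset.sum_map_mul_right]
    have h2 := Multiset.sum_le_card_nsmul
      (Multiset.map (fun i => i.prod * 2 ^ (Multiset.card X - 2)) (Multiset.powersetCard 2 X))
      X.prod (by
        intro a ha
        obtain ⟨t, ht, rfl⟩ := Multiset.mem_map.1 ha
        rw [Multiset.mem_powersetCard] at ht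
        obtain ⟨u, hu⟩ := Multiset.le_iff_exists_add.1 ht.1
        have h3 : Multiset.card X = 2 + Multiset.card u := by
          rw [hu, Multiset.card_add, ht.2]
        have h4 : Multiset.card X - 2 = Multiset.card u := by omega
        have h5 : ∀ x ∈ u, 2 ≤ x := fun x hx => hX x (by
          rw [hu]
          exact Multiset.mem_add.2 (Or.inr hx))
        show t.prod * 2 ^ (Multiset.card X - 2) ≤ X.prod
        rw [h4]
        calc t.prod * 2 ^ Multiset.card u ≤ t.prod * u.prod :=
              Nat.mul_le_mul_left _ (hpow u h5)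
          _ = X.prod := by rw [hu, Multiset.prod_add])
    rw [Multiset.card_map, Multiset.card_powersetCard, smul_eq_mul] at h2
    exact h2
  have h2 := choose_lt _ hn
  have h3 : 0 < X.prod := lt_of_lt_of_le (by positivity) (hpow X hX)
  have h4 : (Multiset.card X).choose 2 * X.prod < 2 ^ (Multiset.card X - 2) * X.prod :=
    Nat.mul_lt_mul_of_pos_right h2 h3
  have h5 : X.esymm 2 * 2 ^ (Multiset.card X - 2) < X.prod * 2 ^ (Multiset.card X - 2) := by
    rw [mul_comm X.prod]
    exact lt_of_le_of_lt h1 h4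
  exact lt_of_mul_lt_mul_right h5 (Nat.zero_le _)

/-- an element of `S(n)`, `n ≥ 6`, with two distinct entries consists of ones and copies of one
number `b ≥ 2` -/
theorem two_values {n : ℕ} (hn : 6 ≤ n) {X : Multiset ℕ} (hX : IsS n X)
    (h2 : X.toFinset.card = 2) : ∃ b r k : ℕ, 2 ≤ b ∧ X = Multiset.replicate r 1 +
      Multiset.replicate k b := by
  classical
  obtain ⟨h3, h4, h5⟩ := hX
  have h1 : 1 ∈ X := by
    by_contra hcon
    have h6 : ∀ x ∈ X, 2 ≤ x := by
      intro x hx
      rcases x with _ | _ | x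
      · exact absurd hx h4
      · exact absurd hx hcon
      · omega
    exact absurd h5 (esymm_lt_prod h6 (by omega)).ne
  obtain ⟨a, b, hab, hT⟩ := Finset.card_eq_two.1 h2
  have key : ∀ b : ℕ, b ≠ 1 → X.toFinset = {1, b} → ∃ b r k : ℕ, 2 ≤ b ∧
      X = Multiset.replicate r 1 + Multiset.replicate k b := by
    intro b hb hTb
    have hb0 : b ∈ X := by
      rw [← Multiset.mem_toFinset, hTb]
      simp
    refine ⟨b, X.count 1, X.count b, ?_, ?_⟩
    · rcases b with _ | _ | b
      · exact absurd hb0 h4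
      · exact absurd rfl hb
      · omega
    · ext c
      rw [Multiset.count_add, Multiset.count_replicate, Multiset.count_replicate]
      by_cases hc1 : 1 = c
      · subst hc1
        rw [if_pos rfl, if_neg hb, add_zero]
      · by_cases hcb : b = c
        · subst hcb
          rw [if_neg hc1, if_pos rfl, zero_add]
        · rw [if_neg hc1, if_neg hcb, add_zero, Multiset.count_eq_zero]
          intro hc
          rw [← Multiset.mem_toFinset, hTb, Finset.mem_insert, Finset.mem_singleton] at hc
          rcases hc with hc | hc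
          · exact hc1 hc.symm
          · exact hcb hc.symm
  have h6 : 1 ∈ ({a, b} : Finset ℕ) := by
    rw [← hT]
    exact Multiset.mem_toFinset.2 h1
  rw [Finset.mem_insert, Finset.mem_singleton] at h6
  rcases h6 with h6 | h6
  · exact key b (by rw [h6]; exact hab.symm) (by rw [hT, h6])
  · exact key a (by rw [h6]; exact hab) (by rw [hT, h6, Finset.pair_comm])

/-- the equation for `r` ones and `k` copies of `b` -/
theorem tuple_eq {b r k : ℕ} (hb : 2 ≤ b) (hk : 1 ≤ k)
    (h : (Multiset.replicate r 1 + Multiset.replicate k b).esymm 2 =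
      (Multiset.replicate r 1 + Multiset.replicate k b).prod) :
    (2 * (r + k * b) - 1) ^ 2 + 4 * k * b = 8 * b ^ k + 4 * k * b ^ 2 + 1 := by
  have h1 := newton (Multiset.replicate r 1 + Multiset.replicate k b)
  rw [h] at h1
  simp only [Multiset.prod_add, Multiset.prod_replicate, one_pow, one_mul, Multiset.map_add,
    Multiset.map_replicate, Multiset.sum_add, Multiset.sum_replicate, smul_eq_mul, mul_one] at h1
  have h2 : 1 ≤ r + k * b := by
    have : 1 * 2 ≤ k * b := Nat.mul_le_mul hk hb
    omega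
  obtain ⟨S, hS⟩ : ∃ S, r + k * b = S + 1 := ⟨r + k * b - 1, by omega⟩
  have h3 : 2 * (r + k * b) - 1 = 2 * S + 1 := by omega
  rw [h3]
  rw [hS] at h1
  have h4 : r = S + 1 - k * b := by omega
  have h5 : r + k * b = S + 1 := hS
  nlinarith

/-- the square-free part -/
theorem sqfree_part {P : Finset ℕ} {b k : ℕ}
    (hP : ∀ p, p.Prime → p ∣ b → p ∈ P) :
    ∃ d s, d ≤ ∏ p ∈ P.filter Nat.Prime, p ∧ b ^ k = d * s ^ 2 := by
  classical
  have hD : 1 ≤ ∏ p ∈ P.filter Nat.Prime, p :=
    Nat.one_le_iff_ne_zero.2 (Finset.prod_ne_zero_iff.2 fun p hp =>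
      (Finset.mem_filter.1 hp).2.ne_zero)
  rcases Nat.even_or_odd' k with ⟨j, rfl | rfl⟩
  · exact ⟨1, b ^ j, hD, by ring⟩
  · obtain ⟨d, s, hsd, hsf⟩ := Nat.sq_mul_squarefree b
    refine ⟨d, s * b ^ j, ?_, ?_⟩
    · rw [← Nat.prod_primeFactors_of_squarefree hsf]
      refine Nat.le_of_dvd (by omega) (Finset.prod_dvd_prod_of_subset _ _ _ ?_)
      intro p hp
      rw [Nat.mem_primeFactors] at hp
      refine Finset.mem_filter.2 ⟨hP p hp.1 ?_, hp.1⟩
      rw [← hsd]
      exact hp.2.1.mul_left _
    · calc b ^ (2 * j + 1) = b * (b ^ j) ^ 2 := by ring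
        _ = (s ^ 2 * d) * (b ^ j) ^ 2 := by rw [hsd]
        _ = d * (s * b ^ j) ^ 2 := by ring

/-- for every finite set of primes only finitely many `n` have an element of `S(n)` with exactly two
distinct entries, at least five entries greater than `1` and all entries composed of these primes -/
theorem smooth_finite (P : Finset ℕ) :
    {n : ℕ | ∃ X : Multiset ℕ, IsS n X ∧ X.toFinset.card = 2 ∧
      5 ≤ Multiset.card (X.filter fun x => 1 < x) ∧
      ∀ x ∈ X, ∀ p, p.Prime → p ∣ x → p ∈ P}.Finite := by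
  classical
  set D := ∏ p ∈ P.filter Nat.Prime, p with hD
  have hfin := spart_finite P D (1 / 5) (by norm_num)
  refine ((Set.finite_Iio 6).union
    (hfin.image fun t : ℕ × ℕ × ℕ => (t.2.2 + 1) / 2 - t.1 * (t.2.1 - 1))).subset ?_
  rintro n ⟨X, hX, h2, h5, hP⟩
  rcases lt_or_ge n 6 with hn | hn
  · exact Or.inl hn
  refine Or.inr ?_
  obtain ⟨b, r, k, hb, hXe⟩ := two_values hn hX h2
  have hk : 5 ≤ k := by
    rw [hXe, Multiset.filter_add, Multiset.card_add] at h5
    have h6 : Multiset.filter (fun x => 1 < x) (Multiset.replicate r 1) = 0 := by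
      rw [Multiset.filter_eq_nil]
      intro a ha
      rw [Multiset.eq_of_mem_replicate ha]
      omega
    rw [h6, Multiset.card_zero, zero_add] at h5
    refine h5.trans ((Multiset.card_le_card (Multiset.filter_le _ _)).trans ?_)
    rw [Multiset.card_replicate]
  have hbX : b ∈ X := by
    rw [hXe, Multiset.mem_add]
    exact Or.inr (Multiset.mem_replicate.2 ⟨by omega, rfl⟩)
  have hbP : ∀ p, p.Prime → p ∣ b → p ∈ P := hP b hbX
  have heq : (2 * (r + k * b) - 1) ^ 2 + 4 * k * b = 8 * b ^ k + 4 * k * b ^ 2 + 1 := by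
    refine tuple_eq hb (by omega) ?_
    rw [← hXe]
    exact hX.2.2
  have hcard : r + k = n := by
    rw [← hX.1, hXe, Multiset.card_add, Multiset.card_replicate, Multiset.card_replicate]
  refine ⟨(k, b, 2 * (r + k * b) - 1), ⟨by omega, hb, heq, sqfree_part hbP,
    b ^ k, Dvd.intro _ rfl, fun p hp hpb => hbP p hp (hp.dvd_of_dvd_pow hpb), ?_⟩, ?_⟩
  · have hbR : (1 : ℝ) ≤ b := by
      have : (2 : ℝ) ≤ b := by exact_mod_cast hb
      linarith
    have hkR : (5 : ℝ) ≤ k := by exact_mod_cast hk
    rw [Nat.cast_pow, ← Real.rpow_natCast]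
    exact Real.rpow_le_rpow_of_exponent_le hbR (by linarith)
  · show (2 * (r + k * b) - 1 + 1) / 2 - k * (b - 1) = n
    have h6 : 1 * 2 ≤ k * b := Nat.mul_le_mul (by omega) hb
    have h7 : (2 * (r + k * b) - 1 + 1) / 2 = r + k * b := by omega
    have h8 : k * (b - 1) = k * b - k := by
      rw [Nat.mul_sub, mul_one]
    have h9 : k ≤ k * b := Nat.le_mul_of_pos_right k (by omega)
    rw [h7, h8]
    omega

end Pool.Agent.Lib.MP_776dcc_nt
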