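import Pool.Agent.Lib.MP_776dcc_nt.Fin
import Pool.Agent.Lib.MP_776dcc_nt.Tup

/-!
MP_776dcc_nt, part Bal: Theorem B, prime powers, counting.
-/

set_option autoImplicit false

namespace Pool.Agent.Lib.MP_776dcc_nt

open scoped PowerSeries

/-- the equation for `N`, over the integers -/
theorem eqZ {k x N : ℕ} (hx : 1 ≤ x) (h : N ^ 2 = N + k * (x * (x - 1)) + 2 * x ^ k) :
    (N : ℤ) ^ 2 - N = (zp k).eval (x : ℤ) + 2 * (x : ℤ) ^ k := by
  rw [zp_eval]
  obtain ⟨u, rfl⟩ : ∃ u, x = u + 1 := ⟨x - 1, by omega⟩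
  rw [Nat.add_sub_cancel] at h
  have h1 : (N : ℤ) ^ 2 = N + k * ((u + 1) * u) + 2 * (u + 1) ^ k := by exact_mod_cast h
  push_cast
  rw [h1]
  ring

theorem eqZ' {k x N : ℕ} (hx : 1 ≤ x) (h : N ^ 2 = N + k * (x * (x - 1)) + 2 * x ^ k) :
    (1 - (N : ℤ)) ^ 2 - (1 - (N : ℤ)) = (zp k).eval (x : ℤ) + 2 * (x : ℤ) ^ k := by
  rw [← eqZ hx h]
  ring

/-- `x` is the product of its common divisors with `N` and `N - 1` -/
theorem gcd_split {k x N : ℕ} (hk : 1 ≤ k) (hx : 1 ≤ x)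
    (h : N ^ 2 = N + k * (x * (x - 1)) + 2 * x ^ k) :
    1 ≤ N ∧ Nat.gcd x N * Nat.gcd x (N - 1) = x := by
  have hN : 1 ≤ N := by
    rcases Nat.eq_zero_or_pos N with rfl | h1
    · have h2 : 0 < x ^ k := by positivity
      have h3 : (0 : ℕ) ^ 2 = 0 := by norm_num
      omega
    · exact h1
  refine ⟨hN, ?_⟩
  have hco : Nat.Coprime N (N - 1) := by
    have h1 : Nat.Coprime (N - 1 + 1) (N - 1) := by simp
    rwa [Nat.sub_add_cancel hN] at h1
  rw [← Nat.Coprime.gcd_mul x hco]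
  apply Nat.gcd_eq_left
  obtain ⟨j, rfl⟩ : ∃ j, k = j + 1 := ⟨k - 1, by omega⟩
  have h2 : N * (N - 1) = x * ((j + 1) * (x - 1) + 2 * x ^ j) := by
    have h3 : N * (N - 1) = N ^ 2 - N := by
      rw [Nat.mul_sub, mul_one, pow_two]
    rw [h3, h, add_assoc, Nat.add_sub_cancel_left]
    ring
  rw [h2]
  exact Dvd.intro _ rfl

/-- Theorem B -/
theorem balanced {δ : ℝ} (hδ : 0 < δ) : ∃ C : ℕ, ∀ k x N : ℕ, C ≤ k → k ^ C ≤ x →
    N ^ 2 = N + k * (x * (x - 1)) + 2 * x ^ k →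
      (x : ℝ) ^ (1 / 4 - δ) ≤ Nat.gcd x N ∧ (Nat.gcd x N : ℝ) ≤ (x : ℝ) ^ (3 / 4 + δ) := by
  obtain ⟨C, hC⟩ := dvd_bound (δ := min δ 1) (lt_min hδ one_pos) (min_le_right _ _)
  refine ⟨C + 1, fun k x N hk hx h => ?_⟩
  have hk1 : 1 ≤ k := by omega
  have hx1 : 1 ≤ x := (Nat.one_le_pow _ _ hk1).trans hx
  have hxC : (k : ℤ) ^ C ≤ (x : ℤ) := by
    have h1 : k ^ C ≤ x := (Nat.pow_le_pow_right hk1 (Nat.le_succ C)).trans hx
    exact_mod_cast h1
  obtain ⟨hN, hsplit⟩ := gcd_split hk1 hx1 h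
  have hxR : (1 : ℝ) ≤ x := by exact_mod_cast hx1
  have key : ∀ (b : ℕ) (N' : ℤ), 1 ≤ b → (b : ℤ) ∣ x → (b : ℤ) ∣ N' →
      N' ^ 2 - N' = (zp k).eval (x : ℤ) + 2 * (x : ℤ) ^ k →
      (b : ℝ) ≤ (x : ℝ) ^ (3 / 4 + min δ 1) := by
    intro b N' hb hbx hbN hN'
    have h1 := hC k x N' b (by omega) hxC hN' (by exact_mod_cast hb) hbx hbN
    rw [Int.cast_natCast, Int.cast_natCast] at h1
    have hb0 : (0 : ℝ) < b := by exact_mod_cast hb
    rw [← Real.log_rpow (by linarith)] at h1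
    exact (Real.log_le_log_iff hb0 (Real.rpow_pos_of_pos (by linarith) _)).1 h1
  have hb1 : 1 ≤ Nat.gcd x N := Nat.gcd_pos_of_pos_left _ hx1
  have ha1 : 1 ≤ Nat.gcd x (N - 1) := Nat.gcd_pos_of_pos_left _ hx1
  have hb := key (Nat.gcd x N) N hb1 (Int.natCast_dvd_natCast.2 (Nat.gcd_dvd_left _ _))
    (Int.natCast_dvd_natCast.2 (Nat.gcd_dvd_right _ _)) (eqZ hx1 h)
  have ha := key (Nat.gcd x (N - 1)) (1 - N) ha1
    (Int.natCast_dvd_natCast.2 (Nat.gcd_dvd_left _ _))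
    (by
      have h1 : ((Nat.gcd x (N - 1) : ℕ) : ℤ) ∣ ((N - 1 : ℕ) : ℤ) :=
        Int.natCast_dvd_natCast.2 (Nat.gcd_dvd_right _ _)
      have h2 : (1 - (N : ℤ)) = - ((N - 1 : ℕ) : ℤ) := by
        rw [Nat.cast_sub hN]
        push_cast
        ring
      rw [h2]
      exact (dvd_neg).2 h1) (eqZ' hx1 h)
  have hmono : (x : ℝ) ^ (3 / 4 + min δ 1) ≤ (x : ℝ) ^ (3 / 4 + δ) :=
    Real.rpow_le_rpow_of_exponent_le hxR (by linarith [min_le_left δ 1])
  refine ⟨?_, hb.trans hmono⟩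
  have h1 : ((Nat.gcd x N : ℕ) : ℝ) * (Nat.gcd x (N - 1) : ℕ) = x := by exact_mod_cast hsplit
  have h2 : (x : ℝ) ≤ (Nat.gcd x N : ℕ) * (x : ℝ) ^ (3 / 4 + δ) := by
    rw [← h1]
    exact mul_le_mul_of_nonneg_left (by rw [h1]; exact ha.trans hmono) (Nat.cast_nonneg _)
  have h3 : (x : ℝ) ^ (1 / 4 - δ) * (x : ℝ) ^ (3 / 4 + δ) = x := by
    rw [← Real.rpow_add (by linarith)]
    have h4 : (1 / 4 - δ) + (3 / 4 + δ) = 1 := by ring
    rw [h4, Real.rpow_one]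
  have h4 : (x : ℝ) ^ (1 / 4 - δ) * (x : ℝ) ^ (3 / 4 + δ) ≤
      (Nat.gcd x N : ℕ) * (x : ℝ) ^ (3 / 4 + δ) := by
    rw [h3]
    exact h2
  exact le_of_mul_le_mul_right h4 (Real.rpow_pos_of_pos (by linarith) _)

/-- small `k`: comparison with the partial sums of `w` -/
theorem taylor {k : ℕ} {x N : ℤ} (hk : 5 ≤ k) (hN : N ^ 2 - N = (zp k).eval x + 2 * x ^ k)
    (hxN : x ∣ N) (hx : (k : ℤ) * (8 * k) ^ k + 3 < x) : False := by
  have hkZ : (5 : ℤ) ≤ k := by exact_mod_cast hk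
  have h8 : (1 : ℤ) ≤ 8 * k := by omega
  have hpow1 : (1 : ℤ) ≤ (8 * (k : ℤ)) ^ k := one_le_pow₀ h8
  have hxk : (k : ℤ) ≤ x := by nlinarith
  have hx1 : (1 : ℤ) ≤ x := by omega
  have hNb := N_bound (by omega) hxk hN
  have key : ∀ M : ℕ, (k + 1) / 2 + 1 ≤ M → M ≤ k →
      (PowerSeries.trunc M (ws k)).eval x = N := by
    intro M hM1 hM2
    set P : Polynomial ℤ := PowerSeries.trunc M (ws k) with hP
    have h1 : PowerSeries.X ^ M ∣ lf k P 1 := by
      rw [PowerSeries.X_pow_dvd_iff]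
      intro i hi
      unfold lf
      rw [Polynomial.coe_one, one_mul, map_sub, Polynomial.coeff_coe, hP,
        PowerSeries.coeff_trunc, if_pos hi, sub_self]
    have h2 := cong hN (dvd_refl x) hxN hM2 h1
    rw [Polynomial.eval_one, one_mul] at h2
    have h3 : |P.eval x| ≤ k * (8 * k) ^ k * x ^ (M - 1) := by
      have hbd : Bd (M - 1) ((8 * (k : ℝ)) ^ k) P := by
        refine ⟨fun i hi => ?_, fun i => ?_⟩
        · rw [hP, PowerSeries.coeff_trunc, if_neg (by omega)]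
        · rw [hP, PowerSeries.coeff_trunc]
          split_ifs with hi
          · unfold ws
            rw [PowerSeries.coeff_mk]
            have h4 := (wc_bound (k := (k : ℤ)) (by omega) i).trans
              (pow_le_pow_right₀ h8 (show i ≤ k by omega))
            have h5 : ((|wc k i| : ℤ) : ℝ) ≤ (((8 * (k : ℤ)) ^ k : ℤ) : ℝ) := Int.cast_le.2 h4
            rw [Int.cast_abs] at h5
            push_cast at h5
            exact h5
          · simp only [Int.cast_zero, abs_zero]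
            positivity
      have h4 := hbd.eval hx1
      have h5 : (((M - 1 : ℕ) : ℝ) + 1) ≤ k := by
        have h6 : M - 1 + 1 ≤ k := by omega
        exact_mod_cast h6
      have hxR : (0 : ℝ) ≤ x := by exact_mod_cast (show (0 : ℤ) ≤ x by omega)
      have h6 : |((P.eval x : ℤ) : ℝ)| ≤ k * (8 * (k : ℝ)) ^ k * (x : ℝ) ^ (M - 1) := by
        refine h4.trans ?_
        refine mul_le_mul_of_nonneg_right (mul_le_mul_of_nonneg_right h5 (by positivity))
          (by positivity)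
      have h7 : ((|P.eval x| : ℤ) : ℝ) ≤ ((k * (8 * k) ^ k * x ^ (M - 1) : ℤ) : ℝ) := by
        rw [Int.cast_abs]
        push_cast
        exact h6
      exact Int.cast_le.1 h7
    have h4 : |P.eval x - N| < x ^ M := by
      have h5 : |P.eval x - N| ≤ |P.eval x| + |N| := abs_sub _ _
      have h6 : x ^ ((k + 1) / 2) ≤ x ^ (M - 1) := pow_le_pow_right₀ hx1 (by omega)
      have h7 : x ^ M = x * x ^ (M - 1) := by
        rw [← pow_succ']
        congr 1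
        omega
      have h8 : 0 < x ^ (M - 1) := by positivity
      rw [h7]
      nlinarith
    have h5 : P.eval x - N = 0 := by
      by_contra hne
      have h6 := Int.le_of_dvd (abs_pos.2 hne) ((dvd_abs _ _).2 h2)
      omega
    linarith
  have e1 := key ((k + 1) / 2 + 1) le_rfl (by omega)
  have e2 := key ((k + 1) / 2 + 1 + 1) (by omega) (by omega)
  rw [PowerSeries.trunc_succ, Polynomial.eval_add, e1, Polynomial.eval_monomial] at e2
  have e3 : PowerSeries.coeff ((k + 1) / 2 + 1) (ws k) = wc k ((k + 1) / 2 + 1) := by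
    unfold ws
    rw [PowerSeries.coeff_mk]
  rw [e3] at e2
  have e4 := wc_pos (k := (k : ℤ)) (by omega) ((k + 1) / 2 + 1) (by omega)
  have e5 : 0 < x ^ ((k + 1) / 2 + 1) := by positivity
  have e6 : 0 < wc k ((k + 1) / 2 + 1) * x ^ ((k + 1) / 2 + 1) := mul_pos e4 e5
  linarith

/-- a prime power `x` divides `N` or `N - 1` -/
theorem primePow_dvd {k x N : ℕ} (hk : 1 ≤ k) (hx : IsPrimePow x)
    (h : N ^ 2 = N + k * (x * (x - 1)) + 2 * x ^ k) :
    (x : ℤ) ∣ N ∨ (x : ℤ) ∣ 1 - N := by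
  have hx1 : 1 ≤ x := hx.one_lt.le
  obtain ⟨hN, hs⟩ := gcd_split hk hx1 h
  obtain ⟨p, e, hp, he, rfl⟩ := (isPrimePow_nat_iff _).1 hx
  obtain ⟨i, hi, hi2⟩ := (Nat.dvd_prime_pow hp).1 (Nat.gcd_dvd_left (p ^ e) N)
  obtain ⟨j, hj, hj2⟩ := (Nat.dvd_prime_pow hp).1 (Nat.gcd_dvd_left (p ^ e) (N - 1))
  rcases Nat.eq_zero_or_pos i with rfl | hi0
  · right
    rw [hi2, pow_zero, one_mul] at hs
    have h1 : p ^ e ∣ N - 1 := by
      rw [← hs]
      exact (Nat.gcd_dvd_right _ _)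
    have h2 : ((p ^ e : ℕ) : ℤ) ∣ ((N - 1 : ℕ) : ℤ) := Int.natCast_dvd_natCast.2 h1
    rw [Nat.cast_sub hN] at h2
    have h3 : (1 - (N : ℤ)) = - ((N : ℤ) - (1 : ℕ)) := by
      push_cast
      ring
    rw [h3]
    exact (dvd_neg).2 h2
  · rcases Nat.eq_zero_or_pos j with rfl | hj0
    · left
      rw [hj2, pow_zero, mul_one] at hs
      have h1 : p ^ e ∣ N := by
        rw [← hs]
        exact (Nat.gcd_dvd_right _ _)
      exact Int.natCast_dvd_natCast.2 h1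
    · exfalso
      have h1 : p ∣ N := (dvd_pow_self p hi0.ne').trans (hi2 ▸ Nat.gcd_dvd_right _ _)
      have h2 : p ∣ N - 1 := (dvd_pow_self p hj0.ne').trans (hj2 ▸ Nat.gcd_dvd_right _ _)
      have h3 : p ∣ 1 := by
        have h4 := Nat.dvd_sub h1 h2
        rwa [Nat.sub_sub_self hN] at h4
      exact hp.one_lt.ne' (Nat.dvd_one.1 h3)

/-- prime powers: `x ≤ k ^ C` -/
theorem primePow_bound : ∃ C : ℕ, ∀ k x N : ℕ, 5 ≤ k → IsPrimePow x →
    N ^ 2 = N + k * (x * (x - 1)) + 2 * x ^ k → x ≤ k ^ C := by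
  obtain ⟨C, hC⟩ := dvd_bound (δ := 1 / 8) (by norm_num) (by norm_num)
  obtain ⟨C2, hC2⟩ : ∃ C2, C2 = C * (8 * C) ^ C + 3 := ⟨_, rfl⟩
  refine ⟨C + C2, fun k x N hk hx h => ?_⟩
  have hx1 : 1 < x := hx.one_lt
  have hxR : (1 : ℝ) < x := by exact_mod_cast hx1
  have hlog : 0 < Real.log x := Real.log_pos hxR
  obtain ⟨N', hdvd, hN'⟩ : ∃ N' : ℤ, (x : ℤ) ∣ N' ∧
      N' ^ 2 - N' = (zp k).eval (x : ℤ) + 2 * (x : ℤ) ^ k := by
    rcases primePow_dvd (by omega) hx h with h1 | h1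
    · exact ⟨N, h1, eqZ (by omega) h⟩
    · exact ⟨1 - N, h1, eqZ' (by omega) h⟩
  rcases le_or_gt C k with hCk | hCk
  · have h1 : x ≤ k ^ C := by
      by_contra hcon
      push Not at hcon
      have h2 := hC k x N' x hCk (by exact_mod_cast hcon.le) hN' (by exact_mod_cast hx1.le)
        (dvd_refl _) hdvd
      rw [Int.cast_natCast] at h2
      linarith
    exact h1.trans (Nat.pow_le_pow_right (by omega) (by omega))
  · have h1 : (x : ℤ) ≤ (k : ℤ) * (8 * k) ^ k + 3 := by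
      by_contra hcon
      push Not at hcon
      exact taylor hk hN' hdvd hcon
    have h2 : x ≤ k * (8 * k) ^ k + 3 := by exact_mod_cast h1
    have h3 : k * (8 * k) ^ k + 3 ≤ C2 := by
      rw [hC2]
      refine Nat.add_le_add_right (Nat.mul_le_mul hCk.le ?_) 3
      exact (Nat.pow_le_pow_left (by omega) k).trans (Nat.pow_le_pow_right (by omega) hCk.le)
    have h4 : C2 ≤ k ^ C2 := (Nat.lt_pow_self (by omega)).le
    exact h2.trans (h3.trans (h4.trans (Nat.pow_le_pow_right (by omega) (by omega))))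

end Pool.Agent.Lib.MP_776dcc_nt
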