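import Pool.Agent.Lib.MP_776dcc_nt.Zest

/-!
MP_776dcc_nt, part Bnd: sizes of the polynomials, the zero estimate for the sequence, Siegel's lemma.
-/

set_option autoImplicit false

namespace Pool.Agent.Lib.MP_776dcc_nt

open scoped PowerSeries

/-- degree at most `d`, coefficients at most `H` -/
def Bd (d : ℕ) (H : ℝ) (P : Polynomial ℤ) : Prop :=
  (∀ i, d < i → P.coeff i = 0) ∧ ∀ i, |(P.coeff i : ℝ)| ≤ H

theorem Bd.nonneg {d : ℕ} {H : ℝ} {P : Polynomial ℤ} (h : Bd d H P) : 0 ≤ H :=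
  (abs_nonneg _).trans (h.2 0)

theorem Bd.natDegree {d : ℕ} {H : ℝ} {P : Polynomial ℤ} (h : Bd d H P) : P.natDegree ≤ d := by
  rw [Polynomial.natDegree_le_iff_coeff_eq_zero]
  exact h.1

theorem Bd.eval {d : ℕ} {H : ℝ} {P : Polynomial ℤ} (h : Bd d H P) {x : ℤ} (hx : 1 ≤ x) :
    |((P.eval x : ℤ) : ℝ)| ≤ (d + 1) * H * (x : ℝ) ^ d := by
  have hxR : (1 : ℝ) ≤ x := by exact_mod_cast hx
  rw [Polynomial.eval_eq_sum_range' (Nat.lt_succ_of_le h.natDegree)]
  push_cast
  refine (Finset.abs_sum_le_sum_abs _ _).trans ?_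
  have h1 : ∀ i ∈ Finset.range (d.succ), |(P.coeff i : ℝ) * (x : ℝ) ^ i| ≤ H * (x : ℝ) ^ d := by
    intro i hi
    rw [abs_mul, abs_of_nonneg (pow_nonneg (by linarith : (0 : ℝ) ≤ x) i)]
    refine mul_le_mul (h.2 i) ?_ (pow_nonneg (by linarith) _) h.nonneg
    exact pow_le_pow_right₀ hxR (by rw [Finset.mem_range] at hi; omega)
  refine (Finset.sum_le_card_nsmul _ _ _ h1).trans (le_of_eq ?_)
  rw [Finset.card_range, nsmul_eq_mul]
  push_cast
  ring

theorem coeff_ap_deriv (k : ℤ) (P : Polynomial ℤ) (i : ℕ) :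
    (ap k * Polynomial.derivative P).coeff i =
      (P.coeff (i + 1)) * (i + 1) + 4 * k * (if 2 ≤ i then P.coeff (i - 1) * (i - 1) else 0) -
        4 * k * (if 1 ≤ i then P.coeff i * i else 0) := by
  have e1 : ap k * Polynomial.derivative P = Polynomial.derivative P +
      Polynomial.C (4 * k) * (Polynomial.X ^ 2 * Polynomial.derivative P) -
        Polynomial.C (4 * k) * (Polynomial.X ^ 1 * Polynomial.derivative P) := by
    unfold ap zp
    rw [map_mul]
    have : (Polynomial.C (4 : ℤ)) = (4 : Polynomial ℤ) := rfl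
    rw [this]
    ring
  rw [e1, Polynomial.coeff_sub, Polynomial.coeff_add, Polynomial.coeff_C_mul,
    Polynomial.coeff_C_mul, Polynomial.coeff_X_pow_mul', Polynomial.coeff_X_pow_mul',
    Polynomial.coeff_derivative]
  congr 1
  · congr 1
    congr 1
    split_ifs with h
    · rw [Polynomial.coeff_derivative]
      obtain ⟨j, rfl⟩ : ∃ j, i = j + 2 := ⟨i - 2, by omega⟩
      have h1 : j + 2 - 2 = j := by omega
      have h2 : j + 2 - 1 = j + 1 := by omega
      rw [h1, h2]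
      push_cast
      ring
    · rfl
  · congr 1
    split_ifs with h
    · rw [Polynomial.coeff_derivative]
      obtain ⟨j, rfl⟩ : ∃ j, i = j + 1 := ⟨i - 1, by omega⟩
      rw [Nat.add_sub_cancel]
      push_cast
      ring
    · rfl

theorem coeff_zp_deriv (k : ℤ) (Q : Polynomial ℤ) (i : ℕ) :
    (Polynomial.derivative (zp k) * Q).coeff i =
      2 * k * (if 1 ≤ i then Q.coeff (i - 1) else 0) - k * Q.coeff i := by
  have e1 : Polynomial.derivative (zp k) * Q =
      Polynomial.C (2 * k) * (Polynomial.X ^ 1 * Q) - Polynomial.C k * Q := by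
    unfold zp
    rw [Polynomial.derivative_C_mul, map_sub, Polynomial.derivative_X_pow,
      Polynomial.derivative_X, map_mul]
    have : (Polynomial.C (2 : ℤ)) = (2 : Polynomial ℤ) := rfl
    rw [this]
    norm_num
    ring
  rw [e1, Polynomial.coeff_sub, Polynomial.coeff_C_mul, Polynomial.coeff_C_mul,
    Polynomial.coeff_X_pow_mul']

theorem abs_coeff_mul {d : ℕ} {H : ℝ} {P : Polynomial ℤ} (h : Bd d H P) (i : ℕ) :
    |(P.coeff i : ℝ)| * i ≤ d * H := by
  rcases le_or_gt i d with hi | hi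
  · have h1 : (i : ℝ) ≤ d := by exact_mod_cast hi
    calc |(P.coeff i : ℝ)| * i ≤ H * d :=
          mul_le_mul (h.2 i) h1 (Nat.cast_nonneg _) h.nonneg
      _ = d * H := mul_comm _ _
  · rw [h.1 i hi]
    simp only [Int.cast_zero, abs_zero, zero_mul]
    exact mul_nonneg (Nat.cast_nonneg _) h.nonneg

theorem bd_ap {k : ℤ} (hk : 1 ≤ k) {d : ℕ} {H : ℝ} {P : Polynomial ℤ} (h : Bd d H P) :
    Bd (d + 1) (9 * k * (d * H)) (ap k * Polynomial.derivative P) := by
  have hkR : (1 : ℝ) ≤ k := by exact_mod_cast hk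
  have hH := h.nonneg
  have hdH : 0 ≤ (d : ℝ) * H := mul_nonneg (Nat.cast_nonneg _) hH
  refine ⟨fun i hi => ?_, fun i => ?_⟩
  · rw [coeff_ap_deriv, h.1 (i + 1) (by omega), h.1 i (by omega)]
    split_ifs with h1 h2
    · rw [h.1 (i - 1) (by omega)]
      ring
    · omega
    · ring
    · ring
  · rw [coeff_ap_deriv]
    have h1 := abs_coeff_mul h (i + 1)
    have h2 : |(if 2 ≤ i then (P.coeff (i - 1) : ℝ) * (i - 1) else 0)| ≤ d * H := by
      split_ifs with h3
      · have h4 := abs_coeff_mul h (i - 1)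
        rw [Nat.cast_sub (by omega), Nat.cast_one] at h4
        rw [abs_mul, abs_of_nonneg (by
          have : (2 : ℝ) ≤ i := by exact_mod_cast h3
          linarith : (0 : ℝ) ≤ (i : ℝ) - 1)]
        exact h4
      · rw [abs_zero]
        exact hdH
    have h3 : |(if 1 ≤ i then (P.coeff i : ℝ) * i else 0)| ≤ d * H := by
      split_ifs
      · rw [abs_mul, abs_of_nonneg (Nat.cast_nonneg i : (0 : ℝ) ≤ i)]
        exact abs_coeff_mul h i
      · rw [abs_zero]
        exact hdH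
    push_cast
    rw [Nat.cast_add, Nat.cast_one] at h1
    have h4 : |(P.coeff (i + 1) : ℝ) * ((i : ℝ) + 1)| ≤ d * H := by
      rw [abs_mul, abs_of_nonneg (by positivity : (0 : ℝ) ≤ (i : ℝ) + 1)]
      exact h1
    obtain ⟨u, hu⟩ : ∃ u : ℝ, u = (if 2 ≤ i then (P.coeff (i - 1) : ℝ) * (i - 1) else 0) :=
      ⟨_, rfl⟩
    obtain ⟨v, hv⟩ : ∃ v : ℝ, v = (if 1 ≤ i then (P.coeff i : ℝ) * i else 0) := ⟨_, rfl⟩
    obtain ⟨w, hw⟩ : ∃ w : ℝ, w = (P.coeff (i + 1) : ℝ) * ((i : ℝ) + 1) := ⟨_, rfl⟩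
    rw [← hu] at h2 ⊢
    rw [← hv] at h3 ⊢
    rw [← hw] at h4 ⊢
    obtain ⟨B, hB⟩ : ∃ B : ℝ, B = d * H := ⟨_, rfl⟩
    rw [← hB] at h2 h3 h4 hdH ⊢
    rw [abs_le] at h2 h3 h4 ⊢
    constructor <;> nlinarith

theorem bd_zp {k : ℤ} (hk : 1 ≤ k) {d : ℕ} {H : ℝ} {Q : Polynomial ℤ} (h : Bd d H Q) :
    Bd (d + 1) (3 * k * H) (Polynomial.derivative (zp k) * Q) := by
  have hkR : (1 : ℝ) ≤ k := by exact_mod_cast hk
  have hH := h.nonneg
  refine ⟨fun i hi => ?_, fun i => ?_⟩
  · rw [coeff_zp_deriv, if_pos (by omega), h.1 i (by omega), h.1 (i - 1) (by omega)]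
    ring
  · rw [coeff_zp_deriv]
    have h1 : |(if 1 ≤ i then (Q.coeff (i - 1) : ℝ) else 0)| ≤ H := by
      split_ifs
      · exact h.2 _
      · rw [abs_zero]
        exact hH
    have h2 := h.2 i
    push_cast
    obtain ⟨u, hu⟩ : ∃ u : ℝ, u = (if 1 ≤ i then (Q.coeff (i - 1) : ℝ) else 0) := ⟨_, rfl⟩
    rw [← hu] at h1 ⊢
    rw [abs_le] at h1 h2 ⊢
    constructor <;> nlinarith

theorem Bd.add {d : ℕ} {H H' : ℝ} {P Q : Polynomial ℤ} (h : Bd d H P) (h' : Bd d H' Q) :
    Bd d (H + H') (P + Q) := by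
  refine ⟨fun i hi => ?_, fun i => ?_⟩
  · rw [Polynomial.coeff_add, h.1 i hi, h'.1 i hi, add_zero]
  · rw [Polynomial.coeff_add]
    push_cast
    exact (abs_add_le _ _).trans (add_le_add (h.2 i) (h'.2 i))

theorem Bd.mono {d d' : ℕ} {H H' : ℝ} {P : Polynomial ℤ} (h : Bd d H P) (hd : d ≤ d')
    (hH : H ≤ H') : Bd d' H' P :=
  ⟨fun i hi => h.1 i (by omega), fun i => (h.2 i).trans hH⟩

/-- the sizes of the sequence -/
theorem bd_sq {k : ℤ} (hk : 1 ≤ k) {p q : ℕ} (hqp : q ≤ p) {H : ℝ} {P Q : Polynomial ℤ}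
    (hP : Bd p H P) (hQ : Bd q H Q) (J : ℕ) : ∀ j ≤ J,
      Bd (p + j) (H * (15 * k * (p + J + 1)) ^ j) (sq k P Q j).1 ∧
        Bd (q + j) (H * (15 * k * (p + J + 1)) ^ j) (sq k P Q j).2 := by
  intro j
  have hkR : (1 : ℝ) ≤ k := by exact_mod_cast hk
  have hH := hP.nonneg
  induction j with
  | zero =>
    intro _
    simpa [sq] using ⟨hP, hQ⟩
  | succ j ih =>
    intro hj
    obtain ⟨h1, h2⟩ := ih (by omega)
    obtain ⟨B, hB⟩ : ∃ B : ℝ, B = H * (15 * k * (p + J + 1)) ^ j := ⟨_, rfl⟩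
    rw [← hB] at h1 h2
    have hB0 : 0 ≤ B := h1.nonneg
    have hpj : ((p + j : ℕ) : ℝ) ≤ p + J := by
      have : ((p + j : ℕ) : ℝ) ≤ ((p + J : ℕ) : ℝ) := Nat.cast_le.2 (by omega)
      rwa [Nat.cast_add p J] at this
    have hqj : ((q + j : ℕ) : ℝ) ≤ p + J := by
      have : ((q + j : ℕ) : ℝ) ≤ ((p + J : ℕ) : ℝ) := Nat.cast_le.2 (by omega)
      rwa [Nat.cast_add p J] at this
    have hpow : H * (15 * k * (p + J + 1)) ^ (j + 1) = 15 * k * (p + J + 1) * B := by
      rw [hB]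
      ring
    rw [hpow]
    have hkB : 0 ≤ (k : ℝ) * B := mul_nonneg (by linarith) hB0
    have hpJ : (0 : ℝ) ≤ (p : ℝ) + J := by positivity
    have e1 : 9 * (k : ℝ) * (((p + j : ℕ) : ℝ) * B) + 3 * k * B ≤
        15 * k * (p + J + 1) * B := by
      have h3 : (k : ℝ) * B * ((p + j : ℕ) : ℝ) ≤ k * B * (p + J) :=
        mul_le_mul_of_nonneg_left hpj hkB
      have h4 : 0 ≤ (k : ℝ) * B * (p + J) := mul_nonneg hkB hpJ
      nlinarith
    have e2 : 9 * (k : ℝ) * (((q + j : ℕ) : ℝ) * B) + (3 * k * B + 3 * k * B) ≤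
        15 * k * (p + J + 1) * B := by
      have h3 : (k : ℝ) * B * ((q + j : ℕ) : ℝ) ≤ k * B * (p + J) :=
        mul_le_mul_of_nonneg_left hqj hkB
      have h4 : 0 ≤ (k : ℝ) * B * (p + J) := mul_nonneg hkB hpJ
      nlinarith
    constructor
    · show Bd (p + (j + 1)) _ (dP k (sq k P Q j).1 (sq k P Q j).2)
      unfold dP
      exact ((bd_ap hk h1).add ((bd_zp hk h2).mono (by omega) le_rfl)).mono (by omega) e1
    · show Bd (q + (j + 1)) _ (dQ k (sq k P Q j).2)
      unfold dQ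
      have h3 : ap k * Polynomial.derivative (sq k P Q j).2 +
          2 * Polynomial.derivative (zp k) * (sq k P Q j).2 =
          ap k * Polynomial.derivative (sq k P Q j).2 +
            (Polynomial.derivative (zp k) * (sq k P Q j).2 +
              Polynomial.derivative (zp k) * (sq k P Q j).2) := by ring
      rw [h3]
      exact ((bd_ap hk h2).add ((bd_zp hk h2).add (bd_zp hk h2))).mono (by omega) e2

theorem sq_order {k : ℤ} {P Q : Polynomial ℤ} {M : ℕ} (h : PowerSeries.X ^ M ∣ lf k P Q) :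
    ∀ j ≤ M, PowerSeries.X ^ (M - j) ∣ lf k (sq k P Q j).1 (sq k P Q j).2 := by
  intro j
  induction j with
  | zero =>
    intro _
    simpa [sq] using h
  | succ j ih =>
    intro hj
    have h1 := ih (by omega)
    have h2 : M - j = M - (j + 1) + 1 := by omega
    rw [h2] at h1
    exact lf_dvd h1

/-- zero estimate -/
theorem zest {k : ℤ} (hk : 2 ≤ k) {x N : ℤ} (hx : 1 ≤ x) {P Q : Polynomial ℤ} {p q m J : ℕ}
    (hP : P.natDegree ≤ p) (hQ : Q.natDegree ≤ q) (hqp : q ≤ p) (hqm : q ≤ m) (hQ0 : Q ≠ 0)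
    (h : PowerSeries.X ^ (m + 1) ∣ lf k P Q) (hJ : p + q + 1 < m + J) :
    ∃ j ≤ J, (sq k P Q j).1.eval x ≠ (sq k P Q j).2.eval x * N := by
  by_contra hcon
  push Not at hcon
  have hB := br_ne_zero hk hQ0 hQ hqm h
  have h1 := br_order h
  have h2 := br_vanish (x := x) (N := N) (by omega) hcon J 0 1 (by omega) (by omega)
  set B := (br k P Q 0 1).map (Int.castRingHom ℚ) with hBd
  have hB0 : B ≠ 0 := (Polynomial.map_ne_zero_iff (RingHom.injective_int _)).2 hB
  have h3 : Polynomial.X ^ m ∣ B := by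
    have := Polynomial.map_dvd (Int.castRingHom ℚ) h1
    simpa using this
  have hco : IsCoprime (Polynomial.X ^ m : Polynomial ℚ)
      ((Polynomial.X - Polynomial.C (x : ℚ)) ^ J) := by
    refine IsCoprime.pow ?_
    refine ⟨Polynomial.C ((x : ℚ)⁻¹), - Polynomial.C ((x : ℚ)⁻¹), ?_⟩
    have hx0 : (x : ℚ) ≠ 0 := by
      have : (1 : ℚ) ≤ x := by exact_mod_cast hx
      linarith
    have h4 : Polynomial.C ((x : ℚ)⁻¹) * Polynomial.X +
        -Polynomial.C ((x : ℚ)⁻¹) * (Polynomial.X - Polynomial.C (x : ℚ)) =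
        Polynomial.C ((x : ℚ)⁻¹ * x) := by
      rw [Polynomial.C_mul]
      ring
    rw [h4, inv_mul_cancel₀ hx0, Polynomial.C_1]
  have h4 := hco.mul_dvd h3 h2
  have h5 := Polynomial.natDegree_le_of_dvd h4 hB0
  rw [Polynomial.natDegree_mul (pow_ne_zero _ Polynomial.X_ne_zero)
    (pow_ne_zero _ (Polynomial.X_sub_C_ne_zero _)), Polynomial.natDegree_pow,
    Polynomial.natDegree_pow, Polynomial.natDegree_X, Polynomial.natDegree_X_sub_C, mul_one,
    mul_one] at h5
  have h6 : B.natDegree ≤ p + q + 1 := by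
    rw [hBd]
    refine Polynomial.natDegree_map_le.trans ?_
    have hbP : Bd p (∑ i ∈ P.support, |(P.coeff i : ℝ)|) P := by
      refine ⟨fun i hi => Polynomial.coeff_eq_zero_of_natDegree_lt (by omega), fun i => ?_⟩
      by_cases hi : i ∈ P.support
      · exact Finset.single_le_sum (f := fun i => |(P.coeff i : ℝ)|)
          (fun j _ => abs_nonneg _) hi
      · rw [Polynomial.notMem_support_iff.1 hi]
        simp only [Int.cast_zero, abs_zero]
        exact Finset.sum_nonneg fun j _ => abs_nonneg _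
    have hbQ : Bd q (∑ i ∈ Q.support, |(Q.coeff i : ℝ)|) Q := by
      refine ⟨fun i hi => Polynomial.coeff_eq_zero_of_natDegree_lt (by omega), fun i => ?_⟩
      by_cases hi : i ∈ Q.support
      · exact Finset.single_le_sum (f := fun i => |(Q.coeff i : ℝ)|)
          (fun j _ => abs_nonneg _) hi
      · rw [Polynomial.notMem_support_iff.1 hi]
        simp only [Int.cast_zero, abs_zero]
        exact Finset.sum_nonneg fun j _ => abs_nonneg _
    have hk1 : (1 : ℤ) ≤ k := by omega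
    have d1 : (dP k P Q).natDegree ≤ p + 1 := by
      unfold dP
      exact Polynomial.natDegree_add_le_of_degree_le (bd_ap hk1 hbP).natDegree
        ((bd_zp hk1 hbQ).natDegree.trans (by omega))
    have d2 : (dQ k Q).natDegree ≤ q + 1 := by
      unfold dQ
      have h3 : ap k * Polynomial.derivative Q + 2 * Polynomial.derivative (zp k) * Q =
          ap k * Polynomial.derivative Q +
            (Polynomial.derivative (zp k) * Q + Polynomial.derivative (zp k) * Q) := by ring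
      rw [h3]
      exact Polynomial.natDegree_add_le_of_degree_le (bd_ap hk1 hbQ).natDegree
        (Polynomial.natDegree_add_le_of_degree_le (bd_zp hk1 hbQ).natDegree
          (bd_zp hk1 hbQ).natDegree)
    show (P * dQ k Q - dP k P Q * Q).natDegree ≤ p + q + 1
    refine (Polynomial.natDegree_sub_le _ _).trans (max_le ?_ ?_)
    · exact Polynomial.natDegree_mul_le.trans (by omega)
    · exact Polynomial.natDegree_mul_le.trans (by omega)
  omega

end Pool.Agent.Lib.MP_776dcc_nt
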