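import Pool.Agent.Lib.MP_776dcc_nt.HalfFin

/-!
MP_776dcc_nt, part Cnt: the balanced factorisation, prime-power divisors, counting.
-/

set_option autoImplicit false

namespace Pool.Agent.Lib.MP_776dcc_nt

/-- the equation of the curve, `y = 2 N - 1` -/
theorem curve_eq {k x y : ℕ} (hx : 1 ≤ x)
    (h : y ^ 2 + 4 * k * x = 8 * x ^ k + 4 * k * x ^ 2 + 1) :
    ((y + 1) / 2) ^ 2 = (y + 1) / 2 + k * (x * (x - 1)) + 2 * x ^ k := by
  obtain ⟨u, rfl⟩ : ∃ u, x = u + 1 := ⟨x - 1, by omega⟩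
  have hodd : y % 2 = 1 := by
    rcases Nat.mod_two_eq_zero_or_one y with h0 | h0
    · exfalso
      obtain ⟨v, rfl⟩ : ∃ v, y = 2 * v := ⟨y / 2, by omega⟩
      have h1 : (2 * v) ^ 2 + 4 * k * (u + 1) = 2 * (2 * v ^ 2 + 2 * (k * (u + 1))) := by ring
      have h2 : 8 * (u + 1) ^ k + 4 * k * (u + 1) ^ 2 + 1 =
          2 * (4 * (u + 1) ^ k + 2 * (k * (u + 1) ^ 2)) + 1 := by ring
      omega
    · exact h0
  obtain ⟨v, rfl⟩ : ∃ v, y = 2 * v + 1 := ⟨y / 2, by omega⟩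
  have h3 : (2 * v + 1 + 1) / 2 = v + 1 := by omega
  rw [h3, Nat.add_sub_cancel]
  have h4 : 4 * (v + 1) ^ 2 + 4 * k * (u + 1) =
      4 * (v + 1) + 4 * (k * (u + 1) ^ 2) + 4 * (2 * (u + 1) ^ k) := by
    have e1 : (2 * v + 1) ^ 2 = 4 * (v + 1) ^ 2 - 4 * (v + 1) + 1 := by
      have e2 : 4 * (v + 1) ^ 2 = 4 * v ^ 2 + 4 * v + 4 * (v + 1) := by ring
      rw [e2, Nat.add_sub_cancel]
      ring
    have e3 : 4 * (v + 1) ≤ 4 * (v + 1) ^ 2 := by nlinarith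
    rw [e1] at h
    have e4 : 8 * (u + 1) ^ k = 4 * (2 * (u + 1) ^ k) := by ring
    have e5 : 4 * k * (u + 1) ^ 2 = 4 * (k * (u + 1) ^ 2) := by ring
    omega
  have h5 : k * ((u + 1) * u) + k * (u + 1) = k * (u + 1) ^ 2 := by ring
  have h6 : 4 * k * (u + 1) = 4 * (k * (u + 1)) := by ring
  omega

/-- a bound for one common divisor gives a bound from both sides -/
theorem two_sided {k x N : ℕ} {θ : ℝ} (hk : 1 ≤ k) (hx1 : 1 ≤ x)
    (h : N ^ 2 = N + k * (x * (x - 1)) + 2 * x ^ k)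
    (key : ∀ b N' : ℤ, N' ^ 2 - N' = (zp k).eval (x : ℤ) + 2 * (x : ℤ) ^ k → 1 ≤ b →
      b ∣ x → b ∣ N' → Real.log b ≤ θ * Real.log ((x : ℤ) : ℝ)) :
    (x : ℝ) ^ (1 - θ) ≤ Nat.gcd x N ∧ (Nat.gcd x N : ℝ) ≤ (x : ℝ) ^ θ := by
  obtain ⟨hN, hsplit⟩ := gcd_split hk hx1 h
  have hxR : (1 : ℝ) ≤ x := by exact_mod_cast hx1
  have key' : ∀ (b : ℕ) (N' : ℤ), 1 ≤ b → (b : ℤ) ∣ x → (b : ℤ) ∣ N' →
      N' ^ 2 - N' = (zp k).eval (x : ℤ) + 2 * (x : ℤ) ^ k → (b : ℝ) ≤ (x : ℝ) ^ θ := by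
    intro b N' hb hbx hbN hN'
    have h1 := key b N' hN' (by exact_mod_cast hb) hbx hbN
    rw [Int.cast_natCast, Int.cast_natCast] at h1
    have hb0 : (0 : ℝ) < b := by exact_mod_cast hb
    rw [← Real.log_rpow (by linarith)] at h1
    exact (Real.log_le_log_iff hb0 (Real.rpow_pos_of_pos (by linarith) _)).1 h1
  have hb1 : 1 ≤ Nat.gcd x N := Nat.gcd_pos_of_pos_left _ hx1
  have ha1 : 1 ≤ Nat.gcd x (N - 1) := Nat.gcd_pos_of_pos_left _ hx1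
  have hb := key' (Nat.gcd x N) N hb1 (Int.natCast_dvd_natCast.2 (Nat.gcd_dvd_left _ _))
    (Int.natCast_dvd_natCast.2 (Nat.gcd_dvd_right _ _)) (eqZ hx1 h)
  have ha := key' (Nat.gcd x (N - 1)) (1 - N) ha1
    (Int.natCast_dvd_natCast.2 (Nat.gcd_dvd_left _ _))
    (by
      have h1 : ((Nat.gcd x (N - 1) : ℕ) : ℤ) ∣ ((N - 1 : ℕ) : ℤ) :=
        Int.natCast_dvd_natCast.2 (Nat.gcd_dvd_right _ _)
      have h2 : (1 - (N : ℤ)) = - ((N - 1 : ℕ) : ℤ) := by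
        rw [Nat.cast_sub hN]
        push_cast
        ring
      rw [h2]
      exact (dvd_neg).2 h1) (eqZ' hx1 h)
  refine ⟨?_, hb⟩
  have h1 : ((Nat.gcd x N : ℕ) : ℝ) * (Nat.gcd x (N - 1) : ℕ) = x := by exact_mod_cast hsplit
  have h2 : (x : ℝ) ≤ (Nat.gcd x N : ℕ) * (x : ℝ) ^ θ := by
    rw [← h1]
    exact mul_le_mul_of_nonneg_left (by rw [h1]; exact ha) (Nat.cast_nonneg _)
  have h3 : (x : ℝ) ^ (1 - θ) * (x : ℝ) ^ θ = x := by
    rw [← Real.rpow_add (by linarith)]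
    have h4 : (1 - θ) + θ = 1 := by ring
    rw [h4, Real.rpow_one]
  have h4 : (x : ℝ) ^ (1 - θ) * (x : ℝ) ^ θ ≤ (Nat.gcd x N : ℕ) * (x : ℝ) ^ θ := by
    rw [h3]
    exact h2
  exact le_of_mul_le_mul_right h4 (Real.rpow_pos_of_pos (by linarith) _)

/-- Theorem B, `x ≥ k ^ C` -/
theorem balanced_all {δ : ℝ} (hδ : 0 < δ) : ∃ C : ℕ, ∀ k x N : ℕ, 3 ≤ k → k ^ C ≤ x →
    N ^ 2 = N + k * (x * (x - 1)) + 2 * x ^ k →
      (x : ℝ) ^ (1 / 4 - δ) ≤ Nat.gcd x N ∧ (Nat.gcd x N : ℝ) ≤ (x : ℝ) ^ (3 / 4 + δ) := by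
  obtain ⟨C, hC⟩ := dvd_all hδ
  refine ⟨C, fun k x N hk hx h => ?_⟩
  have hk1 : 1 ≤ k := by omega
  have hx1 : 1 ≤ x := (Nat.one_le_pow _ _ hk1).trans hx
  have h1 := two_sided (θ := 3 / 4 + δ) hk1 hx1 h fun b N' hN' hb hbx hbN =>
    hC k x N' b hk (by exact_mod_cast hx) hN' hb hbx hbN
  rwa [show (1 : ℝ) - (3 / 4 + δ) = 1 / 4 - δ by ring] at h1

/-- Theorem B, `x ≥ k ^ (C k)` -/
theorem balanced_half {δ : ℝ} (hδ : 0 < δ) : ∃ C : ℕ, ∀ k x N : ℕ, 3 ≤ k → k ^ (C * k) ≤ x →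
    N ^ 2 = N + k * (x * (x - 1)) + 2 * x ^ k →
      (x : ℝ) ^ (1 / 2 - δ) ≤ Nat.gcd x N ∧ (Nat.gcd x N : ℝ) ≤ (x : ℝ) ^ (1 / 2 + δ) := by
  obtain ⟨K, hK⟩ := exists_nat_gt (1 / δ)
  have hK0 : (0 : ℝ) < K := lt_trans (by positivity) hK
  have hK1 : 1 ≤ K := by exact_mod_cast hK0
  obtain ⟨C, hC⟩ := half_bound hK1
  have hKδ : 1 / (K : ℝ) ≤ δ := by
    rw [div_le_iff₀ hK0]
    rw [div_lt_iff₀ hδ] at hK
    linarith
  refine ⟨C, fun k x N hk hx h => ?_⟩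
  have hk1 : 1 ≤ k := by omega
  have hx1 : 1 ≤ x := (Nat.one_le_pow _ _ hk1).trans hx
  have hL0 : 0 ≤ Real.log ((x : ℤ) : ℝ) := by
    rw [Int.cast_natCast]
    exact Real.log_nonneg (by exact_mod_cast hx1)
  have h1 := two_sided (θ := 1 / 2 + δ) hk1 hx1 h fun b N' hN' hb hbx hbN =>
    (hC k x N' b hk (by exact_mod_cast hx) hN' hb hbx hbN).trans
      (mul_le_mul_of_nonneg_right (by linarith) hL0)
  rwa [show (1 : ℝ) - (1 / 2 + δ) = 1 / 2 - δ by ring] at h1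

/-- a prime power dividing `x` divides `N` or `N - 1` -/
theorem ppow_dvd {k x N q : ℕ} (hk : 1 ≤ k) (hx1 : 1 ≤ x) (hq : IsPrimePow q) (hqx : q ∣ x)
    (h : N ^ 2 = N + k * (x * (x - 1)) + 2 * x ^ k) :
    (q : ℤ) ∣ N ∨ (q : ℤ) ∣ 1 - N := by
  obtain ⟨hN, hs⟩ := gcd_split hk hx1 h
  have hco : Nat.Coprime N (N - 1) := by
    have h1 : Nat.Coprime (N - 1 + 1) (N - 1) := by simp
    rwa [Nat.sub_add_cancel hN] at h1
  have h1 : q ∣ N * (N - 1) := by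
    refine hqx.trans ?_
    rw [← hs]
    exact Nat.mul_dvd_mul (Nat.gcd_dvd_right _ _) (Nat.gcd_dvd_right _ _)
  rcases (Nat.Coprime.isPrimePow_dvd_mul hco hq).1 h1 with h2 | h2
  · exact Or.inl (Int.natCast_dvd_natCast.2 h2)
  · right
    have h3 : (q : ℤ) ∣ ((N - 1 : ℕ) : ℤ) := Int.natCast_dvd_natCast.2 h2
    rw [Nat.cast_sub hN] at h3
    have h4 : (1 - (N : ℤ)) = - ((N : ℤ) - (1 : ℕ)) := by
      push_cast
      ring
    rw [h4]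
    exact (dvd_neg).2 h3

/-- prime-power divisors `≥ x ^ (3/4 + δ)` -/
theorem ppow_bound {δ : ℝ} (hδ : 0 < δ) : ∃ C : ℕ, ∀ k x N q : ℕ, 3 ≤ k → 1 ≤ x →
    N ^ 2 = N + k * (x * (x - 1)) + 2 * x ^ k → IsPrimePow q → q ∣ x →
      (x : ℝ) ^ (3 / 4 + δ) ≤ q → x ≤ k ^ C := by
  obtain ⟨C, hC⟩ := dvd_all (half_pos hδ)
  refine ⟨C, fun k x N q hk hx1 h hq hqx hqs => ?_⟩
  by_contra hcon
  push Not at hcon
  have hx2 : 1 < x := lt_of_le_of_lt (Nat.one_le_pow _ _ (by omega)) hcon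
  have hxR : (1 : ℝ) < x := by exact_mod_cast hx2
  have hlog : 0 < Real.log x := Real.log_pos hxR
  have hq1 : 1 ≤ q := hq.one_lt.le
  have h1 : Real.log q ≤ (3 / 4 + δ / 2) * Real.log x := by
    rcases ppow_dvd (by omega) hx1 hq hqx h with h1 | h1
    · have h2 := hC k x N q hk (by exact_mod_cast hcon.le) (eqZ hx1 h) (by exact_mod_cast hq1)
        (Int.natCast_dvd_natCast.2 hqx) h1
      simpa using h2
    · have h2 := hC k x (1 - N) q hk (by exact_mod_cast hcon.le) (eqZ' hx1 h)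
        (by exact_mod_cast hq1) (Int.natCast_dvd_natCast.2 hqx) h1
      simpa using h2
  have h2 := Real.log_le_log (Real.rpow_pos_of_pos (by linarith) _) hqs
  rw [Real.log_rpow (by linarith)] at h2
  nlinarith [mul_pos hδ hlog]

/-- prime-power divisors `≥ x ^ (1/2 + δ)` -/
theorem ppow_half {δ : ℝ} (hδ : 0 < δ) : ∃ C : ℕ, ∀ k x N q : ℕ, 3 ≤ k → 1 ≤ x →
    N ^ 2 = N + k * (x * (x - 1)) + 2 * x ^ k → IsPrimePow q → q ∣ x →
      (x : ℝ) ^ (1 / 2 + δ) ≤ q → x ≤ k ^ (C * k) := by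
  obtain ⟨K, hK⟩ := exists_nat_gt (2 / δ)
  have hK0 : (0 : ℝ) < K := lt_trans (by positivity) hK
  have hK1 : 1 ≤ K := by exact_mod_cast hK0
  obtain ⟨C, hC⟩ := half_bound hK1
  have hKδ : 1 / (K : ℝ) ≤ δ / 2 := by
    rw [div_le_iff₀ hK0]
    rw [div_lt_iff₀ hδ] at hK
    linarith
  refine ⟨C, fun k x N q hk hx1 h hq hqx hqs => ?_⟩
  by_contra hcon
  push Not at hcon
  have hx2 : 1 < x := lt_of_le_of_lt (Nat.one_le_pow _ _ (by omega)) hcon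
  have hxR : (1 : ℝ) < x := by exact_mod_cast hx2
  have hlog : 0 < Real.log x := Real.log_pos hxR
  have hq1 : 1 ≤ q := hq.one_lt.le
  have h1 : Real.log q ≤ (1 / 2 + 1 / K) * Real.log x := by
    rcases ppow_dvd (by omega) hx1 hq hqx h with h1 | h1
    · have h2 := hC k x N q hk (by exact_mod_cast hcon.le) (eqZ hx1 h) (by exact_mod_cast hq1)
        (Int.natCast_dvd_natCast.2 hqx) h1
      simpa using h2
    · have h2 := hC k x (1 - N) q hk (by exact_mod_cast hcon.le) (eqZ' hx1 h)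
        (by exact_mod_cast hq1) (Int.natCast_dvd_natCast.2 hqx) h1
      simpa using h2
  have h2 := Real.log_le_log (Real.rpow_pos_of_pos (by linarith) _) hqs
  rw [Real.log_rpow (by linarith)] at h2
  nlinarith [mul_pos hδ hlog, mul_le_mul_of_nonneg_right hKδ hlog.le]

end Pool.Agent.Lib.MP_776dcc_nt
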