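import Pool.Agent.Lib.MP_776dcc_nt.Cnt

/-!
MP_776dcc_nt, part Cnt2: counting the `n` with a tuple of two distinct entries.
-/

set_option autoImplicit false

namespace Pool.Agent.Lib.MP_776dcc_nt

/-- the shape of an element of `S(n)`, `n ≥ 6`, with two distinct entries -/
theorem shape {n : ℕ} (hn : 6 ≤ n) {X : Multiset ℕ} (hX : IsS n X)
    (h2 : X.toFinset.card = 2) : ∃ b r k : ℕ, 2 ≤ b ∧ 3 ≤ k ∧ r + k = n ∧
      X = Multiset.replicate r 1 + Multiset.replicate k b ∧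
      (r + k * b) ^ 2 = (r + k * b) + k * (b * (b - 1)) + 2 * b ^ k := by
  classical
  obtain ⟨b, r, k, hb, hXe⟩ := two_values hn hX h2
  have hcard : r + k = n := by
    rw [← hX.1, hXe, Multiset.card_add, Multiset.card_replicate, Multiset.card_replicate]
  have hk0 : k ≠ 0 := by
    rintro rfl
    rw [hXe, Multiset.replicate_zero, add_zero] at h2
    have h3 : (Multiset.replicate r 1).toFinset ⊆ {1} := by
      intro a ha
      rw [Multiset.mem_toFinset] at ha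
      rw [Finset.mem_singleton]
      exact Multiset.eq_of_mem_replicate ha
    have h4 := Finset.card_le_card h3
    rw [Finset.card_singleton] at h4
    omega
  have heq : (2 * (r + k * b) - 1) ^ 2 + 4 * k * b = 8 * b ^ k + 4 * k * b ^ 2 + 1 := by
    refine tuple_eq hb (by omega) ?_
    rw [← hXe]
    exact hX.2.2
  have hk1 : k ≠ 1 := by
    rintro rfl
    obtain ⟨r', rfl⟩ : ∃ r', r = r' + 5 := ⟨r - 5, by omega⟩
    have h3 : 2 * (r' + 5 + 1 * b) - 1 = 2 * r' + 9 + 2 * b := by omega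
    rw [h3] at heq
    nlinarith
  have hk2 : k ≠ 2 := by
    rintro rfl
    obtain ⟨r', rfl⟩ : ∃ r', r = r' + 4 := ⟨r - 4, by omega⟩
    have h3 : 2 * (r' + 4 + 2 * b) - 1 = 2 * r' + 7 + 4 * b := by omega
    rw [h3] at heq
    nlinarith
  refine ⟨b, r, k, hb, by omega, hcard, hXe, ?_⟩
  have h3 := curve_eq (by omega) heq
  have h4 : 1 ≤ r + k * b := by
    have : 1 * 2 ≤ k * b := Nat.mul_le_mul (by omega) hb
    omega
  have h5 : (2 * (r + k * b) - 1 + 1) / 2 = r + k * b := by omega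
  rwa [h5] at h3

/-- `n` as a function of `k` and `x` -/
def nof (t : ℕ × ℕ) : ℕ :=
  (Nat.sqrt (1 + 4 * (t.1 * (t.2 * (t.2 - 1)) + 2 * t.2 ^ t.1)) + 1) / 2 - t.1 * (t.2 - 1)

theorem nof_eq {k b r : ℕ} (hb : 2 ≤ b) (hk : 1 ≤ k)
    (h : (r + k * b) ^ 2 = (r + k * b) + k * (b * (b - 1)) + 2 * b ^ k) :
    nof (k, b) = r + k := by
  have h4 : 1 ≤ r + k * b := by
    have : 1 * 2 ≤ k * b := Nat.mul_le_mul (by omega) hb
    omega
  obtain ⟨M, hM⟩ : ∃ M, r + k * b = M + 1 := ⟨r + k * b - 1, by omega⟩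
  rw [hM] at h
  have h1 : 1 + 4 * (k * (b * (b - 1)) + 2 * b ^ k) = (2 * M + 1) * (2 * M + 1) := by
    have h2 : k * (b * (b - 1)) + 2 * b ^ k = M ^ 2 + M := by
      have h3 : (M + 1) ^ 2 = (M + 1) + (M ^ 2 + M) := by ring
      omega
    rw [h2]
    ring
  have h6 : k * (b - 1) = k * b - k := by
    rw [Nat.mul_sub, mul_one]
  have h7 : k ≤ k * b := Nat.le_mul_of_pos_right k (by omega)
  unfold nof
  show (Nat.sqrt (1 + 4 * (k * (b * (b - 1)) + 2 * b ^ k)) + 1) / 2 - k * (b - 1) = r + k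
  rw [h1, Nat.sqrt_eq, h6]
  omega

/-- `k` is at most logarithmic -/
theorem k_bound {k b r T : ℕ} (hb : 2 ≤ b) (hk : 3 ≤ k) (hT : r + k ≤ T)
    (h : (r + k * b) ^ 2 = (r + k * b) + k * (b * (b - 1)) + 2 * b ^ k) :
    k ≤ Nat.log 2 (T ^ 2) + 1 := by
  have h1 : r + k * b ≤ T * b := by
    calc r + k * b ≤ r * b + k * b :=
          Nat.add_le_add_right (Nat.le_mul_of_pos_right r (by omega)) _
      _ = (r + k) * b := by ring
      _ ≤ T * b := Nat.mul_le_mul_right b hT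
  have h2 : 2 * b ^ k ≤ (T * b) ^ 2 := by
    refine le_trans ?_ (Nat.pow_le_pow_left h1 2)
    rw [h]
    exact Nat.le_add_left _ _
  have h3 : 2 * b ^ (k - 2) * b ^ 2 ≤ T ^ 2 * b ^ 2 := by
    calc 2 * b ^ (k - 2) * b ^ 2 = 2 * b ^ k := by
          rw [mul_assoc, ← pow_add]
          congr 2
          omega
      _ ≤ (T * b) ^ 2 := h2
      _ = T ^ 2 * b ^ 2 := by ring
  have h4 : 2 * b ^ (k - 2) ≤ T ^ 2 := Nat.le_of_mul_le_mul_right h3 (by positivity)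
  have h5 : 2 ^ (k - 1) ≤ T ^ 2 := by
    calc 2 ^ (k - 1) = 2 * 2 ^ (k - 2) := by
          rw [← pow_succ']
          congr 1
          omega
      _ ≤ 2 * b ^ (k - 2) := Nat.mul_le_mul_left 2 (Nat.pow_le_pow_left hb _)
      _ ≤ T ^ 2 := h4
  have h6 := Nat.le_log_of_pow_le (by norm_num : 1 < 2) h5
  omega

/-- the number of `n ≤ T` -/
theorem count {δ : ℝ} (hδ : 0 < δ) : ∃ A : ℕ, ∀ T : ℕ, 3 ≤ T →
    (Nat.card {n : ℕ // n ≤ T ∧ ∃ X : Multiset ℕ, IsS n X ∧ X.toFinset.card = 2 ∧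
      ∃ x ∈ X, ∃ q, IsPrimePow q ∧ q ∣ x ∧ (x : ℝ) ^ (3 / 4 + δ) ≤ q} : ℝ) ≤
        A * (Real.log T) ^ A := by
  classical
  obtain ⟨C, hC⟩ := ppow_bound hδ
  obtain ⟨A, hA⟩ : ∃ A : ℕ, A = 10 * 4 ^ (C + 1) := ⟨_, rfl⟩
  refine ⟨A, fun T hT => ?_⟩
  obtain ⟨R, hR⟩ : ∃ R, R = Nat.log 2 (T ^ 2) + 1 := ⟨_, rfl⟩
  -- the inclusion
  have hsub : {n : ℕ | n ≤ T ∧ ∃ X : Multiset ℕ, IsS n X ∧ X.toFinset.card = 2 ∧
      ∃ x ∈ X, ∃ q, IsPrimePow q ∧ q ∣ x ∧ (x : ℝ) ^ (3 / 4 + δ) ≤ q} ⊆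
      ((Finset.range 6 ∪ (Finset.range (R + 1) ×ˢ Finset.range (R ^ C + 1)).image nof :
        Finset ℕ) : Set ℕ) := by
    rintro n ⟨hnT, X, hX, h2, x, hx, q, hq, hqx, hqs⟩
    rw [Finset.mem_coe, Finset.mem_union]
    rcases lt_or_ge n 6 with hn | hn
    · exact Or.inl (Finset.mem_range.2 hn)
    right
    obtain ⟨b, r, k, hb, hk, hcard, hXe, heq⟩ := shape hn hX h2
    have hxb : x = b := by
      rw [hXe, Multiset.mem_add] at hx
      rcases hx with h3 | h3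
      · exfalso
        rw [Multiset.eq_of_mem_replicate h3] at hqx
        exact hq.one_lt.ne' (Nat.dvd_one.1 hqx)
      · exact Multiset.eq_of_mem_replicate h3
    subst hxb
    have hkR : k ≤ R := by
      rw [hR]
      exact k_bound hb hk (by omega) heq
    have hxC := hC k x (r + k * x) q hk (by omega) heq hq hqx hqs
    refine Finset.mem_image.2 ⟨(k, x), ?_, ?_⟩
    · rw [Finset.mem_product, Finset.mem_range, Finset.mem_range]
      refine ⟨by omega, ?_⟩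
      have h3 := Nat.pow_le_pow_left hkR C
      show x < R ^ C + 1
      omega
    · rw [nof_eq hb (by omega) heq, hcard]
  have hcard : Nat.card {n : ℕ // n ≤ T ∧ ∃ X : Multiset ℕ, IsS n X ∧ X.toFinset.card = 2 ∧
      ∃ x ∈ X, ∃ q, IsPrimePow q ∧ q ∣ x ∧ (x : ℝ) ^ (3 / 4 + δ) ≤ q} ≤
      6 + (R + 1) * (R ^ C + 1) := by
    have h1 := Set.ncard_le_ncard hsub (Finset.finite_toSet _)
    rw [Set.ncard_coe_finset] at h1
    refine le_trans h1 ((Finset.card_union_le _ _).trans ?_)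
    refine Nat.add_le_add (by rw [Finset.card_range]) (Finset.card_image_le.trans ?_)
    rw [Finset.card_product, Finset.card_range, Finset.card_range]
  -- the size of R
  have hTR : (3 : ℝ) ≤ T := by exact_mod_cast hT
  have hL1 : 1 ≤ Real.log T := by
    rw [Real.le_log_iff_exp_le (by linarith)]
    have := Real.exp_one_lt_d9
    linarith
  have hR1 : 1 ≤ R := by omega
  have hR4 : (R : ℝ) ≤ 4 * Real.log T := by
    have h1 : 2 ^ Nat.log 2 (T ^ 2) ≤ T ^ 2 := Nat.pow_log_le_self 2 (by positivity)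
    have h2 : ((2 : ℝ)) ^ Nat.log 2 (T ^ 2) ≤ (T : ℝ) ^ 2 := by exact_mod_cast h1
    have h3 := Real.log_le_log (by positivity) h2
    rw [Real.log_pow, Real.log_pow] at h3
    have h4 := Real.log_two_gt_d9
    have h5 : (R : ℝ) = (Nat.log 2 (T ^ 2) : ℝ) + 1 := by
      rw [hR]
      push_cast
      ring
    have h6 : (0 : ℝ) ≤ (Nat.log 2 (T ^ 2) : ℝ) := Nat.cast_nonneg _
    rw [h5]
    push_cast at h3
    nlinarith
  have hRR : (1 : ℝ) ≤ R := by exact_mod_cast hR1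
  have h1 : (Nat.card {n : ℕ // n ≤ T ∧ ∃ X : Multiset ℕ, IsS n X ∧ X.toFinset.card = 2 ∧
      ∃ x ∈ X, ∃ q, IsPrimePow q ∧ q ∣ x ∧ (x : ℝ) ^ (3 / 4 + δ) ≤ q} : ℝ) ≤
      ((6 + (R + 1) * (R ^ C + 1) : ℕ) : ℝ) := Nat.cast_le.2 hcard
  refine h1.trans ?_
  have hRC : (1 : ℝ) ≤ (R : ℝ) ^ C := one_le_pow₀ hRR
  have h2 : ((6 + (R + 1) * (R ^ C + 1) : ℕ) : ℝ) ≤ 10 * (R : ℝ) ^ (C + 1) := by
    push_cast
    rw [pow_succ]
    nlinarith
  refine h2.trans ?_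
  calc 10 * (R : ℝ) ^ (C + 1) ≤ 10 * (4 * Real.log T) ^ (C + 1) :=
        mul_le_mul_of_nonneg_left (pow_le_pow_left₀ (by linarith) hR4 _) (by norm_num)
    _ = (A : ℝ) * (Real.log T) ^ (C + 1) := by
        rw [hA, mul_pow]
        push_cast
        ring
    _ ≤ (A : ℝ) * (Real.log T) ^ A := by
        refine mul_le_mul_of_nonneg_left (pow_le_pow_right₀ hL1 ?_) (Nat.cast_nonneg _)
        rw [hA]
        have h3 : C + 1 < 4 ^ (C + 1) := Nat.lt_pow_self (by norm_num)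
        omega

end Pool.Agent.Lib.MP_776dcc_nt
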