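import Pool.Agent.Lib.MP_776dcc_nt.WSer

/-!
MP_776dcc_nt, part Cong: approximations `P - Q w`, congruences for `N`, derivation.
-/

set_option autoImplicit false

namespace Pool.Agent.Lib.MP_776dcc_nt

open scoped PowerSeries

/-- `1 + 4 k (X² - X)` -/
noncomputable def ap (k : ℤ) : Polynomial ℤ := 1 + 4 * zp k

/-- `P - Q w` -/
noncomputable def lf (k : ℤ) (P Q : Polynomial ℤ) : PowerSeries ℤ :=
  (P : PowerSeries ℤ) - (Q : PowerSeries ℤ) * ws k

/-- the derived pair, first component -/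
noncomputable def dP (k : ℤ) (P Q : Polynomial ℤ) : Polynomial ℤ :=
  ap k * Polynomial.derivative P + Polynomial.derivative (zp k) * Q

/-- the derived pair, second component -/
noncomputable def dQ (k : ℤ) (Q : Polynomial ℤ) : Polynomial ℤ :=
  ap k * Polynomial.derivative Q + 2 * Polynomial.derivative (zp k) * Q

theorem coe_four : ((4 : Polynomial ℤ) : PowerSeries ℤ) = 4 :=
  map_ofNat (Polynomial.coeToPowerSeries.ringHom (R := ℤ)) 4

theorem coe_two : ((2 : Polynomial ℤ) : PowerSeries ℤ) = 2 :=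
  map_ofNat (Polynomial.coeToPowerSeries.ringHom (R := ℤ)) 2

theorem ws_deriv (k : ℤ) : (ap k : PowerSeries ℤ) * PowerSeries.derivative ℤ (ws k) =
    (Polynomial.derivative (zp k) : PowerSeries ℤ) * (2 * ws k - 1) := by
  have h1 := congrArg (PowerSeries.derivative ℤ) (ws_eq k)
  rw [PowerSeries.derivative_coe, map_sub, PowerSeries.derivative_pow] at h1
  have h2 : (ap k : PowerSeries ℤ) = (2 * ws k - 1) ^ 2 := by
    have h3 := ws_eq k
    unfold ap
    push_cast
    rw [← h3, coe_four]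
    ring
  rw [h2, ← h1]
  norm_num
  ring

theorem lf_deriv (k : ℤ) (P Q : Polynomial ℤ) :
    (ap k : PowerSeries ℤ) * PowerSeries.derivative ℤ (lf k P Q) = lf k (dP k P Q) (dQ k Q) := by
  unfold lf dP dQ
  have h := ws_deriv k
  rw [map_sub, Derivation.leibniz, PowerSeries.derivative_coe, PowerSeries.derivative_coe]
  push_cast
  rw [smul_eq_mul, smul_eq_mul, coe_two]
  have e1 : (ap k : PowerSeries ℤ) * ((Polynomial.derivative P : PowerSeries ℤ) -
      ((Q : PowerSeries ℤ) * PowerSeries.derivative ℤ (ws k) +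
        ws k * (Polynomial.derivative Q : PowerSeries ℤ))) =
      (ap k : PowerSeries ℤ) * (Polynomial.derivative P : PowerSeries ℤ) -
      ((Q : PowerSeries ℤ) * ((ap k : PowerSeries ℤ) * PowerSeries.derivative ℤ (ws k)) +
        ws k * ((ap k : PowerSeries ℤ) * (Polynomial.derivative Q : PowerSeries ℤ))) := by
    ring
  rw [e1, h]
  ring

theorem dvd_deriv {φ : PowerSeries ℤ} {m : ℕ} (h : PowerSeries.X ^ (m + 1) ∣ φ) :
    PowerSeries.X ^ m ∣ PowerSeries.derivative ℤ φ := by
  rw [PowerSeries.X_pow_dvd_iff] at h ⊢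
  intro n hn
  rw [PowerSeries.coeff_derivative, h (n + 1) (by omega), zero_mul]

theorem lf_dvd {k : ℤ} {P Q : Polynomial ℤ} {m : ℕ}
    (h : PowerSeries.X ^ (m + 1) ∣ lf k P Q) :
    PowerSeries.X ^ m ∣ lf k (dP k P Q) (dQ k Q) := by
  rw [← lf_deriv]
  exact (dvd_deriv h).mul_left _

theorem coe_dvd {f : Polynomial ℤ} {m : ℕ} (h : PowerSeries.X ^ m ∣ (f : PowerSeries ℤ)) :
    Polynomial.X ^ m ∣ f := by
  rw [PowerSeries.X_pow_dvd_iff] at h
  rw [Polynomial.X_pow_dvd_iff]
  intro d hd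
  have := h d hd
  rwa [Polynomial.coeff_coe] at this

/-- the congruence -/
theorem cong {k : ℕ} {x N b : ℤ} (hN : N ^ 2 - N = (zp k).eval x + 2 * x ^ k) (hbx : b ∣ x)
    (hbN : b ∣ N) {P Q : Polynomial ℤ} {m : ℕ} (hm : m ≤ k)
    (h : PowerSeries.X ^ m ∣ lf k P Q) : b ^ m ∣ P.eval x - Q.eval x * N := by
  rcases Nat.eq_zero_or_pos m with rfl | hm0
  · rw [pow_zero]
    exact one_dvd _
  set T : Polynomial ℤ := PowerSeries.trunc m (ws k) with hT
  have hTw : PowerSeries.X ^ m ∣ (ws k : PowerSeries ℤ) - (T : PowerSeries ℤ) := by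
    rw [PowerSeries.X_pow_dvd_iff]
    intro n hn
    rw [map_sub, Polynomial.coeff_coe, hT, PowerSeries.coeff_trunc, if_pos hn, sub_self]
  have h1 : Polynomial.X ^ m ∣ P - Q * T := by
    apply coe_dvd
    push_cast
    have e1 : (P : PowerSeries ℤ) - (Q : PowerSeries ℤ) * (T : PowerSeries ℤ) =
        lf k P Q + (Q : PowerSeries ℤ) * (ws k - (T : PowerSeries ℤ)) := by
      unfold lf
      ring
    rw [e1]
    exact dvd_add h (hTw.mul_left _)
  have h2 : Polynomial.X ^ m ∣ T ^ 2 - T - zp k := by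
    apply coe_dvd
    push_cast
    rw [← ws_eq k]
    have e1 : (T : PowerSeries ℤ) ^ 2 - (T : PowerSeries ℤ) - ((ws k) ^ 2 - ws k) =
        (ws k - (T : PowerSeries ℤ)) * (1 - ws k - (T : PowerSeries ℤ)) := by
      ring
    rw [e1]
    exact hTw.mul_right _
  have h3 : Polynomial.X ∣ T := by
    rw [Polynomial.X_dvd_iff, hT, PowerSeries.coeff_trunc, if_pos hm0,
      PowerSeries.coeff_zero_eq_constantCoeff_apply, ws_zero]
  have hev : ∀ {f g : Polynomial ℤ}, f ∣ g → f.eval x ∣ g.eval x := by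
    intro f g hfg
    exact map_dvd (Polynomial.evalRingHom x) hfg
  have e1 : x ^ m ∣ P.eval x - Q.eval x * T.eval x := by
    have := hev h1
    simpa using this
  have e2 : x ^ m ∣ T.eval x ^ 2 - T.eval x - (zp k).eval x := by
    have := hev h2
    simpa using this
  have e3 : x ∣ T.eval x := by
    have := hev h3
    simpa using this
  have hbm : b ^ m ∣ x ^ m := pow_dvd_pow_of_dvd hbx m
  have e4 : b ^ m ∣ (N - T.eval x) * (N + T.eval x - 1) := by
    have e5 : (N - T.eval x) * (N + T.eval x - 1) =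
        2 * x ^ k - (T.eval x ^ 2 - T.eval x - (zp k).eval x) := by
      linear_combination hN
    rw [e5]
    refine dvd_sub (Dvd.dvd.mul_left (hbm.trans (pow_dvd_pow x hm)) 2) (hbm.trans e2)
  have hco : IsCoprime (b ^ m) (N + T.eval x - 1) := by
    refine IsCoprime.pow_left ?_
    obtain ⟨u, hu⟩ := dvd_add hbN (hbx.trans e3)
    exact ⟨u, -1, by linear_combination -hu⟩
  have e6 : b ^ m ∣ N - T.eval x := hco.dvd_of_dvd_mul_right e4
  have e7 : P.eval x - Q.eval x * N = (P.eval x - Q.eval x * T.eval x) -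
      Q.eval x * (N - T.eval x) := by ring
  rw [e7]
  exact dvd_sub (hbm.trans e1) (e6.mul_left _)

end Pool.Agent.Lib.MP_776dcc_nt
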