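import Mathlib

/-!
MP_776dcc_nt, part Elem: elementary facts on the solutions of `y² = 8 x^k + 4 k x² - 4 k x + 1`.
-/

set_option autoImplicit false

namespace Pool.Agent.Lib.MP_776dcc_nt

/-- a number field which contains square roots of `2 d` for all `d ≤ D` -/
theorem exists_field (D : ℕ) : ∃ (K : Type) (_ : Field K) (_ : NumberField K) (α : ℕ → K),
    ∀ d ≤ D, α d ^ 2 = 2 * (d : K) := by
  classical
  let S : Finset ℝ := (Finset.range (D + 1)).image fun d : ℕ => Real.sqrt (2 * (d : ℝ))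
  have hsq : ∀ d : ℕ, Real.sqrt (2 * (d : ℝ)) ^ 2 = 2 * (d : ℝ) := fun d =>
    Real.sq_sqrt (by positivity)
  have hS : ∀ x ∈ (S : Set ℝ), IsIntegral ℚ x := by
    intro x hx
    rw [Finset.mem_coe, Finset.mem_image] at hx
    obtain ⟨d, -, rfl⟩ := hx
    have h1 : Real.sqrt (2 * (d : ℝ)) ^ 2 = algebraMap ℚ ℝ (2 * (d : ℚ)) := by
      rw [hsq]
      simp
    refine IsIntegral.of_pow (n := 2) (by norm_num) ?_
    rw [h1]
    exact isIntegral_algebraMap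
  have hfd : FiniteDimensional ℚ (IntermediateField.adjoin ℚ (S : Set ℝ)) :=
    IntermediateField.finiteDimensional_adjoin hS
  have hmem : ∀ d ≤ D, Real.sqrt (2 * (d : ℝ)) ∈ IntermediateField.adjoin ℚ (S : Set ℝ) := by
    intro d hd
    refine IntermediateField.subset_adjoin ℚ _ ?_
    rw [Finset.mem_coe, Finset.mem_image]
    exact ⟨d, Finset.mem_range.2 (by omega), rfl⟩
  refine ⟨IntermediateField.adjoin ℚ (S : Set ℝ), inferInstance,
    @NumberField.mk _ _ inferInstance hfd,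
    fun d => if h : d ≤ D then ⟨Real.sqrt (2 * (d : ℝ)), hmem d h⟩ else 0, ?_⟩
  intro d hd
  simp only [dif_pos hd]
  apply Subtype.ext
  rw [SubmonoidClass.coe_pow]
  show Real.sqrt (2 * (d : ℝ)) ^ 2 = _
  rw [hsq]
  norm_cast

/-- the part of a number composed of primes of `P` -/
theorem exists_part (P : Finset ℕ) : ∀ n : ℕ, n ≠ 0 → ∃ m n' : ℕ, n = m * n' ∧
    (∀ p, p.Prime → p ∣ m → p ∈ P) ∧ ∀ p ∈ P, p.Prime → ¬ p ∣ n' := by
  intro n
  induction n using Nat.strong_induction_on with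
  | _ n ih =>
    intro hn
    by_cases h : ∃ p ∈ P, p.Prime ∧ p ∣ n
    · obtain ⟨p, hp, hpp, q, rfl⟩ := h
      have hq : q ≠ 0 := by
        rintro rfl
        exact hn (mul_zero _)
      obtain ⟨m, n', h1, h2, h3⟩ := ih q
        (lt_mul_of_one_lt_left (Nat.pos_of_ne_zero hq) hpp.one_lt) hq
      refine ⟨p * m, n', by rw [h1, mul_assoc], fun r hr hrm => ?_, h3⟩
      rcases (hr.dvd_mul).1 hrm with h4 | h4
      · rwa [(Nat.prime_dvd_prime_iff_eq hr hpp).1 h4]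
      · exact h2 r hr h4
    · push Not at h
      exact ⟨1, n, (one_mul n).symm, fun p hp hp1 => absurd (Nat.dvd_one.1 hp1) hp.one_lt.ne',
        fun p hp hpp => h p hp hpp⟩

theorem part_dvd {P : Finset ℕ} {μ d m n' : ℕ} (hμ : ∀ p, p.Prime → p ∣ μ → p ∈ P)
    (hn' : ∀ p ∈ P, p.Prime → ¬ p ∣ n') (h : μ ∣ d * (m * n') ^ 2) : μ ∣ d * m ^ 2 := by
  have hco : Nat.Coprime μ (n' ^ 2) := by
    refine Nat.Coprime.pow_right 2 ?_
    refine Nat.Coprime.symm (Nat.coprime_of_dvd fun p hp hpn hpμ => ?_)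
    exact hn' p (hμ p hp hpμ) hp hpn
  have h1 : d * (m * n') ^ 2 = (d * m ^ 2) * n' ^ 2 := by ring
  rw [h1] at h
  exact hco.dvd_of_dvd_mul_right h

theorem sol_coprime {k x y : ℕ} (hk : 3 ≤ k)
    (h : y ^ 2 + 4 * k * x = 8 * x ^ k + 4 * k * x ^ 2 + 1) : Nat.Coprime y (2 * x) := by
  obtain ⟨j, rfl⟩ : ∃ j, k = j + 1 := ⟨k - 1, by omega⟩
  refine Nat.coprime_of_dvd fun p hp h1 h2 => ?_
  have h3 : p ∣ 1 := by
    have h4 : p ∣ y ^ 2 + 4 * (j + 1) * x := by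
      refine dvd_add (dvd_pow h1 two_ne_zero) ?_
      have : 4 * (j + 1) * x = 2 * x * (2 * (j + 1)) := by ring
      rw [this]
      exact h2.mul_right _
    rw [h] at h4
    have h5 : p ∣ 8 * x ^ (j + 1) + 4 * (j + 1) * x ^ 2 := by
      have : 8 * x ^ (j + 1) + 4 * (j + 1) * x ^ 2 = 2 * x * (4 * x ^ j + 2 * (j + 1) * x) := by
        ring
      rw [this]
      exact h2.mul_right _
    exact (Nat.dvd_add_right h5).1 h4
  exact hp.one_lt.ne' (Nat.dvd_one.1 h3)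

theorem sol_data {k x y d s : ℕ} (hk : 3 ≤ k) (hx : 2 ≤ x)
    (h : y ^ 2 + 4 * k * x = 8 * x ^ k + 4 * k * x ^ 2 + 1) (hs : x ^ k = d * s ^ 2) :
    1 ≤ d ∧ 1 ≤ s ∧ Nat.Coprime y (2 * s) ∧
      y ^ 2 = 2 * d * (2 * s) ^ 2 + (4 * k * (x * (x - 1)) + 1) := by
  have hxk : 0 < x ^ k := by positivity
  have hd : d ≠ 0 := by
    rintro rfl
    rw [zero_mul] at hs
    omega
  have hs0 : s ≠ 0 := by
    rintro rfl
    simp at hs
    omega
  refine ⟨by omega, by omega, ?_, ?_⟩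
  · have h1 : Nat.Coprime y ((2 * x) ^ k) := (sol_coprime hk h).pow_right k
    refine h1.coprime_dvd_right ?_
    rw [mul_pow]
    refine mul_dvd_mul (dvd_pow_self 2 (by omega)) ?_
    rw [hs]
    exact ⟨d * s, by ring⟩
  · obtain ⟨u, rfl⟩ : ∃ u, x = u + 1 := ⟨x - 1, by omega⟩
    rw [Nat.add_sub_cancel]
    have h2 : 2 * d * (2 * s) ^ 2 = 8 * (u + 1) ^ k := by
      rw [hs]
      ring
    rw [h2]
    nlinarith [h]

theorem sol_y_lower {k x y : ℕ} (hx : 2 ≤ x)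
    (h : y ^ 2 + 4 * k * x = 8 * x ^ k + 4 * k * x ^ 2 + 1) : x ^ k ≤ y ^ 2 := by
  have h1 : 4 * k * x ≤ 4 * k * x ^ 2 := by
    rw [pow_two]
    exact Nat.mul_le_mul_left _ (Nat.le_mul_of_pos_left x (by omega))
  omega

theorem sol_upper {k x y d s : ℕ} (hk : 3 ≤ k) (hx : 2 ≤ x)
    (h : y ^ 2 + 4 * k * x = 8 * x ^ k + 4 * k * x ^ 2 + 1) (hs : x ^ k = d * s ^ 2) :
    y + 2 * s ≤ x ^ (2 * k) := by
  obtain ⟨hd, hs1, -, -⟩ := sol_data hk hx h hs
  have hkx : k ≤ x ^ k := (Nat.lt_pow_self (by omega)).le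
  have hx2 : x ^ 2 ≤ x ^ k := Nat.pow_le_pow_right (by omega) (by omega)
  have hx3 : 8 ≤ x ^ k := by
    calc 8 = 2 ^ 3 := by norm_num
      _ ≤ x ^ 3 := Nat.pow_le_pow_left hx 3
      _ ≤ x ^ k := Nat.pow_le_pow_right (by omega) hk
  have hsx : s ≤ x ^ k := by
    rw [hs]
    calc s = 1 * s * 1 := by ring
      _ ≤ d * s * s := Nat.mul_le_mul (Nat.mul_le_mul_right _ hd) hs1
      _ = d * s ^ 2 := by ring
  set A := x ^ k with hA
  have h1 : 4 * k * x ^ 2 ≤ 4 * A * A := Nat.mul_le_mul (Nat.mul_le_mul_left _ hkx) hx2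
  have hy : y ≤ 4 * A := by
    by_contra hcon
    push Not at hcon
    have h2 : (4 * A) * (4 * A) < y * y := Nat.mul_self_lt_mul_self hcon
    have h3 : y ^ 2 ≤ 8 * A + 4 * A * A + 1 := by
      have h6 : 0 ≤ 4 * k * x := Nat.zero_le _
      linarith
    have h4 : y * y = y ^ 2 := (pow_two y).symm
    nlinarith
  have h5 : x ^ (2 * k) = A * A := by
    rw [hA]
    ring
  rw [h5]
  nlinarith

end Pool.Agent.Lib.MP_776dcc_nt
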