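import Pool.Agent.Lib.MP_776dcc_nt.Gcd

/-!
MP_776dcc_nt, part Fin: the choice of the parameters.
-/

set_option autoImplicit false

namespace Pool.Agent.Lib.MP_776dcc_nt

theorem log_bound {k F : ℕ} {x N b : ℤ} (hk : 16 ≤ k) (hF : 1 ≤ F) (hF8 : 8 * F ≤ k)
    (hxk : (k : ℤ) ≤ x) (hN : N ^ 2 - N = (zp k).eval x + 2 * x ^ k) (hb : 1 ≤ b)
    (hbx : b ∣ x) (hbN : b ∣ N) :
    ((k : ℝ) - F - 2) * Real.log b ≤
      ((k : ℝ) + 5 + 2 * F + k ^ 2 / F) * Real.log (8 * k) +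
        (3 * (k : ℝ) / 4 + 3 * F / 2 + 1 / 4) * Real.log x := by
  obtain ⟨h, hh⟩ : ∃ h, h = (k + 1) / 2 := ⟨_, rfl⟩
  obtain ⟨q, hq⟩ : ∃ q, q = (k + F - h - 2) / 2 := ⟨_, rfl⟩
  obtain ⟨E, hE⟩ : ∃ E, E = q + 1 - F := ⟨_, rfl⟩
  have hqF : F ≤ q := by omega
  have hE1 : 1 ≤ E := by omega
  have hEq : E < q + 1 := by omega
  have hM : q + (k + 1) / 2 + 1 + E ≤ k := by omega
  have hM' : k ≤ q + (k + 1) / 2 + 1 + E + 1 := by omega
  have hraw := raw_bound (J := F + 1) (by omega) hxk hN hb hbx hbN hE1 hEq hM (by omega)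
    (by omega)
  have hkR : (16 : ℝ) ≤ k := by exact_mod_cast hk
  have hFR : (1 : ℝ) ≤ F := by exact_mod_cast hF
  have hx1 : (1 : ℤ) ≤ x := by
    have : (16 : ℤ) ≤ k := by exact_mod_cast hk
    omega
  have hxR : (1 : ℝ) ≤ x := by exact_mod_cast hx1
  have hbR : (1 : ℝ) ≤ b := by exact_mod_cast hb
  have hL0 : 0 ≤ Real.log x := Real.log_nonneg hxR
  have ha0 : 0 ≤ Real.log b := Real.log_nonneg hbR
  obtain ⟨lam, hlam⟩ : ∃ lam : ℝ, lam = Real.log (8 * k) := ⟨_, rfl⟩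
  have hlam0 : 0 ≤ lam := by
    rw [hlam]
    exact Real.log_nonneg (by linarith)
  obtain ⟨p, hp⟩ : ∃ p, p = q + (k + 1) / 2 := ⟨_, rfl⟩
  rw [← hp] at hraw hM hM'
  have hq0 : (0 : ℝ) ≤ q := Nat.cast_nonneg _
  have hp0 : (0 : ℝ) ≤ p := Nat.cast_nonneg _
  -- sizes
  have hpJ : (p : ℝ) + ((F + 1 : ℕ) : ℝ) + 1 ≤ 3 * k := by
    have h1 : p + (F + 1) + 1 ≤ 3 * k := by omega
    exact_mod_cast h1
  have hq1 : (q : ℝ) + 1 ≤ k := by
    have h1 : q + 1 ≤ k := by omega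
    exact_mod_cast h1
  -- the factors
  have hEF : (((q + 1 : ℕ) : ℝ) - E) = F := by
    have h1 : q + 1 = E + F := by omega
    rw [h1]
    push_cast
    ring
  have hsb : sb k p q E = (((q + 1 : ℕ) : ℝ) * (8 * (k : ℝ)) ^ (p + E)) ^ ((E : ℝ) / F) := by
    unfold sb
    rw [hEF]
    push_cast
    rfl
  have hbase : (0 : ℝ) < ((q + 1 : ℕ) : ℝ) * (8 * (k : ℝ)) ^ (p + E) := by positivity
  have hsb0 : 0 < sb k p q E := by
    rw [hsb]
    exact Real.rpow_pos_of_pos hbase _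
  have hlsb : Real.log (sb k p q E) ≤ k ^ 2 / F * lam := by
    rw [hsb, Real.log_rpow hbase, Real.log_mul (by positivity) (by positivity), Real.log_pow,
      ← hlam]
    have h1 : Real.log ((q + 1 : ℕ) : ℝ) ≤ lam := by
      rw [hlam]
      refine Real.log_le_log (by positivity) ?_
      push_cast
      linarith
    have h2 : Real.log ((q + 1 : ℕ) : ℝ) + ((p + E : ℕ) : ℝ) * lam ≤ k * lam := by
      have h3 : (1 + (p + E : ℕ) : ℝ) ≤ k := by
        have h4 : 1 + (p + E) ≤ k := by omega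
        exact_mod_cast h4
      nlinarith
    have h3 : (E : ℝ) / F ≤ k / F := by
      refine div_le_div_of_nonneg_right ?_ (by linarith)
      have h4 : E ≤ k := by omega
      exact_mod_cast h4
    have h4 : 0 ≤ (E : ℝ) / F := by positivity
    calc (E : ℝ) / F * (Real.log ((q + 1 : ℕ) : ℝ) + ((p + E : ℕ) : ℝ) * lam)
        ≤ (E : ℝ) / F * (k * lam) := mul_le_mul_of_nonneg_left h2 h4
      _ ≤ k / F * (k * lam) := mul_le_mul_of_nonneg_right h3 (by positivity)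
      _ = k ^ 2 / F * lam := by ring
  -- take logarithms
  have hl := Real.log_le_log (pow_pos (by linarith : (0 : ℝ) < b) _) hraw
  have hG : (0 : ℝ) < 15 * (k : ℝ) * ((p : ℝ) + ((F + 1 : ℕ) : ℝ) + 1) := by positivity
  have hexp : Real.log (4 * ((p : ℝ) + ((F + 1 : ℕ) : ℝ) + 1) *
      ((((q : ℝ) + 1) * sb k p q E * (8 * k) ^ p) *
        (15 * k * ((p : ℝ) + ((F + 1 : ℕ) : ℝ) + 1)) ^ (F + 1)) * (x : ℝ) ^ (p + (F + 1))) =
      Real.log (4 * ((p : ℝ) + ((F + 1 : ℕ) : ℝ) + 1)) +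
        ((Real.log ((q : ℝ) + 1) + Real.log (sb k p q E) + p * lam) +
          ((F + 1 : ℕ) : ℝ) * Real.log (15 * (k : ℝ) * ((p : ℝ) + ((F + 1 : ℕ) : ℝ) + 1))) +
        ((p + (F + 1) : ℕ) : ℝ) * Real.log x := by
    have n1 : (4 * ((p : ℝ) + ((F + 1 : ℕ) : ℝ) + 1)) ≠ 0 := by positivity
    have n2 : ((q : ℝ) + 1) ≠ 0 := by positivity
    have n3 : ((8 * (k : ℝ)) ^ p) ≠ 0 := by positivity
    have n4 : ((15 * (k : ℝ) * ((p : ℝ) + ((F + 1 : ℕ) : ℝ) + 1)) ^ (F + 1)) ≠ 0 := by positivity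
    have n5 : ((x : ℝ) ^ (p + (F + 1))) ≠ 0 := by positivity
    have n6 : ((q : ℝ) + 1) * sb k p q E ≠ 0 := mul_ne_zero n2 hsb0.ne'
    rw [Real.log_mul (mul_ne_zero n1 (mul_ne_zero (mul_ne_zero n6 n3) n4)) n5,
      Real.log_mul n1 (mul_ne_zero (mul_ne_zero n6 n3) n4),
      Real.log_mul (mul_ne_zero n6 n3) n4, Real.log_mul n6 n3, Real.log_mul n2 hsb0.ne',
      Real.log_pow, Real.log_pow, Real.log_pow, ← hlam]
  rw [Real.log_pow, hexp] at hl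
  have g1 : Real.log (4 * ((p : ℝ) + ((F + 1 : ℕ) : ℝ) + 1)) ≤ 2 * lam := by
    rw [hlam, show (2 : ℝ) * Real.log (8 * k) = Real.log ((8 * (k : ℝ)) ^ 2) by
      rw [Real.log_pow]
      norm_num]
    refine Real.log_le_log (by positivity) ?_
    nlinarith
  have g2 : Real.log ((q : ℝ) + 1) ≤ lam := by
    rw [hlam]
    exact Real.log_le_log (by positivity) (by linarith)
  have g3 : Real.log (15 * (k : ℝ) * ((p : ℝ) + ((F + 1 : ℕ) : ℝ) + 1)) ≤ 2 * lam := by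
    rw [hlam, show (2 : ℝ) * Real.log (8 * k) = Real.log ((8 * (k : ℝ)) ^ 2) by
      rw [Real.log_pow]
      norm_num]
    refine Real.log_le_log hG ?_
    have h1 : 15 * (k : ℝ) * ((p : ℝ) + ((F + 1 : ℕ) : ℝ) + 1) ≤ 15 * k * (3 * k) :=
      mul_le_mul_of_nonneg_left hpJ (by linarith)
    nlinarith
  have g4 : (p : ℝ) * lam ≤ k * lam := by
    refine mul_le_mul_of_nonneg_right ?_ hlam0
    have h1 : p ≤ k := by omega
    exact_mod_cast h1
  have g5 : ((F + 1 : ℕ) : ℝ) * Real.log (15 * (k : ℝ) * ((p : ℝ) + ((F + 1 : ℕ) : ℝ) + 1)) ≤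
      ((F : ℝ) + 1) * (2 * lam) := by
    push_cast at g3 ⊢
    exact mul_le_mul_of_nonneg_left g3 (by positivity)
  have g6 : ((p + (F + 1) : ℕ) : ℝ) * Real.log x ≤
      (3 * (k : ℝ) / 4 + 3 * F / 2 + 1 / 4) * Real.log x := by
    refine mul_le_mul_of_nonneg_right ?_ hL0
    have h1 : 4 * (p + (F + 1)) ≤ 3 * k + 6 * F + 1 := by omega
    have h2 : (4 : ℝ) * ((p + (F + 1) : ℕ) : ℝ) ≤ 3 * k + 6 * F + 1 := by exact_mod_cast h1
    linarith
  have g7 : ((k : ℝ) - F - 2) * Real.log b ≤ ((p + 1 + E - (F + 1) : ℕ) : ℝ) * Real.log b := by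
    refine mul_le_mul_of_nonneg_right ?_ ha0
    have h1 : k ≤ (p + 1 + E - (F + 1)) + F + 2 := by omega
    have h2 : (k : ℝ) ≤ ((p + 1 + E - (F + 1) : ℕ) : ℝ) + F + 2 := by exact_mod_cast h1
    linarith
  rw [← hlam]
  have g8 : ((k : ℝ) + 5 + 2 * F + k ^ 2 / F) * lam =
      2 * lam + lam + k ^ 2 / F * lam + k * lam + (F + 1) * (2 * lam) := by ring
  rw [g8]
  linarith

/-- the final comparison of logarithms -/
theorem log_final {k F : ℕ} {a L lam δ C : ℝ} (hδ : 0 < δ) (hδ1 : δ ≤ 1) (hF : 1 ≤ F)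
    (hFu : (F : ℝ) ≤ δ * k / 8) (hFl : δ * k / 16 ≤ F) (hk : 40 ≤ δ * k) (hC : 200 ≤ C * δ ^ 2)
    (hL0 : 0 ≤ L) (hL : C * lam ≤ 4 * L) (hlam : 0 ≤ lam)
    (h : ((k : ℝ) - F - 2) * a ≤ ((k : ℝ) + 5 + 2 * F + k ^ 2 / F) * lam +
      (3 * (k : ℝ) / 4 + 3 * F / 2 + 1 / 4) * L) : a ≤ (3 / 4 + δ) * L := by
  have hk0 : (0 : ℝ) ≤ k := Nat.cast_nonneg _
  have hkk : 40 ≤ (k : ℝ) := by nlinarith
  have hFR : (1 : ℝ) ≤ F := by exact_mod_cast hF
  have hF0 : (0 : ℝ) < F := by linarith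
  have hpos : 0 < (k : ℝ) - F - 2 := by nlinarith
  -- k ^ 2 / F ≤ 16 k / δ
  have h1 : (k : ℝ) ^ 2 / F ≤ 16 * k / δ := by
    rw [div_le_div_iff₀ hF0 hδ]
    nlinarith
  have h2 : (k : ℝ) + 5 + 2 * F + k ^ 2 / F ≤ 19 * k / δ := by
    have h3 : (k : ℝ) + 5 + 2 * F ≤ 3 * k / δ := by
      rw [le_div_iff₀ hδ]
      have h4 : (k : ℝ) + 5 + 2 * F ≤ 3 * k := by nlinarith
      have h5 : 0 ≤ (k : ℝ) + 5 + 2 * F := by positivity
      nlinarith
    have h4 : 19 * (k : ℝ) / δ = 3 * k / δ + 16 * k / δ := by ring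
    rw [h4]
    linarith
  have hC0 : 0 < C := by
    by_contra hcon
    push Not at hcon
    have : C * δ ^ 2 ≤ 0 := mul_nonpos_of_nonpos_of_nonneg hcon (by positivity)
    linarith
  -- the first term is at most δ k L / 2
  have h3 : 19 * (k : ℝ) / δ * lam ≤ δ * k / 2 * L := by
    have h4 : lam ≤ 4 * L / C := by
      rw [le_div_iff₀ hC0]
      linarith
    have h5 : 19 * (k : ℝ) / δ * lam ≤ 19 * (k : ℝ) / δ * (4 * L / C) :=
      mul_le_mul_of_nonneg_left h4 (by positivity)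
    refine h5.trans ?_
    have h6 : 19 * (k : ℝ) / δ * (4 * L / C) = (76 / (δ * C)) * (k * L) := by
      field_simp
      ring
    have h7 : δ * k / 2 * L = (δ / 2) * (k * L) := by ring
    rw [h6, h7]
    refine mul_le_mul_of_nonneg_right ?_ (by positivity)
    rw [div_le_div_iff₀ (by positivity) (by norm_num)]
    nlinarith
  have h4 : ((k : ℝ) - F - 2) * a ≤ (3 * (k : ℝ) / 4 + 3 * F / 2 + 1 / 4 + δ * k / 2) * L := by
    have h5 := mul_le_mul_of_nonneg_right h2 hlam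
    nlinarith
  have h5 : (3 * (k : ℝ) / 4 + 3 * F / 2 + 1 / 4 + δ * k / 2) ≤
      ((k : ℝ) - F - 2) * (3 / 4 + δ) := by
    have h6 : δ * F ≤ 1 * F := mul_le_mul_of_nonneg_right hδ1 hF0.le
    nlinarith
  have h6 : ((k : ℝ) - F - 2) * a ≤ ((k : ℝ) - F - 2) * ((3 / 4 + δ) * L) := by
    refine h4.trans ?_
    have := mul_le_mul_of_nonneg_right h5 hL0
    linarith
  exact le_of_mul_le_mul_left h6 hpos

/-- Theorem B, for one common divisor -/
theorem dvd_bound {δ : ℝ} (hδ : 0 < δ) (hδ1 : δ ≤ 1) : ∃ C : ℕ, ∀ (k : ℕ) (x N b : ℤ), C ≤ k →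
    (k : ℤ) ^ C ≤ x → N ^ 2 - N = (zp k).eval x + 2 * x ^ k → 1 ≤ b → b ∣ x → b ∣ N →
      Real.log b ≤ (3 / 4 + δ) * Real.log x := by
  obtain ⟨C, hC⟩ := exists_nat_ge (200 / δ ^ 2 + 40 / δ + 16)
  have hδ2 : 0 < δ ^ 2 := by positivity
  have hC1 : 200 ≤ C * δ ^ 2 := by
    have h1 : 200 / δ ^ 2 ≤ C := by
      have h2 : 0 ≤ 40 / δ := by positivity
      linarith
    rwa [div_le_iff₀ hδ2] at h1
  have hC2 : 40 ≤ δ * C := by
    have h1 : 40 / δ ≤ C := by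
      have h2 : 0 ≤ 200 / δ ^ 2 := by positivity
      linarith
    rw [div_le_iff₀ hδ] at h1
    linarith
  have hC3 : (16 : ℝ) ≤ C := by
    have h1 : 0 ≤ 200 / δ ^ 2 := by positivity
    have h2 : 0 ≤ 40 / δ := by positivity
    linarith
  have hC3' : 16 ≤ C := by exact_mod_cast hC3
  refine ⟨C, fun k x N b hCk hkx hN hb hbx hbN => ?_⟩
  have hCkR : (C : ℝ) ≤ k := by exact_mod_cast hCk
  have hk : 16 ≤ k := by omega
  have hkR : (16 : ℝ) ≤ k := by exact_mod_cast hk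
  have hδk : 40 ≤ δ * k := hC2.trans (mul_le_mul_of_nonneg_left hCkR hδ.le)
  obtain ⟨F, hFd⟩ : ∃ F : ℕ, F = ⌊δ * k / 8⌋₊ := ⟨_, rfl⟩
  have hF1 : (F : ℝ) ≤ δ * k / 8 := by
    rw [hFd]
    exact Nat.floor_le (by positivity)
  have hF2 : δ * k / 8 < F + 1 := by
    rw [hFd]
    exact Nat.lt_floor_add_one _
  have hF3 : δ * k / 16 ≤ F := by linarith
  have hF4 : 1 ≤ F := by
    have : (1 : ℝ) ≤ F := by linarith
    exact_mod_cast this
  have hF8 : 8 * F ≤ k := by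
    have h1 : 8 * (F : ℝ) ≤ k := by nlinarith
    exact_mod_cast h1
  have hkZ : (1 : ℤ) ≤ k := by exact_mod_cast (show 1 ≤ k by omega)
  have hxk : (k : ℤ) ≤ x := by
    refine le_trans ?_ hkx
    calc (k : ℤ) = (k : ℤ) ^ 1 := (pow_one _).symm
      _ ≤ (k : ℤ) ^ C := pow_le_pow_right₀ hkZ (by omega)
  have hxR : ((k : ℝ)) ^ C ≤ x := by
    have h1 : (((k : ℤ) ^ C : ℤ) : ℝ) ≤ (x : ℝ) := Int.cast_le.2 hkx
    push_cast at h1
    exact h1
  have hx1 : (1 : ℝ) ≤ x := (one_le_pow₀ (by linarith)).trans hxR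
  have hL : C * Real.log (8 * k) ≤ 4 * Real.log x := by
    have h1 : Real.log (8 * k) ≤ 4 * Real.log k := by
      rw [show (4 : ℝ) * Real.log k = Real.log ((k : ℝ) ^ 4) by
        rw [Real.log_pow]
        norm_num]
      refine Real.log_le_log (by positivity) ?_
      have h2 : (8 : ℝ) ≤ k ^ 3 := by
        calc (8 : ℝ) = 2 ^ 3 := by norm_num
          _ ≤ (k : ℝ) ^ 3 := pow_le_pow_left₀ (by norm_num) (by linarith) 3
      calc (8 : ℝ) * k ≤ k ^ 3 * k := mul_le_mul_of_nonneg_right h2 (by linarith)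
        _ = (k : ℝ) ^ 4 := by ring
    have h2 : C * Real.log k ≤ Real.log x := by
      have h3 := Real.log_le_log (pow_pos (by linarith) _) hxR
      rwa [Real.log_pow] at h3
    have h3 : (C : ℝ) * Real.log (8 * k) ≤ C * (4 * Real.log k) :=
      mul_le_mul_of_nonneg_left h1 (Nat.cast_nonneg _)
    linarith
  exact log_final hδ hδ1 hF4 hF1 hF3 hδk hC1 (Real.log_nonneg hx1) hL
    (Real.log_nonneg (by linarith)) (log_bound hk hF4 hF8 hxk hN hb hbx hbN)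

end Pool.Agent.Lib.MP_776dcc_nt
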