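import Pool.Agent.Lib.MP_776dcc_nt.Gcd

/-!
MP_776dcc_nt, part GSer: the expansion of `N` at `x = 0` on the curve itself, Siegel's lemma for it.
-/

set_option autoImplicit false

namespace Pool.Agent.Lib.MP_776dcc_nt

open scoped PowerSeries Matrix.Norms.Elementwise

/-- the solution of `w = g + w²` -/
def wg (g : ℕ → ℤ) : ℕ → ℤ
  | n => g n +
      ∑ i : Fin n, if 0 < (i : ℕ) then (if n - (i : ℕ) < n then wg g i * wg g (n - i) else 0) else 0
termination_by n => n
decreasing_by
  · exact i.2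
  · assumption

theorem wg_zero {g : ℕ → ℤ} (hg : g 0 = 0) : wg g 0 = 0 := by
  rw [wg, hg]
  simp

theorem wg_eq {g : ℕ → ℤ} (hg : g 0 = 0) (n : ℕ) : wg g n = g n +
    ∑ ij ∈ Finset.HasAntidiagonal.antidiagonal n, wg g ij.1 * wg g ij.2 := by
  rw [wg]
  congr 1
  rw [Finset.Nat.sum_antidiagonal_eq_sum_range_succ (fun a b => wg g a * wg g b) n,
    Finset.sum_range_succ, Nat.sub_self, wg_zero hg, mul_zero, add_zero, Finset.sum_range]
  refine Finset.sum_congr rfl fun i _ => ?_
  by_cases h : 0 < (i : ℕ)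
  · have hi := i.2
    rw [if_pos h, if_pos (by omega)]
  · rw [if_neg h]
    have h0 : (i : ℕ) = 0 := by omega
    rw [h0, wg_zero hg, zero_mul]

theorem wg_bound_cat {g : ℕ → ℤ} (hg : g 0 = 0) {k : ℤ} (hk : 1 ≤ k) (h1 : |g 1| ≤ k)
    (h2 : ∀ n, 2 ≤ n → 4 * |g n| ≤ (2 * k) ^ n) : ∀ n : ℕ, 2 * |wg g (n + 1)| ≤
    (2 * k) ^ (n + 1) * catalan n := by
  intro n
  induction n using Nat.strong_induction_on with
  | _ n ih =>
    have hanti : ∑ ij ∈ Finset.HasAntidiagonal.antidiagonal (n + 1), wg g ij.1 * wg g ij.2 =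
        ∑ i : Fin n, wg g (i + 1) * wg g (n - i) := by
      rw [Finset.Nat.sum_antidiagonal_eq_sum_range_succ (fun a b => wg g a * wg g b) (n + 1),
        Finset.sum_range_succ, Nat.sub_self, wg_zero hg, mul_zero, add_zero,
        Finset.sum_range_succ', wg_zero hg, zero_mul, add_zero, Finset.sum_range]
      refine Finset.sum_congr rfl fun i _ => ?_
      have h1 : n + 1 - ((i : ℕ) + 1) = n - i := by omega
      rw [h1]
    have hsum : 4 * |∑ i : Fin n, wg g (i + 1) * wg g (n - i)| ≤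
        (2 * k) ^ (n + 1) * ∑ i : Fin n, (catalan i * catalan (n - 1 - i) : ℤ) := by
      rw [Finset.mul_sum]
      have h1 : 4 * |∑ i : Fin n, wg g (i + 1) * wg g (n - i)| ≤
          ∑ i : Fin n, 4 * |wg g (i + 1) * wg g (n - i)| := by
        rw [← Finset.mul_sum]
        exact mul_le_mul_of_nonneg_left (Finset.abs_sum_le_sum_abs _ _) (by norm_num)
      refine h1.trans (Finset.sum_le_sum fun i _ => ?_)
      have hi := i.2
      have h2 := ih i (by omega)
      have h3 := ih (n - 1 - i) (by omega)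
      have h4 : n - 1 - (i : ℕ) + 1 = n - i := by omega
      rw [h4] at h3
      have h5 := mul_le_mul h2 h3 (by positivity) (by positivity)
      have h6 : (2 * k) ^ ((i : ℕ) + 1) * (catalan i : ℤ) *
          ((2 * k) ^ (n - (i : ℕ)) * (catalan (n - 1 - i) : ℤ)) =
          (2 * k) ^ (n + 1) * ((catalan i : ℤ) * (catalan (n - 1 - i) : ℤ)) := by
        have h7 : (i : ℕ) + 1 + (n - i) = n + 1 := by omega
        rw [← h7, pow_add]
        ring
      rw [h6] at h5
      rw [abs_mul]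
      linarith
    rw [wg_eq hg, hanti]
    rcases n with _ | n
    · simp only [Finset.univ_eq_empty, Finset.sum_empty]
      rw [catalan_zero, zero_add, add_zero, pow_one]
      push_cast
      linarith
    · have h3 : ((catalan (n + 1) : ℕ) : ℤ) =
          ∑ i : Fin (n + 1), (catalan i * catalan (n + 1 - 1 - i) : ℤ) := by
        rw [catalan_succ]
        push_cast
        rfl
      have h4 := h2 (n + 1 + 1) (by omega)
      have h5 : (1 : ℤ) ≤ catalan (n + 1) := by
        have h6 : 0 < catalan (n + 1) := by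
          rw [Nat.pos_iff_ne_zero]
          intro h0
          have h7 := Nat.succ_dvd_centralBinom (n + 1)
          rw [catalan_eq_centralBinom_div] at h0
          rcases Nat.div_eq_zero_iff.1 h0 with h8 | h8
          · omega
          · have h9 := Nat.le_of_dvd (Nat.centralBinom_pos _) h7
            omega
        exact_mod_cast h6
      have h6 : (2 * k) ^ (n + 1 + 1) ≤ (2 * k) ^ (n + 1 + 1) * (catalan (n + 1) : ℤ) :=
        le_mul_of_one_le_right (by positivity) h5
      rw [← h3] at hsum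
      have h7 := abs_add_le (g (n + 1 + 1)) (∑ i : Fin (n + 1), wg g (i + 1) * wg g (n + 1 - i))
      linarith

theorem wg_bound {g : ℕ → ℤ} (hg : g 0 = 0) {k : ℤ} (hk : 1 ≤ k) (h1 : |g 1| ≤ k)
    (h2 : ∀ n, 2 ≤ n → 4 * |g n| ≤ (2 * k) ^ n) (n : ℕ) : |wg g n| ≤ (8 * k) ^ n := by
  rcases n with _ | n
  · rw [wg_zero hg, abs_zero, pow_zero]
    norm_num
  · have h1 := wg_bound_cat hg hk h1 h2 n
    have h2 : ((catalan n : ℕ) : ℤ) ≤ 4 ^ n := by exact_mod_cast catalan_le n
    have h3 : (2 * k) ^ (n + 1) * (catalan n : ℤ) ≤ (2 * k) ^ (n + 1) * 4 ^ n :=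
      mul_le_mul_of_nonneg_left h2 (by positivity)
    have h4 : (8 * k) ^ (n + 1) = (2 * k) ^ (n + 1) * 4 ^ n * 4 := by
      have h5 : (8 * k) = (2 * k) * 4 := by ring
      rw [h5, mul_pow, pow_succ 4]
      ring
    have h5 : (0 : ℤ) ≤ (2 * k) ^ (n + 1) * 4 ^ n := by positivity
    have h6 := abs_nonneg (wg g (n + 1))
    linarith

/-- the right side `k (X² - X) + 2 X^k` -/
noncomputable def zk (k : ℕ) : Polynomial ℤ := zp k + 2 * Polynomial.X ^ k

/-- the series with `W² - W = k (X² - X) + 2 X^k` -/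
noncomputable def wk (k : ℕ) : ℕ → ℤ := wg fun n => - (zk k).coeff n

theorem zk_coeff (k n : ℕ) : (zk k).coeff n =
    -(if n = 1 then (k : ℤ) else if n = 2 then -k else 0) + (if n = k then 2 else 0) := by
  unfold zk
  have h : (2 : Polynomial ℤ) = Polynomial.C 2 := rfl
  rw [Polynomial.coeff_add, zp_coeff, h, Polynomial.coeff_C_mul, Polynomial.coeff_X_pow]
  split_ifs <;> ring

theorem wk_g0 {k : ℕ} (hk : 3 ≤ k) : (fun n => - (zk k).coeff n) 0 = 0 := by
  simp only [zk_coeff]
  rw [if_neg (by omega), if_neg (by omega), if_neg (by omega)]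
  ring

theorem wk_bound {k : ℕ} (hk : 3 ≤ k) (n : ℕ) : |wk k n| ≤ (8 * k) ^ n := by
  have hkZ : (3 : ℤ) ≤ k := by exact_mod_cast hk
  refine wg_bound (wk_g0 hk) (by omega) ?_ (fun n hn => ?_) n
  · rw [zk_coeff, if_pos rfl, if_neg (by omega)]
    rw [add_zero, neg_neg, abs_of_nonneg (by omega)]
  · have h1 : |(fun n => - (zk k).coeff n) n| ≤ k := by
      show |-(zk k).coeff n| ≤ k
      rw [zk_coeff, if_neg (by omega)]
      by_cases h2 : n = 2
      · rw [if_pos h2, if_neg (by omega)]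
        rw [neg_neg, add_zero, abs_neg, abs_of_nonneg (by omega)]
      · rw [if_neg h2]
        by_cases h3 : n = k
        · rw [if_pos h3, neg_zero, zero_add, abs_neg, abs_of_nonneg (by norm_num)]
          omega
        · rw [if_neg h3]
          simp
    have h2 : (2 * (k : ℤ)) ^ 2 ≤ (2 * k) ^ n := pow_le_pow_right₀ (by omega) hn
    nlinarith

/-- the series -/
noncomputable def Ws (k : ℕ) : PowerSeries ℤ := PowerSeries.mk (wk k)

theorem Ws_eq {k : ℕ} (hk : 3 ≤ k) : (Ws k) ^ 2 - Ws k = (zk k : PowerSeries ℤ) := by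
  ext n
  rw [map_sub, pow_two, PowerSeries.coeff_mul, Polynomial.coeff_coe]
  unfold Ws
  simp only [PowerSeries.coeff_mk]
  have h := wg_eq (g := fun n => - (zk k).coeff n) (wk_g0 hk) n
  unfold wk
  linarith

theorem Ws_zero {k : ℕ} (hk : 3 ≤ k) : PowerSeries.constantCoeff (Ws k) = 0 := by
  rw [← PowerSeries.coeff_zero_eq_constantCoeff_apply]
  unfold Ws wk
  rw [PowerSeries.coeff_mk, wg_zero (wk_g0 hk)]

/-- the congruence, without restriction of the order -/
theorem congW {k : ℕ} (hk : 3 ≤ k) {x N b : ℤ} (hN : N ^ 2 - N = (zk k).eval x) (hbx : b ∣ x)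
    (hbN : b ∣ N) {P Q : Polynomial ℤ} {m : ℕ} (hm0 : 0 < m)
    (h : PowerSeries.X ^ m ∣ (P : PowerSeries ℤ) - (Q : PowerSeries ℤ) * Ws k) :
    b ^ m ∣ P.eval x - Q.eval x * N := by
  set T : Polynomial ℤ := PowerSeries.trunc m (Ws k) with hT
  have hTw : PowerSeries.X ^ m ∣ (Ws k : PowerSeries ℤ) - (T : PowerSeries ℤ) := by
    rw [PowerSeries.X_pow_dvd_iff]
    intro n hn
    rw [map_sub, Polynomial.coeff_coe, hT, PowerSeries.coeff_trunc, if_pos hn, sub_self]
  have h1 : Polynomial.X ^ m ∣ P - Q * T := by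
    apply coe_dvd
    push_cast
    have e1 : (P : PowerSeries ℤ) - (Q : PowerSeries ℤ) * (T : PowerSeries ℤ) =
        ((P : PowerSeries ℤ) - (Q : PowerSeries ℤ) * Ws k) +
          (Q : PowerSeries ℤ) * (Ws k - (T : PowerSeries ℤ)) := by
      ring
    rw [e1]
    exact dvd_add h (hTw.mul_left _)
  have h2 : Polynomial.X ^ m ∣ T ^ 2 - T - zk k := by
    apply coe_dvd
    push_cast
    rw [← Ws_eq hk]
    have e1 : (T : PowerSeries ℤ) ^ 2 - (T : PowerSeries ℤ) - ((Ws k) ^ 2 - Ws k) =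
        (Ws k - (T : PowerSeries ℤ)) * (1 - Ws k - (T : PowerSeries ℤ)) := by
      ring
    rw [e1]
    exact hTw.mul_right _
  have h3 : Polynomial.X ∣ T := by
    rw [Polynomial.X_dvd_iff, hT, PowerSeries.coeff_trunc, if_pos hm0,
      PowerSeries.coeff_zero_eq_constantCoeff_apply, Ws_zero hk]
  have hev : ∀ {f g : Polynomial ℤ}, f ∣ g → f.eval x ∣ g.eval x := by
    intro f g hfg
    exact map_dvd (Polynomial.evalRingHom x) hfg
  have e1 : x ^ m ∣ P.eval x - Q.eval x * T.eval x := by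
    have := hev h1
    simpa using this
  have e2 : x ^ m ∣ T.eval x ^ 2 - T.eval x - (zk k).eval x := by
    have := hev h2
    simpa using this
  have e3 : x ∣ T.eval x := by
    have := hev h3
    simpa using this
  have hbm : b ^ m ∣ x ^ m := pow_dvd_pow_of_dvd hbx m
  have e4 : b ^ m ∣ (N - T.eval x) * (N + T.eval x - 1) := by
    have e5 : (N - T.eval x) * (N + T.eval x - 1) =
        - (T.eval x ^ 2 - T.eval x - (zk k).eval x) := by
      linear_combination hN
    rw [e5]
    exact (dvd_neg).2 (hbm.trans e2)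
  have hco : IsCoprime (b ^ m) (N + T.eval x - 1) := by
    refine IsCoprime.pow_left ?_
    obtain ⟨u, hu⟩ := dvd_add hbN (hbx.trans e3)
    exact ⟨u, -1, by linear_combination -hu⟩
  have e6 : b ^ m ∣ N - T.eval x := hco.dvd_of_dvd_mul_right e4
  have e7 : P.eval x - Q.eval x * N = (P.eval x - Q.eval x * T.eval x) -
      Q.eval x * (N - T.eval x) := by ring
  rw [e7]
  exact dvd_sub (hbm.trans e1) (e6.mul_left _)

/-- Siegel's lemma for any series with coefficients at most `(8 k)^n` -/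
theorem siegelW {w : ℕ → ℤ} {k : ℤ} (hk : 1 ≤ k) (hw : ∀ n, |w n| ≤ (8 * k) ^ n) {p q E : ℕ}
    (hE : 1 ≤ E) (hEq : E < q + 1) (hqp : q ≤ p) :
    ∃ P Q : Polynomial ℤ, Q ≠ 0 ∧
      PowerSeries.X ^ (p + 1 + E) ∣ (P : PowerSeries ℤ) - (Q : PowerSeries ℤ) * PowerSeries.mk w ∧
      Bd q (sb k p q E) Q ∧ Bd p (((q : ℝ) + 1) * sb k p q E * (8 * k) ^ p) P := by
  classical
  have hkR : (1 : ℝ) ≤ k := by exact_mod_cast hk
  have h8 : (1 : ℝ) ≤ 8 * k := by linarith
  have hwR : ∀ n : ℕ, |(w n : ℝ)| ≤ (8 * k) ^ n := by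
    intro n
    have h1 := hw n
    have h2 : ((|w n| : ℤ) : ℝ) ≤ (((8 * k) ^ n : ℤ) : ℝ) := Int.cast_le.2 h1
    rw [Int.cast_abs] at h2
    push_cast at h2
    exact h2
  have hmul : ∀ (t : ℕ → ℤ) (i : ℕ),
      PowerSeries.coeff i (((∑ j ∈ Finset.range (q + 1), Polynomial.C (t j) * Polynomial.X ^ j :
        Polynomial ℤ) : PowerSeries ℤ) * PowerSeries.mk w) =
        ∑ j ∈ Finset.range (q + 1), t j * (if j ≤ i then w (i - j) else 0) := by
    intro t i
    have h1 : ((∑ j ∈ Finset.range (q + 1), Polynomial.C (t j) * Polynomial.X ^ j :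
        Polynomial ℤ) : PowerSeries ℤ) =
        ∑ j ∈ Finset.range (q + 1), PowerSeries.C (t j) * PowerSeries.X ^ j := by
      rw [← Polynomial.coeToPowerSeries.ringHom_apply, map_sum]
      refine Finset.sum_congr rfl fun j _ => ?_
      rw [Polynomial.coeToPowerSeries.ringHom_apply, Polynomial.coe_mul, Polynomial.coe_pow,
        Polynomial.coe_C, Polynomial.coe_X]
    rw [h1, Finset.sum_mul, map_sum]
    refine Finset.sum_congr rfl fun j _ => ?_
    rw [mul_assoc, PowerSeries.coeff_C_mul, PowerSeries.coeff_X_pow_mul', PowerSeries.coeff_mk]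
  let A : Matrix (Fin E) (Fin (q + 1)) ℤ := fun r j => w (p + 1 + r - j)
  have hA : ‖A‖ ≤ (8 * (k : ℝ)) ^ (p + E) := by
    rw [Matrix.norm_le_iff (by positivity)]
    intro r j
    show ‖w (p + 1 + r - j)‖ ≤ _
    rw [Int.norm_eq_abs]
    refine (hwR _).trans (pow_le_pow_right₀ h8 ?_)
    have := r.2
    omega
  obtain ⟨t, ht0, htA, htn⟩ := Int.Matrix.exists_ne_zero_int_vec_norm_le A
    (by simpa using hEq) (by rw [Fintype.card_fin]; omega)
  rw [Fintype.card_fin, Fintype.card_fin] at htn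
  have hexp : (0 : ℝ) ≤ (E : ℝ) / (((q + 1 : ℕ) : ℝ) - E) := by
    refine div_nonneg (Nat.cast_nonneg _) ?_
    have : (E : ℝ) ≤ ((q + 1 : ℕ) : ℝ) := by exact_mod_cast hEq.le
    linarith
  have htS : ‖t‖ ≤ sb k p q E := by
    refine htn.trans (Real.rpow_le_rpow (by positivity) ?_ hexp)
    refine mul_le_mul_of_nonneg_left (max_le (one_le_pow₀ h8) hA) (Nat.cast_nonneg _)
  have hS0 : 0 ≤ sb k p q E := (norm_nonneg _).trans htS
  obtain ⟨t', ht'⟩ : ∃ t' : ℕ → ℤ, ∀ j, t' j = if h : j < q + 1 then t ⟨j, h⟩ else 0 :=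
    ⟨_, fun _ => rfl⟩
  have ht'b : ∀ j, |(t' j : ℝ)| ≤ sb k p q E := by
    intro j
    rw [ht']
    split_ifs with h
    · have h1 := norm_le_pi_norm t ⟨j, h⟩
      rw [Int.norm_eq_abs] at h1
      exact h1.trans htS
    · simpa using hS0
  set Q : Polynomial ℤ := ∑ j ∈ Finset.range (q + 1), Polynomial.C (t' j) * Polynomial.X ^ j
    with hQ
  have hQc : ∀ i, Q.coeff i = t' i := by
    intro i
    rw [hQ, Polynomial.finsetSum_coeff]
    simp only [Polynomial.coeff_C_mul, Polynomial.coeff_X_pow, mul_ite, mul_one, mul_zero]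
    rw [Finset.sum_ite_eq]
    split_ifs with h
    · rfl
    · rw [ht', dif_neg (by simpa using h)]
  have hcoef : ∀ i, |((PowerSeries.coeff i ((Q : PowerSeries ℤ) * PowerSeries.mk w) : ℤ) : ℝ)| ≤
      ((q : ℝ) + 1) * sb k p q E * (8 * k) ^ i := by
    intro i
    rw [hQ, hmul]
    push_cast
    refine (Finset.abs_sum_le_sum_abs _ _).trans ?_
    refine (Finset.sum_le_card_nsmul _ _ (sb k p q E * (8 * (k : ℝ)) ^ i) ?_).trans
      (le_of_eq ?_)
    · intro j _
      rw [abs_mul]
      refine mul_le_mul (ht'b j) ?_ (abs_nonneg _) hS0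
      split_ifs
      · exact (hwR _).trans (pow_le_pow_right₀ h8 (Nat.sub_le _ _))
      · rw [abs_zero]
        positivity
    · rw [Finset.card_range, nsmul_eq_mul]
      push_cast
      ring
  refine ⟨PowerSeries.trunc (p + 1) ((Q : PowerSeries ℤ) * PowerSeries.mk w), Q, ?_, ?_, ?_, ?_⟩
  · intro h0
    apply ht0
    funext j
    have h1 := hQc j
    rw [h0, Polynomial.coeff_zero, ht', dif_pos j.2] at h1
    exact h1.symm
  · rw [PowerSeries.X_pow_dvd_iff]
    intro i hi
    rw [map_sub, Polynomial.coeff_coe, PowerSeries.coeff_trunc]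
    split_ifs with h
    · rw [sub_self]
    · rw [zero_sub, neg_eq_zero, hQ, hmul]
      have h1 := congrFun htA ⟨i - (p + 1), by omega⟩
      rw [Matrix.mulVec, dotProduct] at h1
      rw [Finset.sum_range]
      rw [Pi.zero_apply] at h1
      rw [← h1]
      refine Finset.sum_congr rfl fun j _ => ?_
      have hj := j.2
      rw [if_pos (by omega), ht', dif_pos hj, mul_comm]
      show w (i - j) * t j = w (p + 1 + (i - (p + 1)) - j) * t j
      have h2 : p + 1 + (i - (p + 1)) = i := by omega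
      rw [h2]
  · refine ⟨fun i hi => ?_, fun i => ?_⟩
    · rw [hQc, ht', dif_neg (by omega)]
    · rw [hQc]
      exact ht'b i
  · refine ⟨fun i hi => ?_, fun i => ?_⟩
    · rw [PowerSeries.coeff_trunc, if_neg (by omega)]
    · rw [PowerSeries.coeff_trunc]
      split_ifs with h
      · refine (hcoef i).trans ?_
        refine mul_le_mul_of_nonneg_left (pow_le_pow_right₀ h8 (by omega)) (by positivity)
      · simp only [Int.cast_zero, abs_zero]
        positivity

end Pool.Agent.Lib.MP_776dcc_nt
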