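import Pool.Agent.Lib.MP_776dcc_nt.Sie

/-!
MP_776dcc_nt, part Gcd: the upper bound for the common divisors of `x` and `N`.
-/

set_option autoImplicit false

namespace Pool.Agent.Lib.MP_776dcc_nt

open scoped PowerSeries

theorem zp_eval (k x : ℤ) : (zp k).eval x = k * (x ^ 2 - x) := by
  unfold zp
  simp

theorem N_bound {k : ℕ} {x N : ℤ} (hk : 3 ≤ k) (hxk : (k : ℤ) ≤ x)
    (hN : N ^ 2 - N = (zp k).eval x + 2 * x ^ k) : |N| ≤ 3 * x ^ ((k + 1) / 2) := by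
  have hx1 : 1 ≤ x := by
    have : (3 : ℤ) ≤ k := by exact_mod_cast hk
    omega
  have h1 : (k : ℤ) * x ^ 2 ≤ x ^ k := by
    calc (k : ℤ) * x ^ 2 ≤ x * x ^ 2 := mul_le_mul_of_nonneg_right hxk (by positivity)
      _ = x ^ 3 := by ring
      _ ≤ x ^ k := pow_le_pow_right₀ hx1 hk
  have h2 : N ^ 2 - N ≤ 3 * x ^ k := by
    rw [hN, zp_eval]
    have h3 : (0 : ℤ) ≤ k * x := by positivity
    linarith
  have h3 : x ^ k ≤ (x ^ ((k + 1) / 2)) ^ 2 := by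
    rw [← pow_mul]
    exact pow_le_pow_right₀ hx1 (by omega)
  have hy : (1 : ℤ) ≤ x ^ ((k + 1) / 2) := one_le_pow₀ hx1
  obtain ⟨y, hyd⟩ : ∃ y : ℤ, y = x ^ ((k + 1) / 2) := ⟨_, rfl⟩
  rw [← hyd] at h3 hy ⊢
  by_contra hcon
  push Not at hcon
  have h4 : |N| * (|N| - 1) ≤ N ^ 2 - N := by
    have h5 : |N| ^ 2 = N ^ 2 := sq_abs N
    have h6 := le_abs_self N
    nlinarith
  nlinarith

/-- the main inequality, before the choice of the parameters -/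
theorem raw_bound {k q E J : ℕ} {x N b : ℤ} (hk : 3 ≤ k) (hxk : (k : ℤ) ≤ x)
    (hN : N ^ 2 - N = (zp k).eval x + 2 * x ^ k) (hb : 1 ≤ b) (hbx : b ∣ x) (hbN : b ∣ N)
    (hE : 1 ≤ E) (hEq : E < q + 1) (hM : q + (k + 1) / 2 + 1 + E ≤ k) (hJ : q + 1 < E + J)
    (hJM : J ≤ q + (k + 1) / 2 + 1 + E) :
    (b : ℝ) ^ (q + (k + 1) / 2 + 1 + E - J) ≤
      4 * (((q + (k + 1) / 2 : ℕ) : ℝ) + J + 1) *
        ((((q : ℝ) + 1) * sb k (q + (k + 1) / 2) q E * (8 * k) ^ (q + (k + 1) / 2)) *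
          (15 * k * (((q + (k + 1) / 2 : ℕ) : ℝ) + J + 1)) ^ J) *
            (x : ℝ) ^ (q + (k + 1) / 2 + J) := by
  obtain ⟨p, hp⟩ : ∃ p, p = q + (k + 1) / 2 := ⟨_, rfl⟩
  rw [← hp] at hM hJM ⊢
  have hkZ : (3 : ℤ) ≤ k := by exact_mod_cast hk
  have hkR : (3 : ℝ) ≤ k := by exact_mod_cast hk
  have hx1 : 1 ≤ x := by omega
  have hxR : (1 : ℝ) ≤ x := by exact_mod_cast hx1
  have hbR : (1 : ℝ) ≤ b := by exact_mod_cast hb
  obtain ⟨P, Q, hQ0, hord, hQb, hPb⟩ := siegel (k := (k : ℤ)) (by omega) hE hEq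
    (show q ≤ p by omega)
  have hS0 : 0 ≤ sb k p q E := hQb.nonneg
  push_cast at hPb
  obtain ⟨H, hH⟩ : ∃ H : ℝ, H = ((q : ℝ) + 1) * sb k p q E * (8 * k) ^ p := ⟨_, rfl⟩
  rw [← hH] at hPb ⊢
  have hSH : sb k p q E ≤ H := by
    rw [hH]
    have h1 : (1 : ℝ) ≤ (q : ℝ) + 1 := by
      have : (0 : ℝ) ≤ q := Nat.cast_nonneg _
      linarith
    have h2 : (1 : ℝ) ≤ (8 * (k : ℝ)) ^ p := one_le_pow₀ (by linarith)
    calc sb k p q E = 1 * sb k p q E * 1 := by ring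
      _ ≤ ((q : ℝ) + 1) * sb k p q E * (8 * k) ^ p := by
        apply mul_le_mul (mul_le_mul_of_nonneg_right h1 hS0) h2 zero_le_one
        positivity
  have hQb' : Bd q H Q := hQb.mono le_rfl hSH
  obtain ⟨j, hj, hne⟩ := zest (k := (k : ℤ)) (by omega) hx1 (N := N) hPb.natDegree
    hQb.natDegree (show q ≤ p by omega) (show q ≤ p + E by omega) hQ0
    (by
      have h1 : p + E + 1 = p + 1 + E := by omega
      rwa [h1]) (show p + q + 1 < p + E + J by omega)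
  obtain ⟨h1, h2⟩ := bd_sq (k := (k : ℤ)) (by omega) (show q ≤ p by omega) hPb hQb' J j hj
  have h3 := sq_order hord j (by omega)
  have h4 := cong hN hbx hbN (show p + 1 + E - j ≤ k by omega) h3
  obtain ⟨D, hD⟩ : ∃ D : ℤ, D = (sq k P Q j).1.eval x - (sq k P Q j).2.eval x * N := ⟨_, rfl⟩
  rw [← hD] at h4
  have hD0 : D ≠ 0 := by
    rw [hD]
    exact sub_ne_zero.2 hne
  have h5 : b ^ (p + 1 + E - j) ≤ |D| := by
    have h6 := Int.le_of_dvd (abs_pos.2 hD0) ((dvd_abs _ _).2 h4)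
    exact h6
  have h6 : (b : ℝ) ^ (p + 1 + E - J) ≤ |(D : ℝ)| := by
    have h7 : (b : ℝ) ^ (p + 1 + E - J) ≤ (b : ℝ) ^ (p + 1 + E - j) :=
      pow_le_pow_right₀ hbR (by omega)
    refine h7.trans ?_
    have h8 : ((b ^ (p + 1 + E - j) : ℤ) : ℝ) ≤ ((|D| : ℤ) : ℝ) := Int.cast_le.2 h5
    rwa [Int.cast_abs, Int.cast_pow] at h8
  refine h6.trans ?_
  -- the size of D
  push_cast at h1 h2
  obtain ⟨G, hG⟩ : ∃ G : ℝ, G = 15 * (k : ℝ) * (p + J + 1) := ⟨_, rfl⟩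
  rw [← hG] at h1 h2 ⊢
  have hG1 : 1 ≤ G := by
    rw [hG]
    have : (0 : ℝ) ≤ (p : ℝ) + J := by positivity
    nlinarith
  have hH0 : 0 ≤ H := hPb.nonneg
  have hB : H * G ^ j ≤ H * G ^ J :=
    mul_le_mul_of_nonneg_left (pow_le_pow_right₀ hG1 hj) hH0
  have e1 := (h1.mono le_rfl hB).eval hx1
  have e2 := (h2.mono le_rfl hB).eval hx1
  obtain ⟨B, hBd⟩ : ∃ B : ℝ, B = H * G ^ J := ⟨_, rfl⟩
  rw [← hBd] at e1 e2 ⊢
  have hB0 : 0 ≤ B := by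
    rw [hBd]
    exact mul_nonneg hH0 (by positivity)
  have hjJ : (j : ℝ) ≤ J := by exact_mod_cast hj
  have hq0 : (0 : ℝ) ≤ q := Nat.cast_nonneg _
  have hqp : (q : ℝ) ≤ p := by exact_mod_cast (show q ≤ p by omega)
  have hNR : |(N : ℝ)| ≤ 3 * (x : ℝ) ^ ((k + 1) / 2) := by
    have h7 := N_bound hk hxk hN
    have h8 : ((|N| : ℤ) : ℝ) ≤ ((3 * x ^ ((k + 1) / 2) : ℤ) : ℝ) := Int.cast_le.2 h7
    rw [Int.cast_abs] at h8
    push_cast at h8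
    exact h8
  have f1 : |(((sq k P Q j).1.eval x : ℤ) : ℝ)| ≤
      ((p : ℝ) + J + 1) * B * (x : ℝ) ^ (p + J) := by
    refine e1.trans ?_
    push_cast
    have h7 : (x : ℝ) ^ (p + j) ≤ (x : ℝ) ^ (p + J) := pow_le_pow_right₀ hxR (by omega)
    have h8 : ((p : ℝ) + j + 1) * B ≤ ((p : ℝ) + J + 1) * B :=
      mul_le_mul_of_nonneg_right (by linarith) hB0
    exact mul_le_mul h8 h7 (by positivity) (by positivity)
  have f2 : |(((sq k P Q j).2.eval x : ℤ) : ℝ)| * |(N : ℝ)| ≤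
      3 * (((p : ℝ) + J + 1) * B * (x : ℝ) ^ (p + J)) := by
    have h7 : |(((sq k P Q j).2.eval x : ℤ) : ℝ)| ≤
        ((p : ℝ) + J + 1) * B * (x : ℝ) ^ (q + J) := by
      refine e2.trans ?_
      push_cast
      have h7 : (x : ℝ) ^ (q + j) ≤ (x : ℝ) ^ (q + J) := pow_le_pow_right₀ hxR (by omega)
      have h8 : ((q : ℝ) + j + 1) * B ≤ ((p : ℝ) + J + 1) * B :=
        mul_le_mul_of_nonneg_right (by linarith) hB0
      exact mul_le_mul h8 h7 (by positivity) (by positivity)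
    have h8 := mul_le_mul h7 hNR (abs_nonneg _) (by positivity)
    refine h8.trans (le_of_eq ?_)
    have h9 : p + J = (q + J) + (k + 1) / 2 := by omega
    rw [h9, pow_add]
    ring
  have f3 : |(D : ℝ)| ≤ |(((sq k P Q j).1.eval x : ℤ) : ℝ)| +
      |(((sq k P Q j).2.eval x : ℤ) : ℝ)| * |(N : ℝ)| := by
    rw [hD]
    push_cast
    rw [← abs_mul]
    exact abs_sub _ _
  linarith

end Pool.Agent.Lib.MP_776dcc_nt
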