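import Pool.Agent.Lib.MP_776dcc_nt.GSer

/-!
MP_776dcc_nt, part Half: very large `x`: the common divisors of `x` and `N` are at most `x^(1/2 + δ)`.
-/

set_option autoImplicit false

namespace Pool.Agent.Lib.MP_776dcc_nt

open scoped PowerSeries

theorem zk_eval (k : ℕ) (x : ℤ) : (zk k).eval x = (zp k).eval x + 2 * x ^ k := by
  unfold zk
  simp

theorem Bd.mul {d1 d2 : ℕ} {H1 H2 : ℝ} {P Q : Polynomial ℤ} (h1 : Bd d1 H1 P)
    (h2 : Bd d2 H2 Q) : Bd (d1 + d2) ((d1 + 1) * (H1 * H2)) (P * Q) := by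
  have hH1 := h1.nonneg
  have hH2 := h2.nonneg
  refine ⟨fun i hi => ?_, fun i => ?_⟩
  · apply Polynomial.coeff_eq_zero_of_natDegree_lt
    have h3 := Polynomial.natDegree_mul_le (p := P) (q := Q)
    have h4 := h1.natDegree
    have h5 := h2.natDegree
    omega
  · rw [Polynomial.coeff_mul, Finset.Nat.sum_antidiagonal_eq_sum_range_succ
      (fun a b => P.coeff a * Q.coeff b) i]
    push_cast
    refine (Finset.abs_sum_le_sum_abs _ _).trans ?_
    have h3 : ∀ a ∈ Finset.range (i + 1), |(P.coeff a : ℝ) * (Q.coeff (i - a) : ℝ)| ≤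
        if a ∈ Finset.range (d1 + 1) then H1 * H2 else 0 := by
      intro a _
      split_ifs with h
      · rw [abs_mul]
        exact mul_le_mul (h1.2 a) (h2.2 _) (abs_nonneg _) hH1
      · rw [Finset.mem_range] at h
        rw [h1.1 a (by omega)]
        simp
    refine (Finset.sum_le_sum h3).trans ?_
    rw [← Finset.sum_filter, Finset.sum_const, nsmul_eq_mul]
    refine mul_le_mul_of_nonneg_right ?_ (mul_nonneg hH1 hH2)
    have h4 : (Finset.filter (fun a => a ∈ Finset.range (d1 + 1)) (Finset.range (i + 1))).card ≤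
        d1 + 1 := by
      refine (Finset.card_le_card (fun a ha => (Finset.mem_filter.1 ha).2)).trans ?_
      rw [Finset.card_range]
    exact_mod_cast h4

/-- a zero `x` divides a non-zero coefficient -/
theorem root_dvd {x : ℤ} (hx : x ≠ 0) : ∀ (n : ℕ) (R : Polynomial ℤ), R.natDegree ≤ n → R ≠ 0 →
    R.eval x = 0 → ∃ c, R.coeff c ≠ 0 ∧ x ∣ R.coeff c := by
  intro n
  induction n with
  | zero =>
    intro R hd hR h0
    rw [Polynomial.eq_C_of_natDegree_le_zero hd, Polynomial.eval_C] at h0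
    exact absurd (by rw [Polynomial.eq_C_of_natDegree_le_zero hd, h0, Polynomial.C_0]) hR
  | succ n ih =>
    intro R hd hR h0
    by_cases hc : R.coeff 0 = 0
    · have h1 : R = Polynomial.divX R * Polynomial.X := by
        conv_lhs => rw [← Polynomial.divX_mul_X_add R, hc, Polynomial.C_0, add_zero]
      have h2 : Polynomial.divX R ≠ 0 := by
        intro h3
        rw [h3, zero_mul] at h1
        exact hR h1
      have h3 : (Polynomial.divX R).eval x = 0 := by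
        rw [h1, Polynomial.eval_mul, Polynomial.eval_X] at h0
        exact (mul_eq_zero.1 h0).resolve_right hx
      obtain ⟨c, hc1, hc2⟩ := ih _ (by rw [Polynomial.natDegree_divX_eq_natDegree_tsub_one]; omega)
        h2 h3
      rw [Polynomial.coeff_divX] at hc1 hc2
      exact ⟨c + 1, hc1, hc2⟩
    · refine ⟨0, hc, ?_⟩
      have h1 := congrArg (Polynomial.eval x) (Polynomial.divX_mul_X_add R)
      rw [Polynomial.eval_add, Polynomial.eval_mul, Polynomial.eval_X, Polynomial.eval_C, h0] at h1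
      exact ⟨-(Polynomial.divX R).eval x, by linear_combination h1⟩

/-- the norm of `P - Q W` does not vanish -/
theorem norm_ne_zero {k : ℕ} (hk : 3 ≤ k) {P Q : Polynomial ℤ} (hQ : Q ≠ 0) :
    P ^ 2 - P * Q - zk k * Q ^ 2 ≠ 0 := by
  intro h0
  have h1 : (2 * P - Q) ^ 2 = (1 + 4 * zk k) * Q ^ 2 := by linear_combination 4 * h0
  have hk2 : (Polynomial.C (8 : ℤ) * Polynomial.X ^ k).natDegree = k :=
    Polynomial.natDegree_C_mul_X_pow k 8 (by norm_num)
  have hlow : (1 + 4 * zp k : Polynomial ℤ).natDegree ≤ 2 := by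
    have h2 : (1 + 4 * zp k : Polynomial ℤ) = Polynomial.C (4 * (k : ℤ)) * Polynomial.X ^ 2 +
        (Polynomial.C (-(4 * (k : ℤ))) * Polynomial.X + Polynomial.C 1) := by
      unfold zp
      rw [map_neg, map_mul]
      have : (Polynomial.C (4 : ℤ)) = (4 : Polynomial ℤ) := rfl
      rw [this, Polynomial.C_1]
      ring
    rw [h2]
    refine Polynomial.natDegree_add_le_of_degree_le (Polynomial.natDegree_C_mul_X_pow_le _ _) ?_
    exact (Polynomial.natDegree_linear_le).trans (by norm_num)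
  have hf : (1 + 4 * zk k : Polynomial ℤ) = Polynomial.C 8 * Polynomial.X ^ k + (1 + 4 * zp k) := by
    unfold zk
    have : (Polynomial.C (8 : ℤ)) = (8 : Polynomial ℤ) := rfl
    rw [this]
    ring
  have hdeg : (1 + 4 * zk k : Polynomial ℤ).natDegree = k := by
    rw [hf, Polynomial.natDegree_add_eq_left_of_natDegree_lt (by rw [hk2]; omega), hk2]
  have hlead : (1 + 4 * zk k : Polynomial ℤ).leadingCoeff = 8 := by
    rw [Polynomial.leadingCoeff, hdeg, hf, Polynomial.coeff_add, Polynomial.coeff_C_mul,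
      Polynomial.coeff_X_pow, if_pos rfl,
      Polynomial.coeff_eq_zero_of_natDegree_lt (show (1 + 4 * zp k : Polynomial ℤ).natDegree < k by
        omega)]
    norm_num
  have h2 := congrArg Polynomial.leadingCoeff h1
  rw [Polynomial.leadingCoeff_pow, Polynomial.leadingCoeff_mul, Polynomial.leadingCoeff_pow,
    hlead] at h2
  have hn : Q.leadingCoeff ≠ 0 := Polynomial.leadingCoeff_ne_zero.2 hQ
  -- 8 n² is not a square
  have h3 : ((((2 * P - Q).leadingCoeff : ℤ) : ℝ) / (2 * ((Q.leadingCoeff : ℤ) : ℝ))) ^ 2 = 2 := by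
    have h4 : (((2 * P - Q).leadingCoeff : ℤ) : ℝ) ^ 2 = 8 * ((Q.leadingCoeff : ℤ) : ℝ) ^ 2 := by
      exact_mod_cast h2
    have h5 : ((Q.leadingCoeff : ℤ) : ℝ) ≠ 0 := by exact_mod_cast hn
    rw [div_pow, h4]
    field_simp
    ring
  have h4 : |((((2 * P - Q).leadingCoeff : ℤ) : ℝ) / (2 * ((Q.leadingCoeff : ℤ) : ℝ)))| =
      Real.sqrt 2 := (Real.sqrt_sq_eq_abs _).symm.trans (congrArg Real.sqrt h3)
  refine irrational_sqrt_two ⟨|((((2 * P - Q).leadingCoeff : ℤ) : ℚ) /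
    (2 * ((Q.leadingCoeff : ℤ) : ℚ)))|, ?_⟩
  rw [← h4]
  push_cast
  rfl

/-- the inequality for large `x` -/
theorem half_raw {k q E : ℕ} {x N b : ℤ} (hk : 3 ≤ k) (hxk : (k : ℤ) ≤ x)
    (hN : N ^ 2 - N = (zk k).eval x) (hb : 1 ≤ b) (hbx : b ∣ x) (hbN : b ∣ N)
    (hE : 1 ≤ E) (hEq : E < q + 1)
    (hx : (2 * (k : ℝ) + 4) * (((q + (k + 1) / 2 : ℕ) : ℝ) + 1) *
      (((q : ℝ) + 1) * sb k (q + (k + 1) / 2) q E * (8 * k) ^ (q + (k + 1) / 2)) ^ 2 < x) :
    (b : ℝ) ^ (q + (k + 1) / 2 + 1 + E) ≤ 4 * (((q + (k + 1) / 2 : ℕ) : ℝ) + 1) *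
      (((q : ℝ) + 1) * sb k (q + (k + 1) / 2) q E * (8 * k) ^ (q + (k + 1) / 2)) *
        (x : ℝ) ^ (q + (k + 1) / 2) := by
  obtain ⟨p, hp⟩ : ∃ p, p = q + (k + 1) / 2 := ⟨_, rfl⟩
  rw [← hp] at hx ⊢
  have hkZ : (3 : ℤ) ≤ k := by exact_mod_cast hk
  have hkR : (3 : ℝ) ≤ k := by exact_mod_cast hk
  have hx1 : 1 ≤ x := by omega
  have hxR : (1 : ℝ) ≤ x := by exact_mod_cast hx1
  have hbR : (1 : ℝ) ≤ b := by exact_mod_cast hb
  obtain ⟨P, Q, hQ0, hord, hQb, hPb⟩ := siegelW (w := wk k) (k := (k : ℤ)) (by omega)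
    (wk_bound hk) hE hEq (show q ≤ p by omega)
  have hS0 : 0 ≤ sb k p q E := hQb.nonneg
  push_cast at hPb
  obtain ⟨H, hH⟩ : ∃ H : ℝ, H = ((q : ℝ) + 1) * sb k p q E * (8 * k) ^ p := ⟨_, rfl⟩
  rw [← hH] at hPb hx ⊢
  have hSH : sb k p q E ≤ H := by
    rw [hH]
    have h1 : (1 : ℝ) ≤ (q : ℝ) + 1 := by
      have : (0 : ℝ) ≤ q := Nat.cast_nonneg _
      linarith
    have h2 : (1 : ℝ) ≤ (8 * (k : ℝ)) ^ p := one_le_pow₀ (by linarith)
    calc sb k p q E = 1 * sb k p q E * 1 := by ring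
      _ ≤ ((q : ℝ) + 1) * sb k p q E * (8 * k) ^ p := by
        apply mul_le_mul (mul_le_mul_of_nonneg_right h1 hS0) h2 zero_le_one
        positivity
  have hQb' : Bd q H Q := hQb.mono le_rfl hSH
  have hH0 : 0 ≤ H := hPb.nonneg
  have hq0 : (0 : ℝ) ≤ q := Nat.cast_nonneg _
  have hqp : (q : ℝ) ≤ p := by exact_mod_cast (show q ≤ p by omega)
  -- non-vanishing
  have hne : P.eval x - Q.eval x * N ≠ 0 := by
    intro h0
    have hR0 := norm_ne_zero hk (P := P) hQ0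
    have hRx : (P ^ 2 - P * Q - zk k * Q ^ 2).eval x = 0 := by
      rw [Polynomial.eval_sub, Polynomial.eval_sub, Polynomial.eval_pow, Polynomial.eval_mul,
        Polynomial.eval_mul, Polynomial.eval_pow, ← hN]
      have h1 : P.eval x = Q.eval x * N := sub_eq_zero.1 h0
      rw [h1]
      ring
    obtain ⟨c, hc1, hc2⟩ := root_dvd (show x ≠ 0 by omega) _ _ le_rfl hR0 hRx
    have h1 := Int.le_of_dvd (abs_pos.2 hc1) ((dvd_abs _ _).2 hc2)
    have h2 : (x : ℝ) ≤ |(((P ^ 2 - P * Q - zk k * Q ^ 2).coeff c : ℤ) : ℝ)| := by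
      have h3 : ((x : ℤ) : ℝ) ≤ ((|(P ^ 2 - P * Q - zk k * Q ^ 2).coeff c| : ℤ) : ℝ) :=
        Int.cast_le.2 h1
      rwa [Int.cast_abs] at h3
    -- the coefficients of the norm
    have b1 := hPb.mul hPb
    have b2 := hPb.mul hQb'
    have b3 := hQb'.mul hQb'
    have e1 : (P ^ 2 - P * Q - zk k * Q ^ 2).coeff c = (P * P).coeff c - (P * Q).coeff c -
        ((k : ℤ) * (if 2 ≤ c then (Q * Q).coeff (c - 2) else 0) -
          (k : ℤ) * (if 1 ≤ c then (Q * Q).coeff (c - 1) else 0) +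
            2 * (if k ≤ c then (Q * Q).coeff (c - k) else 0)) := by
      have e2 : P ^ 2 - P * Q - zk k * Q ^ 2 = P * P - P * Q -
          (Polynomial.C (k : ℤ) * (Polynomial.X ^ 2 * (Q * Q)) -
            Polynomial.C (k : ℤ) * (Polynomial.X ^ 1 * (Q * Q)) +
              Polynomial.C 2 * (Polynomial.X ^ k * (Q * Q))) := by
        unfold zk zp
        have : (Polynomial.C (2 : ℤ)) = (2 : Polynomial ℤ) := rfl
        rw [this]
        ring
      rw [e2, Polynomial.coeff_sub, Polynomial.coeff_sub, Polynomial.coeff_add,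
        Polynomial.coeff_sub, Polynomial.coeff_C_mul, Polynomial.coeff_C_mul,
        Polynomial.coeff_C_mul, Polynomial.coeff_X_pow_mul', Polynomial.coeff_X_pow_mul',
        Polynomial.coeff_X_pow_mul']
    obtain ⟨B, hB⟩ : ∃ B : ℝ, B = ((p : ℝ) + 1) * (H * H) := ⟨_, rfl⟩
    have hB0 : 0 ≤ B := by
      rw [hB]
      positivity
    have c1 := b1.2 c
    have c2 := b2.2 c
    rw [← hB] at c1 c2
    have c3 : ∀ i, |((Q * Q).coeff i : ℝ)| ≤ B := by
      intro i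
      refine (b3.2 i).trans ?_
      rw [hB]
      exact mul_le_mul_of_nonneg_right (by linarith) (mul_nonneg hH0 hH0)
    have c4 : |((if 2 ≤ c then (Q * Q).coeff (c - 2) else 0 : ℤ) : ℝ)| ≤ B := by
      split_ifs
      · exact c3 _
      · simpa using hB0
    have c5 : |((if 1 ≤ c then (Q * Q).coeff (c - 1) else 0 : ℤ) : ℝ)| ≤ B := by
      split_ifs
      · exact c3 _
      · simpa using hB0
    have c6 : |((if k ≤ c then (Q * Q).coeff (c - k) else 0 : ℤ) : ℝ)| ≤ B := by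
      split_ifs
      · exact c3 _
      · simpa using hB0
    rw [e1, Int.cast_sub, Int.cast_sub, Int.cast_add, Int.cast_sub, Int.cast_mul, Int.cast_mul,
      Int.cast_mul, Int.cast_natCast, Int.cast_ofNat] at h2
    obtain ⟨u1, hu1⟩ : ∃ u : ℝ, u = ((P * P).coeff c : ℝ) := ⟨_, rfl⟩
    obtain ⟨u2, hu2⟩ : ∃ u : ℝ, u = ((P * Q).coeff c : ℝ) := ⟨_, rfl⟩
    obtain ⟨u4, hu4⟩ : ∃ u : ℝ, u =
      ((if 2 ≤ c then (Q * Q).coeff (c - 2) else 0 : ℤ) : ℝ) := ⟨_, rfl⟩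
    obtain ⟨u5, hu5⟩ : ∃ u : ℝ, u =
      ((if 1 ≤ c then (Q * Q).coeff (c - 1) else 0 : ℤ) : ℝ) := ⟨_, rfl⟩
    obtain ⟨u6, hu6⟩ : ∃ u : ℝ, u =
      ((if k ≤ c then (Q * Q).coeff (c - k) else 0 : ℤ) : ℝ) := ⟨_, rfl⟩
    rw [← hu1] at c1 h2
    rw [← hu2] at c2 h2
    rw [← hu4] at c4 h2
    rw [← hu5] at c5 h2
    rw [← hu6] at c6 h2
    have h3 : |u1 - u2 - ((k : ℝ) * u4 - k * u5 + 2 * u6)| ≤ (2 * k + 4) * B := by
      rw [abs_le] at c1 c2 c4 c5 c6 ⊢
      have k1 := mul_le_mul_of_nonneg_left c4.1 (by linarith : (0 : ℝ) ≤ k)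
      have k2 := mul_le_mul_of_nonneg_left c4.2 (by linarith : (0 : ℝ) ≤ k)
      have k3 := mul_le_mul_of_nonneg_left c5.1 (by linarith : (0 : ℝ) ≤ k)
      have k4 := mul_le_mul_of_nonneg_left c5.2 (by linarith : (0 : ℝ) ≤ k)
      constructor <;> nlinarith
    have h4 : (2 * (k : ℝ) + 4) * ((p : ℝ) + 1) * H ^ 2 = (2 * k + 4) * B := by
      rw [hB]
      ring
    rw [h4] at hx
    linarith
  -- the size
  have hord' : PowerSeries.X ^ (p + 1 + E) ∣ (P : PowerSeries ℤ) - (Q : PowerSeries ℤ) * Ws k :=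
    hord
  have h4 := congW hk hN hbx hbN (show 0 < p + 1 + E by omega) hord'
  have h5 : b ^ (p + 1 + E) ≤ |P.eval x - Q.eval x * N| :=
    Int.le_of_dvd (abs_pos.2 hne) ((dvd_abs _ _).2 h4)
  have h6 : (b : ℝ) ^ (p + 1 + E) ≤ |(((P.eval x - Q.eval x * N : ℤ)) : ℝ)| := by
    have h8 : ((b ^ (p + 1 + E) : ℤ) : ℝ) ≤ ((|P.eval x - Q.eval x * N| : ℤ) : ℝ) :=
      Int.cast_le.2 h5
    rwa [Int.cast_abs, Int.cast_pow] at h8
  refine h6.trans ?_
  have e1 := hPb.eval hx1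
  have e2 := hQb'.eval hx1
  have hNR : |(N : ℝ)| ≤ 3 * (x : ℝ) ^ ((k + 1) / 2) := by
    have h7 := N_bound hk hxk (by rw [← zk_eval]; exact hN)
    have h8 : ((|N| : ℤ) : ℝ) ≤ ((3 * x ^ ((k + 1) / 2) : ℤ) : ℝ) := Int.cast_le.2 h7
    rw [Int.cast_abs] at h8
    push_cast at h8
    exact h8
  have f2 : |((Q.eval x : ℤ) : ℝ)| * |(N : ℝ)| ≤ 3 * (((p : ℝ) + 1) * H * (x : ℝ) ^ p) := by
    have h7 : |((Q.eval x : ℤ) : ℝ)| ≤ ((p : ℝ) + 1) * H * (x : ℝ) ^ q := by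
      refine e2.trans ?_
      exact mul_le_mul_of_nonneg_right (mul_le_mul_of_nonneg_right (by linarith) hH0)
        (by positivity)
    have h8 := mul_le_mul h7 hNR (abs_nonneg _) (by positivity)
    refine h8.trans (le_of_eq ?_)
    rw [hp, pow_add]
    ring
  have f3 : |(((P.eval x - Q.eval x * N : ℤ)) : ℝ)| ≤ |((P.eval x : ℤ) : ℝ)| +
      |((Q.eval x : ℤ) : ℝ)| * |(N : ℝ)| := by
    push_cast
    rw [← abs_mul]
    exact abs_sub _ _
  have h9 : 4 * ((p : ℝ) + 1) * H * (x : ℝ) ^ p =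
      ((p : ℝ) + 1) * H * (x : ℝ) ^ p + 3 * (((p : ℝ) + 1) * H * (x : ℝ) ^ p) := by ring
  rw [h9]
  linarith

end Pool.Agent.Lib.MP_776dcc_nt
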