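import Pool.Agent.Lib.MP_776dcc_nt.Half
import Pool.Agent.Lib.MP_776dcc_nt.Bal

/-!
MP_776dcc_nt, part HalfFin: very large `x`: the choice of the parameters.
-/

set_option autoImplicit false

namespace Pool.Agent.Lib.MP_776dcc_nt

/-- one common divisor, `x ≥ k ^ (C k)` -/
theorem half_bound {K : ℕ} (hK : 1 ≤ K) : ∃ C : ℕ, ∀ (k : ℕ) (x N b : ℤ), 3 ≤ k →
    (k : ℤ) ^ (C * k) ≤ x → N ^ 2 - N = (zp k).eval x + 2 * x ^ k → 1 ≤ b → b ∣ x → b ∣ N →
      Real.log b ≤ (1 / 2 + 1 / K) * Real.log x := by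
  refine ⟨60 * K ^ 2, fun k x N b hk hkx hN hb hbx hbN => ?_⟩
  have hKR : (1 : ℝ) ≤ K := by exact_mod_cast hK
  have hkR : (3 : ℝ) ≤ k := by exact_mod_cast hk
  have hkZ : (1 : ℤ) ≤ k := by exact_mod_cast (show 1 ≤ k by omega)
  have hK2 : 1 ≤ K ^ 2 := Nat.one_le_pow _ _ hK
  -- the parameters
  obtain ⟨q, hq⟩ : ∃ q, q = K * k := ⟨_, rfl⟩
  have hqk : k ≤ q := by
    rw [hq]
    exact Nat.le_mul_of_pos_left k (by omega)
  obtain ⟨E, hE⟩ : ∃ E, E = q + 1 - k := ⟨_, rfl⟩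
  have hE1 : 1 ≤ E := by omega
  have hEq : E < q + 1 := by omega
  obtain ⟨p, hp⟩ : ∃ p, p = q + (k + 1) / 2 := ⟨_, rfl⟩
  have hxk : (k : ℤ) ≤ x := by
    refine le_trans ?_ hkx
    calc (k : ℤ) = (k : ℤ) ^ 1 := (pow_one _).symm
      _ ≤ (k : ℤ) ^ (60 * K ^ 2 * k) := pow_le_pow_right₀ hkZ (by
        have : 1 ≤ 60 * K ^ 2 * k := Nat.mul_pos (by omega) (by omega)
        omega)
  have hx1 : (1 : ℤ) ≤ x := by omega
  have hxR : (1 : ℝ) ≤ x := by exact_mod_cast hx1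
  have hx0 : (0 : ℝ) < x := by linarith
  have hbR : (1 : ℝ) ≤ b := by exact_mod_cast hb
  -- logarithms
  obtain ⟨L, hL⟩ : ∃ L : ℝ, L = Real.log x := ⟨_, rfl⟩
  obtain ⟨a, ha⟩ : ∃ a : ℝ, a = Real.log b := ⟨_, rfl⟩
  have ha0 : 0 ≤ a := by
    rw [ha]
    exact Real.log_nonneg hbR
  obtain ⟨lam, hlam⟩ : ∃ lam : ℝ, lam = Real.log (8 * k) := ⟨_, rfl⟩
  have hlam1 : 1 ≤ lam := by
    rw [hlam, Real.le_log_iff_exp_le (by positivity)]
    have := Real.exp_one_lt_d9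
    linarith
  have hlam3 : lam ≤ 3 * Real.log k := by
    rw [hlam, show (3 : ℝ) * Real.log k = Real.log ((k : ℝ) ^ 3) by
      rw [Real.log_pow]
      norm_num]
    refine Real.log_le_log (by positivity) ?_
    have h2 : (9 : ℝ) ≤ k ^ 2 := by nlinarith
    calc (8 : ℝ) * k ≤ k ^ 2 * k := mul_le_mul_of_nonneg_right (by linarith) (by linarith)
      _ = (k : ℝ) ^ 3 := by ring
  have hLk : 20 * (K : ℝ) ^ 2 * k * lam ≤ L := by
    have h1 : ((k : ℝ)) ^ (60 * K ^ 2 * k) ≤ x := by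
      have h1 : (((k : ℤ) ^ (60 * K ^ 2 * k) : ℤ) : ℝ) ≤ (x : ℝ) := Int.cast_le.2 hkx
      push_cast at h1
      exact h1
    have h3 := Real.log_le_log (pow_pos (by linarith) _) h1
    rw [Real.log_pow, ← hL] at h3
    push_cast at h3
    have h4 : 20 * (K : ℝ) ^ 2 * k * lam ≤ 20 * (K : ℝ) ^ 2 * k * (3 * Real.log k) :=
      mul_le_mul_of_nonneg_left hlam3 (by positivity)
    linarith
  -- sizes
  have hqR : (q : ℝ) = K * k := by
    rw [hq]
    push_cast
    ring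
  have hpR : (p : ℝ) ≤ K * k + k / 2 + 1 / 2 := by
    have h1 : 2 * p ≤ 2 * q + k + 1 := by omega
    have h2 : (2 : ℝ) * p ≤ 2 * q + k + 1 := by exact_mod_cast h1
    rw [hqR] at h2
    linarith
  have hKk : (k : ℝ) ≤ K * k := by nlinarith
  have hp2 : (p : ℝ) ≤ 2 * (K * k) := by linarith
  have hq0 : (0 : ℝ) ≤ q := Nat.cast_nonneg _
  have hp0 : (0 : ℝ) ≤ p := Nat.cast_nonneg _
  have hpE : ((p + E : ℕ) : ℝ) ≤ 3 * (K * k) := by
    have h1 : p + E + k ≤ 2 * q + 1 + k := by omega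
    have h2 : ((p + E + k : ℕ) : ℝ) ≤ ((2 * q + 1 + k : ℕ) : ℝ) := by exact_mod_cast h1
    push_cast at h2 ⊢
    rw [hqR] at h2
    linarith
  have hEF : (((q + 1 : ℕ) : ℝ) - E) = k := by
    have h1 : q + 1 = E + k := by omega
    rw [h1]
    push_cast
    ring
  have hsb : sb k p q E = (((q + 1 : ℕ) : ℝ) * (8 * (k : ℝ)) ^ (p + E)) ^ ((E : ℝ) / k) := by
    unfold sb
    rw [hEF]
    push_cast
    rfl
  have hbase : (0 : ℝ) < ((q + 1 : ℕ) : ℝ) * (8 * (k : ℝ)) ^ (p + E) := by positivity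
  have hsb0 : 0 < sb k p q E := by
    rw [hsb]
    exact Real.rpow_pos_of_pos hbase _
  have hlq : Real.log ((q : ℝ) + 1) ≤ K * k := by
    have h1 := Real.log_le_sub_one_of_pos (show (0 : ℝ) < (q : ℝ) + 1 by positivity)
    rw [← hqR]
    linarith
  have hlp : Real.log ((p : ℝ) + 1) ≤ 2 * (K * k) := by
    have h1 := Real.log_le_sub_one_of_pos (show (0 : ℝ) < (p : ℝ) + 1 by positivity)
    linarith
  have hlsb : Real.log (sb k p q E) ≤ 4 * (K : ℝ) ^ 2 * k * lam := by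
    rw [hsb, Real.log_rpow hbase, Real.log_mul (by positivity) (by positivity), Real.log_pow,
      ← hlam]
    have h1 : Real.log ((q + 1 : ℕ) : ℝ) ≤ K * k * lam := by
      push_cast
      nlinarith
    have h2 : Real.log ((q + 1 : ℕ) : ℝ) + ((p + E : ℕ) : ℝ) * lam ≤ 4 * (K * k) * lam := by
      nlinarith
    have h3 : (E : ℝ) / k ≤ K := by
      rw [div_le_iff₀ (by linarith)]
      have h4 : E ≤ q := by omega
      rw [← hqR]
      exact_mod_cast h4
    have h4 : 0 ≤ (E : ℝ) / k := by positivity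
    calc (E : ℝ) / k * (Real.log ((q + 1 : ℕ) : ℝ) + ((p + E : ℕ) : ℝ) * lam)
        ≤ (E : ℝ) / k * (4 * (K * k) * lam) := mul_le_mul_of_nonneg_left h2 h4
      _ ≤ K * (4 * (K * k) * lam) := mul_le_mul_of_nonneg_right h3 (by positivity)
      _ = 4 * (K : ℝ) ^ 2 * k * lam := by ring
  obtain ⟨H, hH⟩ : ∃ H : ℝ, H = ((q : ℝ) + 1) * sb k p q E * (8 * k) ^ p := ⟨_, rfl⟩
  have hH0 : 0 < H := by
    rw [hH]
    exact mul_pos (mul_pos (by positivity) hsb0) (by positivity)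
  obtain ⟨T, hT⟩ : ∃ T : ℝ, T = (K : ℝ) ^ 2 * k * lam := ⟨_, rfl⟩
  have hT1 : (K : ℝ) * k * lam ≤ T := by
    rw [hT]
    have h1 : (K : ℝ) ≤ K ^ 2 := by nlinarith
    exact mul_le_mul_of_nonneg_right (mul_le_mul_of_nonneg_right h1 (by linarith)) (by linarith)
  have hT0 : 0 < T := by
    rw [hT]
    positivity
  have hT2 : (K : ℝ) * k ≤ T := by
    refine le_trans ?_ hT1
    nlinarith [mul_pos (show (0 : ℝ) < K by linarith) (show (0 : ℝ) < k by linarith)]
  have hT3 : lam ≤ T := by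
    refine le_trans ?_ hT1
    nlinarith
  have hT4 : 20 * T ≤ L := by
    rw [hT]
    linarith
  have hlH : Real.log H ≤ 7 * T := by
    rw [hH, Real.log_mul (mul_ne_zero (by positivity) hsb0.ne') (by positivity),
      Real.log_mul (by positivity) hsb0.ne', Real.log_pow, ← hlam]
    have h1 : (p : ℝ) * lam ≤ 2 * (K * k) * lam := mul_le_mul_of_nonneg_right hp2 (by linarith)
    have h2 : 4 * (K : ℝ) ^ 2 * k * lam = 4 * T := by
      rw [hT]
      ring
    rw [h2] at hlsb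
    linarith
  -- the two applications
  have hlog4 : Real.log (4 * ((p : ℝ) + 1)) ≤ 3 * T := by
    rw [Real.log_mul (by norm_num) (by positivity)]
    have h1 : Real.log 4 ≤ lam := by
      rw [hlam]
      exact Real.log_le_log (by norm_num) (by linarith)
    linarith
  have hlog2k : Real.log (2 * (k : ℝ) + 4) ≤ T := by
    refine le_trans ?_ hT3
    rw [hlam]
    exact Real.log_le_log (by positivity) (by linarith)
  have hsize : (2 * (k : ℝ) + 4) * ((p : ℝ) + 1) * H ^ 2 < x := by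
    rw [← Real.log_lt_log_iff (by positivity) hx0, ← hL,
      Real.log_mul (by positivity) (by positivity), Real.log_mul (by positivity) (by positivity),
      Real.log_pow]
    push_cast
    linarith
  have hraw := half_raw (k := k) (q := q) (E := E) hk hxk
    (show N ^ 2 - N = (zk k).eval x by rw [zk_eval]; exact hN) hb hbx hbN hE1 hEq
    (by
      rw [← hp, ← hH]
      exact hsize)
  rw [← hp, ← hH] at hraw
  have hl := Real.log_le_log (pow_pos (by linarith : (0 : ℝ) < b) _) hraw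
  rw [Real.log_pow, Real.log_mul (by positivity) (by positivity),
    Real.log_mul (by positivity) (by positivity), Real.log_pow, ← ha, ← hL] at hl
  have hM : 2 * (K : ℝ) * k + 2 - k / 2 ≤ ((p + 1 + E : ℕ) : ℝ) := by
    have h1 : 4 * q + 4 ≤ 2 * (p + 1 + E) + k := by omega
    have h2 : (4 : ℝ) * q + 4 ≤ 2 * ((p + 1 + E : ℕ) : ℝ) + k := by exact_mod_cast h1
    rw [hqR] at h2
    linarith
  have hL0 : 0 ≤ L := by linarith
  rw [← ha, ← hL]
  have hKinv : 1 / (K : ℝ) ≤ 1 := by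
    rw [div_le_one (by linarith)]
    exact hKR
  have hKinv0 : 0 < 1 / (K : ℝ) := by positivity
  -- the coefficient of L on the right
  have hcoef : (K : ℝ) * k + k / 2 + 1 / 2 + k / 2 ≤
      (2 * (K : ℝ) * k + 2 - k / 2) * (1 / 2 + 1 / K) := by
    have e1 : (2 * (K : ℝ) * k + 2 - k / 2) * (1 / 2 + 1 / K) =
        K * k + 1 - k / 4 + 2 * k + 2 * (1 / K) - k / 2 * (1 / K) := by
      field_simp
      ring
    rw [e1]
    have e2 : (k : ℝ) / 2 * (1 / K) ≤ k / 2 * 1 :=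
      mul_le_mul_of_nonneg_left hKinv (by linarith)
    linarith
  have hposM : (0 : ℝ) < 2 * (K : ℝ) * k + 2 - k / 2 := by linarith
  have h10 : 10 * T ≤ k / 2 * L := by
    have h11 : 0 ≤ ((k : ℝ) / 2 - 1) * L := mul_nonneg (by linarith) hL0
    linarith
  have hfin : (2 * (K : ℝ) * k + 2 - k / 2) * a ≤
      (2 * (K : ℝ) * k + 2 - k / 2) * ((1 / 2 + 1 / K) * L) := by
    have e1 := mul_le_mul_of_nonneg_right hM ha0
    have e2 := mul_le_mul_of_nonneg_right hcoef hL0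
    have e3 := mul_le_mul_of_nonneg_right hpR hL0
    linarith
  exact le_of_mul_le_mul_left hfin hposM

/-- one common divisor, all `k ≥ 3` -/
theorem dvd_all {δ : ℝ} (hδ : 0 < δ) : ∃ C : ℕ, ∀ (k : ℕ) (x N b : ℤ), 3 ≤ k →
    (k : ℤ) ^ C ≤ x → N ^ 2 - N = (zp k).eval x + 2 * x ^ k → 1 ≤ b → b ∣ x → b ∣ N →
      Real.log b ≤ (3 / 4 + δ) * Real.log x := by
  obtain ⟨C, hC⟩ := dvd_bound (δ := min δ 1) (lt_min hδ one_pos) (min_le_right _ _)
  obtain ⟨D, hD⟩ := half_bound (K := 4) (by norm_num)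
  refine ⟨C + D * C, fun k x N b hk hkx hN hb hbx hbN => ?_⟩
  have hkZ : (1 : ℤ) ≤ k := by exact_mod_cast (show 1 ≤ k by omega)
  have hx1 : (1 : ℤ) ≤ x := (one_le_pow₀ hkZ).trans hkx
  have hL0 : 0 ≤ Real.log x := Real.log_nonneg (by exact_mod_cast hx1)
  rcases le_or_gt C k with h | h
  · have h1 := hC k x N b h ((pow_le_pow_right₀ hkZ (Nat.le_add_right _ _)).trans hkx) hN hb hbx
      hbN
    exact h1.trans (mul_le_mul_of_nonneg_right (by linarith [min_le_left δ 1]) hL0)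
  · have h1 := hD k x N b hk ((pow_le_pow_right₀ hkZ
      ((Nat.mul_le_mul_left D h.le).trans (Nat.le_add_left _ _))).trans hkx) hN hb hbx hbN
    refine h1.trans (mul_le_mul_of_nonneg_right ?_ hL0)
    norm_num
    linarith

end Pool.Agent.Lib.MP_776dcc_nt
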