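import Pool.Agent.Lib.MP_776dcc_nt.Loc

/-!
MP_776dcc_nt, part Ineq: the proximities of `z / (y + z)`.
-/

set_option autoImplicit false

namespace Pool.Agent.Lib.MP_776dcc_nt

open Height Filter Topology
open Pool.Agent.Lib.MP_17a322_nt.VJ
open Pool.Agent.Lib.MP_17a322_nt.VN
open Pool.Agent.Lib.MP_17a322_nt.VP

variable {K : Type} [Field K] [NumberField K]

/-- the archimedean places and the places over the primes of `P` -/
theorem exists_Sg (K : Type) [Field K] [NumberField K] (P : Finset ℕ) :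
    ∃ Sg : Finset (AbsoluteValue K ℝ), (∀ v ∈ Sg, Pl v) ∧
      (∀ v ∈ AdmissibleAbsValues.archAbsVal (K := K), v ∈ Sg) ∧
      ∀ v ∈ AdmissibleAbsValues.nonarchAbsVal (K := K), ∀ p ∈ P, p.Prime → v (p : K) < 1 →
        v ∈ Sg := by
  classical
  have hfin : (⋃ p ∈ (P.filter Nat.Prime), (Subtype.val ''
      {v : AdmissibleAbsValues.nonarchAbsVal (K := K) | Real.log (v.val ((p : ℕ) : K)) ≠ 0} :
        Set (AbsoluteValue K ℝ))).Finite := by
    refine Set.Finite.biUnion (Finset.finite_toSet _) fun p hp => ?_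
    rw [Finset.mem_coe, Finset.mem_filter] at hp
    exact (FS_log_abv (x := ((p : ℕ) : K)) (Nat.cast_ne_zero.2 hp.2.ne_zero)).image _
  refine ⟨(AdmissibleAbsValues.archAbsVal (K := K)).toFinset ∪ hfin.toFinset, ?_, ?_, ?_⟩
  · intro v hv
    rw [Finset.mem_union, Multiset.mem_toFinset, Set.Finite.mem_toFinset] at hv
    rcases hv with hv | hv
    · exact Or.inl hv
    · simp only [Set.mem_iUnion, Set.mem_image] at hv
      obtain ⟨p, hp, w, hw, rfl⟩ := hv
      exact Or.inr w.2
  · intro v hv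
    rw [Finset.mem_union, Multiset.mem_toFinset]
    exact Or.inl hv
  · intro v hv p hp hpp hlt
    rw [Finset.mem_union, Set.Finite.mem_toFinset]
    refine Or.inr ?_
    simp only [Set.mem_iUnion, Set.mem_image]
    refine ⟨p, Finset.mem_filter.2 ⟨hp, hpp⟩, ⟨v, hv⟩, ?_, rfl⟩
    show Real.log (v (p : K)) ≠ 0
    exact (Real.log_neg (v.pos (Nat.cast_ne_zero.2 hpp.ne_zero)) hlt).ne

omit [NumberField K] in
theorem unit_of_primes {v : AbsoluteValue K ℝ} :
    ∀ m : ℕ, m ≠ 0 → (∀ p, p.Prime → p ∣ m → v (p : K) = 1) → v (m : K) = 1 := by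
  intro m
  induction m using Nat.strong_induction_on with
  | _ m ih =>
    intro hm h
    rcases eq_or_ne m 1 with rfl | h1
    · rw [Nat.cast_one, map_one]
    · have hp := Nat.minFac_prime h1
      have hd := Nat.minFac_dvd m
      obtain ⟨q, hq⟩ := hd
      have hq0 : q ≠ 0 := by
        rintro rfl
        rw [mul_zero] at hq
        exact hm hq
      have hlt : q < m := by
        rw [hq]
        exact lt_mul_of_one_lt_left (Nat.pos_of_ne_zero hq0) hp.one_lt
      have h2 := ih q hlt hq0 fun p hpp hpq => h p hpp (hq ▸ Dvd.dvd.mul_left hpq _)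
      have h3 := h m.minFac hp ⟨q, hq⟩
      rw [hq, Nat.cast_mul, map_mul, h3, h2, one_mul]

/-- the two square roots: one of the two targets is close at every archimedean place -/
theorem arch_close {v : AbsoluteValue K ℝ} (hv : v ∈ AdmissibleAbsValues.archAbsVal (K := K))
    {y z c d : ℕ} {α : K} (hα : α ^ 2 = 2 * (d : K)) (hd : 1 ≤ d)
    (hy : y ^ 2 = 2 * d * z ^ 2 + c) (hz : 1 ≤ z) (w : ℝ)
    (h1 : w ≤ v ((z : K) / ((y : K) + (z : K)) - 1 / (1 + α)))
    (h2 : w ≤ v ((z : K) / ((y : K) + (z : K)) - 1 / (1 - α))) :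
    w * ((y : ℝ) + z) ^ 2 ≤ c := by
  have hs : ((y : K) + (z : K)) ≠ 0 := by
    have : ((y + z : ℕ) : K) ≠ 0 := Nat.cast_ne_zero.2 (by omega)
    rwa [Nat.cast_add] at this
  have hvs : v ((y : K) + (z : K)) = (y : ℝ) + z := by
    have := arch_nat hv (y + z)
    rwa [Nat.cast_add, Nat.cast_add] at this
  have hzR : (1 : ℝ) ≤ z := by exact_mod_cast hz
  have hyR : (0 : ℝ) ≤ y := Nat.cast_nonneg _
  have hdR : (1 : ℝ) ≤ d := by exact_mod_cast hd
  have hcast : ((2 * d - 1 : ℕ) : K) = 2 * (d : K) - 1 := by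
    rw [Nat.cast_sub (by omega)]
    push_cast
    ring
  have hne : (2 * (d : K) - 1) ≠ 0 := by
    rw [← hcast]
    exact Nat.cast_ne_zero.2 (by omega)
  have hpm : (1 + α) * (1 - α) = - (2 * (d : K) - 1) := by
    linear_combination -hα
  have hp : (1 + α) ≠ 0 := by
    intro h
    rw [h, zero_mul] at hpm
    exact hne (neg_eq_zero.1 hpm.symm)
  have hm : (1 - α) ≠ 0 := by
    intro h
    rw [h, mul_zero] at hpm
    exact hne (neg_eq_zero.1 hpm.symm)
  have hyK : (y : K) ^ 2 = 2 * d * (z : K) ^ 2 + c := by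
    have := congrArg (fun n : ℕ => (n : K)) hy
    simpa using this
  have hprod : ((z : K) / ((y : K) + (z : K)) - 1 / (1 + α)) *
      ((z : K) / ((y : K) + (z : K)) - 1 / (1 - α)) * (((y : K) + (z : K)) ^ 2 *
        (2 * (d : K) - 1)) = - (c : K) := by
    have e1 : (z : K) / ((y : K) + (z : K)) - 1 / (1 + α) =
        (z * α - y) / (((y : K) + (z : K)) * (1 + α)) := by
      field_simp
      ring
    have e2 : (z : K) / ((y : K) + (z : K)) - 1 / (1 - α) =
        (- (z * α) - y) / (((y : K) + (z : K)) * (1 - α)) := by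
      field_simp
      ring
    rw [e1, e2, div_mul_div_comm]
    have e3 : ((y : K) + (z : K)) * (1 + α) * (((y : K) + (z : K)) * (1 - α)) =
        - (((y : K) + (z : K)) ^ 2 * (2 * (d : K) - 1)) := by
      rw [← neg_eq_iff_eq_neg]
      linear_combination (-((y : K) + (z : K)) ^ 2) * hpm
    rw [e3, div_neg, neg_mul, div_mul_cancel₀ _ (mul_ne_zero (pow_ne_zero 2 hs) hne)]
    linear_combination (z : K) ^ 2 * hα - hyK
  have hcomm : v (2 * (d : K) - 1) = 2 * d - 1 := by
    rw [← hcast, arch_nat hv, Nat.cast_sub (by omega)]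
    push_cast
    ring
  set U := v ((z : K) / ((y : K) + (z : K)) - 1 / (1 + α)) with hU
  set V := v ((z : K) / ((y : K) + (z : K)) - 1 / (1 - α)) with hV
  have hU0 : 0 ≤ U := v.nonneg _
  have hV0 : 0 ≤ V := v.nonneg _
  have hUV : U * V * (((y : ℝ) + z) ^ 2 * (2 * d - 1)) = c := by
    have h3 := congrArg v hprod
    rwa [map_mul, map_mul, map_mul, map_pow, hvs, hcomm, v.map_neg, arch_nat hv] at h3
  -- the targets are far from each other
  have hvα : 1 ≤ v α := by
    have h3 := congrArg v hα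
    rw [map_pow, map_mul, arch_nat hv d] at h3
    have h4 : v (2 : K) = 2 := by
      have := arch_nat hv 2
      simpa using this
    rw [h4] at h3
    by_contra hcon
    push Not at hcon
    have h5 : v α ^ 2 < 1 := by
      have := v.nonneg α
      nlinarith
    linarith
  have hsum : 2 ≤ (U + V) * (2 * d - 1) := by
    have h3 : ((z : K) / ((y : K) + (z : K)) - 1 / (1 - α)) -
        ((z : K) / ((y : K) + (z : K)) - 1 / (1 + α)) = (2 * α) / (2 * (d : K) - 1) := by
      have e1 : ((z : K) / ((y : K) + (z : K)) - 1 / (1 - α)) -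
        ((z : K) / ((y : K) + (z : K)) - 1 / (1 + α)) = (- 2 * α) / ((1 + α) * (1 - α)) := by
        field_simp
        ring
      rw [e1, hpm, div_neg, neg_mul, neg_div, neg_neg]
    have h4 := v.sub_le_add ((z : K) / ((y : K) + (z : K)) - 1 / (1 - α))
      ((z : K) / ((y : K) + (z : K)) - 1 / (1 + α))
    rw [h3, map_div₀, map_mul, hcomm] at h4
    have h5 : v (2 : K) = 2 := by
      have := arch_nat hv 2
      simpa using this
    rw [h5, div_le_iff₀ (by linarith)] at h4
    have h6 : V + U = U + V := add_comm _ _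
    rw [← hU, ← hV, h6] at h4
    linarith
  rcases le_or_gt 0 w with hw | hw
  · -- w * max ≤ U * V
    have h3 : w * (U + V) ≤ 2 * (U * V) := by
      have h4 := mul_le_mul_of_nonneg_right h1 hV0
      have h5 := mul_le_mul_of_nonneg_left h2 hU0
      have h6 : w * (U + V) = w * V + U * w := by ring
      rw [h6]
      linarith
    have h4 : w * 2 ≤ 2 * (U * V) * (2 * d - 1) := by
      calc w * 2 ≤ w * ((U + V) * (2 * d - 1)) := mul_le_mul_of_nonneg_left hsum hw
        _ = w * (U + V) * (2 * d - 1) := by ring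
        _ ≤ 2 * (U * V) * (2 * d - 1) := mul_le_mul_of_nonneg_right h3 (by linarith)
    have h5 : w * ((y : ℝ) + z) ^ 2 ≤ (U * V) * (2 * d - 1) * ((y : ℝ) + z) ^ 2 :=
      mul_le_mul_of_nonneg_right (by linarith) (by positivity)
    calc w * ((y : ℝ) + z) ^ 2 ≤ (U * V) * (2 * d - 1) * ((y : ℝ) + z) ^ 2 := h5
      _ = U * V * (((y : ℝ) + z) ^ 2 * (2 * d - 1)) := by ring
      _ = c := hUV
  · have h3 : w * ((y : ℝ) + z) ^ 2 ≤ 0 := mul_nonpos_of_nonpos_of_nonneg hw.le (by positivity)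
    exact h3.trans (Nat.cast_nonneg _)

/-- the lower bound for the proximities -/
theorem low {P : Finset ℕ} {Sg : Finset (AbsoluteValue K ℝ)}
    (hS1 : ∀ v ∈ AdmissibleAbsValues.archAbsVal (K := K), v ∈ Sg)
    (hS2 : ∀ v ∈ AdmissibleAbsValues.nonarchAbsVal (K := K), ∀ p ∈ P, p.Prime →
      v (p : K) < 1 → v ∈ Sg)
    {y z c d m : ℕ} {α : K} (hα : α ^ 2 = 2 * (d : K)) (hd : 1 ≤ d)
    (hy : y ^ 2 = 2 * d * z ^ 2 + c) (hyz : Nat.Coprime y z) (hz : 1 ≤ z) (hc : 1 ≤ c)
    (hm : m ∣ z * y) (hmP : ∀ p, p.Prime → p ∣ m → p ∈ P) (f : AbsoluteValue K ℝ → K)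
    (hfn : ∀ v : AbsoluteValue K ℝ, (z : K) / ((y : K) + (z : K)) - f v ≠ 0)
    (hf0 : ∀ v : AbsoluteValue K ℝ, v ((z : K) / ((y : K) + (z : K)) - f v) ≤ v ((z : K) / ((y : K) + (z : K)) - 0))
    (hf1 : ∀ v : AbsoluteValue K ℝ, v ((z : K) / ((y : K) + (z : K)) - f v) ≤ v ((z : K) / ((y : K) + (z : K)) - 1))
    (hf2 : ∀ v : AbsoluteValue K ℝ, v ((z : K) / ((y : K) + (z : K)) - f v) ≤
      v ((z : K) / ((y : K) + (z : K)) - 1 / (1 + α)))
    (hf3 : ∀ v : AbsoluteValue K ℝ, v ((z : K) / ((y : K) + (z : K)) - f v) ≤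
      v ((z : K) / ((y : K) + (z : K)) - 1 / (1 - α))) :
    open Classical in
    totalWeight K * (2 * Real.log ((y : ℝ) + z) - Real.log c + Real.log m) ≤
      gs (fun v : AbsoluteValue K ℝ =>
        if v ∈ Sg then - Real.log (min 1 (v ((z : K) / ((y : K) + (z : K)) - f v))) else 0) := by
  classical
  have hs : ((y : K) + (z : K)) ≠ 0 := by
    have : ((y + z : ℕ) : K) ≠ 0 := Nat.cast_ne_zero.2 (by omega)
    rwa [Nat.cast_add] at this
  have hzR : (1 : ℝ) ≤ z := by exact_mod_cast hz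
  have hcR : (1 : ℝ) ≤ c := by exact_mod_cast hc
  have hyR : (0 : ℝ) ≤ y := Nat.cast_nonneg _
  have hy1 : y ≠ 0 := by
    rintro rfl
    have : 0 < 2 * d * z ^ 2 + c := by omega
    omega
  have hm0 : m ≠ 0 := by
    rintro rfl
    rw [zero_dvd_iff] at hm
    exact (mul_ne_zero (by omega) hy1) hm
  have hmK : (m : K) ≠ 0 := Nat.cast_ne_zero.2 hm0
  have hg : gs (fun v : AbsoluteValue K ℝ => ar K (2 * Real.log ((y : ℝ) + z) - Real.log c +
      Real.log m) v - Real.log (v (m : K))) =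
      totalWeight K * (2 * Real.log ((y : ℝ) + z) - Real.log c + Real.log m) := by
    rw [gs_sub (FS_ar _) (FS_log_abv hmK), gs_ar, gs_log_abv hmK, sub_zero]
  rw [← hg]
  refine gs_le (FS_sub (FS_ar _) (FS_log_abv hmK)) (R_FS_ind Sg _) fun v hv => ?_
  have hw0 : 0 < v ((z : K) / ((y : K) + (z : K)) - f v) := v.pos (hfn v)
  rcases hv with hv | hv
  · rw [ar_arch hv, arch_nat hv m, if_pos (hS1 v hv)]
    have h1 := arch_close hv hα hd hy hz _ (hf2 v) (hf3 v)
    have h2 : Real.log (v ((z : K) / ((y : K) + (z : K)) - f v)) + 2 * Real.log ((y : ℝ) + z) ≤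
        Real.log c := by
      have h3 := Real.log_le_log (mul_pos hw0 (by positivity)) h1
      rwa [Real.log_mul hw0.ne' (by positivity), Real.log_pow, Nat.cast_ofNat] at h3
    have h3 : Real.log (min 1 (v ((z : K) / ((y : K) + (z : K)) - f v))) ≤
        Real.log (v ((z : K) / ((y : K) + (z : K)) - f v)) :=
      Real.log_le_log (lt_min one_pos hw0) (min_le_right _ _)
    linarith
  · rw [ar_nonarch hv, zero_sub]
    rcases eq_or_ne (v (m : K)) 1 with h1 | h1
    · rw [h1, Real.log_one, neg_zero]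
      split_ifs
      · exact R_neg_log_nonneg (v.nonneg _)
      · exact le_rfl
    · have hlt : v (m : K) < 1 := lt_of_le_of_ne (nonarch_nat hv m) h1
      have hex : ∃ p, p.Prime ∧ p ∣ m ∧ v (p : K) < 1 := by
        by_contra hcon
        push Not at hcon
        refine h1 (unit_of_primes m hm0 fun p hp hpm => ?_)
        exact le_antisymm (nonarch_nat hv p) (hcon p hp hpm)
      obtain ⟨p, hp, hpm, hpv⟩ := hex
      rw [if_pos (hS2 v hv p (hmP p hp hpm) hp hpv)]
      obtain ⟨q, hq⟩ := hm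
      have hzy : v (z : K) * v (y : K) ≤ v (m : K) := by
        rw [← map_mul, ← Nat.cast_mul, hq, Nat.cast_mul, map_mul]
        exact mul_le_of_le_one_right (v.nonneg _) (nonarch_nat hv q)
      have key : v ((z : K) / ((y : K) + (z : K)) - f v) ≤ v (m : K) := by
        rcases nonarch_coprime hv hyz with h2 | h2
        · rcases eq_or_ne (v (z : K)) 1 with h3 | h3
          · rw [h2, h3, one_mul] at hzy
            exact absurd hzy (not_le.2 hlt)
          · have h4 : v (z : K) < 1 := lt_of_le_of_ne (nonarch_nat hv z) h3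
            have h5 := nonarch_add_unit hv h4 h2
            have h6 := hf0 v
            rw [sub_zero, map_div₀, h5, div_one] at h6
            rw [h2, mul_one] at hzy
            exact h6.trans hzy
        · rcases eq_or_ne (v (y : K)) 1 with h3 | h3
          · rw [h2, h3, one_mul] at hzy
            exact absurd hzy (not_le.2 hlt)
          · have h4 : v (y : K) < 1 := lt_of_le_of_ne (nonarch_nat hv y) h3
            have h5 := nonarch_add_unit hv h4 h2
            have h6 := hf1 v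
            have h7 : (z : K) / ((y : K) + (z : K)) - 1 = - ((y : K) / ((z : K) + (y : K))) := by
              have h8 : ((z : K) + (y : K)) ≠ 0 := by
                rwa [add_comm]
              field_simp
              ring
            rw [h7, v.map_neg, map_div₀, h5, div_one] at h6
            rw [h2, one_mul] at hzy
            exact h6.trans hzy
      have h3 : Real.log (min 1 (v ((z : K) / ((y : K) + (z : K)) - f v))) ≤
          Real.log (v (m : K)) :=
        Real.log_le_log (lt_min one_pos hw0) ((min_le_right _ _).trans key)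
      linarith

/-- `z / (y + z)` is different from all targets -/
theorem t_ne {y z c d : ℕ} {α : K} (hα : α ^ 2 = 2 * (d : K))
    (hy : y ^ 2 = 2 * d * z ^ 2 + c) (hz : 1 ≤ z) (hc : 1 ≤ c) :
    (z : K) / ((y : K) + (z : K)) - 0 ≠ 0 ∧ (z : K) / ((y : K) + (z : K)) - 1 ≠ 0 ∧
      (z : K) / ((y : K) + (z : K)) - 1 / (1 + α) ≠ 0 ∧
      (z : K) / ((y : K) + (z : K)) - 1 / (1 - α) ≠ 0 := by
  have hs : ((y : K) + (z : K)) ≠ 0 := by
    have : ((y + z : ℕ) : K) ≠ 0 := Nat.cast_ne_zero.2 (by omega)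
    rwa [Nat.cast_add] at this
  have hzK : (z : K) ≠ 0 := Nat.cast_ne_zero.2 (by omega)
  have hy1 : y ≠ 0 := by
    rintro rfl
    have : 0 < 2 * d * z ^ 2 + c := by omega
    omega
  have hyK0 : (y : K) ≠ 0 := Nat.cast_ne_zero.2 hy1
  have hcK : (c : K) ≠ 0 := Nat.cast_ne_zero.2 (by omega)
  have hyK : (y : K) ^ 2 = 2 * d * (z : K) ^ 2 + c := by
    have := congrArg (fun n : ℕ => (n : K)) hy
    simpa using this
  have key : ∀ β : K, β ^ 2 = 2 * (d : K) → (z : K) / ((y : K) + (z : K)) - 1 / (1 + β) ≠ 0 := by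
    intro β hβ h0
    rcases eq_or_ne (1 + β) 0 with h1 | h1
    · rw [h1, div_zero, sub_zero] at h0
      exact (div_ne_zero hzK hs) h0
    · rw [sub_eq_zero, div_eq_div_iff hs h1] at h0
      have h2 : (z : K) * β = y := by linear_combination h0
      apply hcK
      have h3 : (y : K) ^ 2 = z ^ 2 * β ^ 2 := by
        rw [← h2]
        ring
      rw [h3, hβ] at hyK
      linear_combination -hyK
  refine ⟨?_, ?_, key α hα, ?_⟩
  · rw [sub_zero]
    exact div_ne_zero hzK hs
  · have h7 : (z : K) / ((y : K) + (z : K)) - 1 = - ((y : K) / ((y : K) + (z : K))) := by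
      field_simp
      ring
    rw [h7]
    exact neg_ne_zero.2 (div_ne_zero hyK0 hs)
  · have := key (-α) (by rw [neg_sq, hα])
    rwa [← sub_eq_add_neg] at this

omit [NumberField K] in
/-- the best target at every place -/
theorem exists_target (t α : K) : ∃ f : AbsoluteValue K ℝ → K, ∀ v : AbsoluteValue K ℝ,
    (f v = 0 ∨ f v = 1 ∨ f v = 1 / (1 + α) ∨ f v = 1 / (1 - α)) ∧
      v (t - f v) ≤ v (t - 0) ∧ v (t - f v) ≤ v (t - 1) ∧
      v (t - f v) ≤ v (t - 1 / (1 + α)) ∧ v (t - f v) ≤ v (t - 1 / (1 - α)) := by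
  classical
  have h : ∀ v : AbsoluteValue K ℝ, ∃ τ : K,
      (τ = 0 ∨ τ = 1 ∨ τ = 1 / (1 + α) ∨ τ = 1 / (1 - α)) ∧
      v (t - τ) ≤ v (t - 0) ∧ v (t - τ) ≤ v (t - 1) ∧
      v (t - τ) ≤ v (t - 1 / (1 + α)) ∧ v (t - τ) ≤ v (t - 1 / (1 - α)) := by
    intro v
    obtain ⟨τ, h1, h2⟩ := Finset.exists_min_image ({0, 1, 1 / (1 + α), 1 / (1 - α)} : Finset K)
      (fun τ => v (t - τ)) ⟨0, by simp⟩
    refine ⟨τ, by simpa using h1, h2 _ (by simp), h2 _ (by simp), h2 _ (by simp), h2 _ (by simp)⟩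
  choose f hf using h
  exact ⟨f, hf⟩

end Pool.Agent.Lib.MP_776dcc_nt
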