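import Pool.Agent.Lib.MP_17a322_nt.VP.R6

/-!
MP_776dcc_nt, part Loc: the places of a number field and the approximation `z / (y + z)`.
-/

set_option autoImplicit false

namespace Pool.Agent.Lib.MP_776dcc_nt

open Height Filter Topology
open Pool.Agent.Lib.MP_17a322_nt.VJ
open Pool.Agent.Lib.MP_17a322_nt.VN
open Pool.Agent.Lib.MP_17a322_nt.VP

variable {K : Type} [Field K] [NumberField K]

theorem arch_nat {v : AbsoluteValue K ℝ} (hv : v ∈ AdmissibleAbsValues.archAbsVal (K := K))
    (n : ℕ) : v (n : K) = n := by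
  have h1 : NumberField.IsInfinitePlace v := NumberField.mem_multisetInfinitePlace.1 hv
  exact NumberField.InfinitePlace.map_natCast ⟨v, h1⟩ n

theorem nonarch_isNA {v : AbsoluteValue K ℝ}
    (hv : v ∈ AdmissibleAbsValues.nonarchAbsVal (K := K)) : IsNonarchimedean v :=
  AdmissibleAbsValues.isNonarchimedean v hv

theorem nonarch_nat {v : AbsoluteValue K ℝ}
    (hv : v ∈ AdmissibleAbsValues.nonarchAbsVal (K := K)) (n : ℕ) : v (n : K) ≤ 1 := by
  have h := IsNonarchimedean.apply_intCast_le_one (nonarch_isNA hv) (n := (n : ℤ))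
  rwa [Int.cast_natCast] at h

theorem nonarch_int {v : AbsoluteValue K ℝ}
    (hv : v ∈ AdmissibleAbsValues.nonarchAbsVal (K := K)) (n : ℤ) : v (n : K) ≤ 1 :=
  IsNonarchimedean.apply_intCast_le_one (nonarch_isNA hv) (n := n)

/-- coprime numbers cannot both be small at a nonarchimedean place -/
theorem nonarch_coprime {v : AbsoluteValue K ℝ}
    (hv : v ∈ AdmissibleAbsValues.nonarchAbsVal (K := K)) {a b : ℕ} (h : Nat.Coprime a b) :
    v (a : K) = 1 ∨ v (b : K) = 1 := by
  by_contra hcon
  rw [not_or] at hcon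
  have h1 : v (a : K) < 1 := lt_of_le_of_ne (nonarch_nat hv a) hcon.1
  have h2 : v (b : K) < 1 := lt_of_le_of_ne (nonarch_nat hv b) hcon.2
  have h3 := Nat.gcd_eq_gcd_ab a b
  rw [h] at h3
  have h4 : (1 : K) = (a : K) * ((a.gcdA b : ℤ) : K) + (b : K) * ((a.gcdB b : ℤ) : K) := by
    have h5 := congrArg (fun n : ℤ => (n : K)) h3
    simpa using h5
  have h5 : v (1 : K) < 1 := by
    rw [h4]
    refine lt_of_le_of_lt (nonarch_isNA hv _ _) (max_lt ?_ ?_)
    · rw [map_mul]
      exact lt_of_le_of_lt (mul_le_of_le_one_right (v.nonneg _) (nonarch_int hv _)) h1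
    · rw [map_mul]
      exact lt_of_le_of_lt (mul_le_of_le_one_right (v.nonneg _) (nonarch_int hv _)) h2
  rw [map_one] at h5
  exact lt_irrefl _ h5

theorem nonarch_add_unit {v : AbsoluteValue K ℝ}
    (hv : v ∈ AdmissibleAbsValues.nonarchAbsVal (K := K)) {a b : ℕ} (h1 : v (a : K) < 1)
    (h2 : v (b : K) = 1) : v ((b : K) + (a : K)) = 1 := by
  apply le_antisymm
  · have h := nonarch_nat hv (b + a)
    rwa [Nat.cast_add] at h
  · by_contra hcon
    push Not at hcon
    have h3 : (b : K) = ((b : K) + (a : K)) + (-(a : K)) := by ring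
    have h4 := nonarch_isNA hv ((b : K) + (a : K)) (-(a : K))
    rw [← h3, v.map_neg, h2] at h4
    exact absurd h4 (not_le.2 (max_lt hcon h1))

theorem archSum_const (c : ℝ) :
    (AdmissibleAbsValues.archAbsVal.map (fun _ : AbsoluteValue K ℝ => c)).sum =
      totalWeight K * c := by
  rw [Multiset.map_const', Multiset.sum_replicate, nsmul_eq_mul]
  rfl

open Classical in
/-- the function with the value `a` at the archimedean and `0` at the other places -/
noncomputable def ar (K : Type) [Field K] [NumberField K] (a : ℝ) (v : AbsoluteValue K ℝ) : ℝ :=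
  if v ∈ AdmissibleAbsValues.archAbsVal (K := K) then a else 0

theorem not_arch_of_nonarch {v : AbsoluteValue K ℝ}
    (hv : v ∈ AdmissibleAbsValues.nonarchAbsVal (K := K)) :
    v ∉ AdmissibleAbsValues.archAbsVal (K := K) := by
  intro h
  have h1 := arch_nat h 2
  have h2 := nonarch_nat hv 2
  rw [h1] at h2
  norm_num at h2

theorem ar_nonarch {v : AbsoluteValue K ℝ}
    (hv : v ∈ AdmissibleAbsValues.nonarchAbsVal (K := K)) (a : ℝ) : ar K a v = 0 := by
  unfold ar
  rw [if_neg (not_arch_of_nonarch hv)]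

theorem ar_arch {v : AbsoluteValue K ℝ}
    (hv : v ∈ AdmissibleAbsValues.archAbsVal (K := K)) (a : ℝ) : ar K a v = a := by
  unfold ar
  rw [if_pos hv]

theorem FS_ar (a : ℝ) : FS (ar K a) := by
  have h0 : {v : AdmissibleAbsValues.nonarchAbsVal (K := K) | ar K a v.val ≠ 0} = ∅ := by
    ext v
    simp [ar_nonarch v.2]
  unfold FS
  rw [h0]
  exact Set.finite_empty

theorem gs_ar (a : ℝ) : gs (ar K a) = totalWeight K * a := by
  unfold gs
  have h1 : (∑ᶠ v : AdmissibleAbsValues.nonarchAbsVal (K := K), ar K a v.val) = 0 := by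
    rw [finsum_congr fun v => ar_nonarch v.2 a, finsum_zero]
  rw [h1, add_zero, ← archSum_const]
  congr 1
  exact Multiset.map_congr rfl fun v hv => ar_arch hv a

/-- the height of `z / (y + z)` -/
theorem height_t {y z : ℕ} (hyz : Nat.Coprime y z) (hz : 1 ≤ z) :
    logHeight₁ ((z : K) / ((y : K) + (z : K))) = totalWeight K * Real.log ((y : ℝ) + z) := by
  have hs : ((y : K) + (z : K)) ≠ 0 := by
    have : ((y + z : ℕ) : K) ≠ 0 := Nat.cast_ne_zero.2 (by omega)
    rwa [Nat.cast_add] at this
  have hz0 : (z : K) ≠ 0 := Nat.cast_ne_zero.2 (by omega)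
  have hzR : (1 : ℝ) ≤ z := by exact_mod_cast hz
  have hyR : (0 : ℝ) ≤ y := Nat.cast_nonneg _
  have key : ∀ v : AbsoluteValue K ℝ, Pl v →
      Real.log (max 1 (v ((z : K) / ((y : K) + (z : K))))) =
        ar K (Real.log ((y : ℝ) + z)) v - Real.log (v ((y : K) + (z : K))) := by
    intro v hv
    rcases hv with hv | hv
    · rw [ar_arch hv, map_div₀]
      have h1 : v ((y : K) + (z : K)) = (y : ℝ) + z := by
        have := arch_nat hv (y + z)
        rwa [Nat.cast_add, Nat.cast_add] at this
      rw [h1, arch_nat hv z, sub_self, max_eq_left, Real.log_one]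
      rw [div_le_one (by linarith)]
      linarith
    · rw [ar_nonarch hv, zero_sub, map_div₀]
      have hvs : 0 < v ((y : K) + (z : K)) := v.pos hs
      have h1 : max 1 (v (z : K) / v ((y : K) + (z : K))) =
          max (v ((y : K) + (z : K))) (v (z : K)) / v ((y : K) + (z : K)) := by
        rw [← max_div_div_right hvs.le, div_self hvs.ne']
      have h2 : max (v ((y : K) + (z : K))) (v (z : K)) = 1 := by
        have h3 : Nat.Coprime (y + z) z := by simpa using hyz
        have h4 := nonarch_coprime hv h3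
        have h5 := nonarch_nat hv (y + z)
        have h6 := nonarch_nat hv z
        rw [Nat.cast_add] at h4 h5
        apply le_antisymm (max_le h5 h6)
        rcases h4 with h4 | h4
        · exact h4.ge.trans (le_max_left _ _)
        · exact h4.ge.trans (le_max_right _ _)
      rw [h1, h2, one_div, Real.log_inv]
  rw [← gs_log_max]
  have h1 : gs (fun v : AbsoluteValue K ℝ =>
      Real.log (max 1 (v ((z : K) / ((y : K) + (z : K)))))) =
      gs (fun v : AbsoluteValue K ℝ =>
        ar K (Real.log ((y : ℝ) + z)) v - Real.log (v ((y : K) + (z : K)))) := by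
    apply le_antisymm
    · exact gs_le (FS_log_max _) (FS_sub (FS_ar _) (FS_log_abv hs)) fun v hv => (key v hv).le
    · exact gs_le (FS_sub (FS_ar _) (FS_log_abv hs)) (FS_log_max _) fun v hv => (key v hv).ge
  rw [h1, gs_sub (FS_ar _) (FS_log_abv hs), gs_ar, gs_log_abv hs, sub_zero]

end Pool.Agent.Lib.MP_776dcc_nt
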