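import Pool.Agent.Lib.MP_776dcc_nt.Ineq
import Pool.Agent.Lib.MP_776dcc_nt.Elem

/-!
MP_776dcc_nt, part SPart: only finitely many integral points on all curves `C_k` together have a large
part composed of primes of a finite set.
-/

set_option autoImplicit false

namespace Pool.Agent.Lib.MP_776dcc_nt

open Height Filter Topology
open Pool.Agent.Lib.MP_17a322_nt.VJ
open Pool.Agent.Lib.MP_17a322_nt.VN
open Pool.Agent.Lib.MP_17a322_nt.VP

/-- the triples `(k, x, y)` of Theorem A with the auxiliary numbers `d`, `s`, `μ` -/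
def Big (P : Finset ℕ) (D : ℕ) (ε : ℝ) (k x y : ℕ) : Prop :=
  3 ≤ k ∧ 2 ≤ x ∧ y ^ 2 + 4 * k * x = 8 * x ^ k + 4 * k * x ^ 2 + 1 ∧
    (∃ d s, d ≤ D ∧ x ^ k = d * s ^ 2) ∧
    ∃ μ, μ ∣ x ^ k * y ^ 2 ∧ (∀ p, p.Prime → p ∣ μ → p ∈ P) ∧ (x : ℝ) ^ (4 + ε * k) ≤ μ

/-- the height parameter tends to infinity along a sequence of distinct solutions -/
theorem tendsto_H (T : ℕ → ℕ × ℕ × ℕ) (hT : Function.Injective T)
    (h : ∀ i, 3 ≤ (T i).1 ∧ 2 ≤ (T i).2.1 ∧
      (T i).2.2 ^ 2 + 4 * (T i).1 * (T i).2.1 = 8 * (T i).2.1 ^ (T i).1 +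
        4 * (T i).1 * (T i).2.1 ^ 2 + 1) :
    Tendsto (fun i => ((T i).1 : ℝ) * Real.log (T i).2.1) (hyperfilter ℕ : Filter ℕ) atTop := by
  refine tendsto_atTop.2 fun B => ?_
  refine hyperfilter_le_cofinite ?_
  rw [mem_cofinite]
  -- the bad set is finite
  obtain ⟨N, hN⟩ : ∃ N : ℕ, Real.exp B ≤ N ∧ B ≤ N := by
    obtain ⟨n1, h1⟩ := exists_nat_ge (Real.exp B)
    obtain ⟨n2, h2⟩ := exists_nat_ge B
    refine ⟨n1 + n2, ?_, ?_⟩
    · push_cast
      have : (0 : ℝ) ≤ n2 := Nat.cast_nonneg _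
      linarith
    · push_cast
      have : (0 : ℝ) ≤ n1 := Nat.cast_nonneg _
      linarith
  set M := 8 * N ^ (2 * N + 1) + 4 * (2 * N + 1) * N ^ 2 + 1 with hM
  refine Set.Finite.subset (Set.Finite.preimage hT.injOn
    (((Set.finite_Iio (2 * N + 1)).prod ((Set.finite_Iio (N + 1)).prod
      (Set.finite_Iio (M + 1))) : Set.Finite
        (Set.Iio (2 * N + 1) ×ˢ (Set.Iio (N + 1) ×ˢ Set.Iio (M + 1)))))) ?_
  intro i hi
  rw [Set.mem_compl_iff, Set.mem_ofPred_eq, not_le] at hi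
  obtain ⟨h1, h2, h3⟩ := h i
  have hx1 : (2 : ℝ) ≤ (T i).2.1 := by exact_mod_cast h2
  have hk1 : (3 : ℝ) ≤ (T i).1 := by exact_mod_cast h1
  have hlog : 1 / 2 < Real.log (T i).2.1 := by
    have h4 : Real.log 2 ≤ Real.log (T i).2.1 := Real.log_le_log (by norm_num) hx1
    have h5 := Real.log_two_gt_d9
    linarith
  have hkb : (T i).1 < 2 * N + 1 := by
    have h4 : ((T i).1 : ℝ) * (1 / 2) < B := by
      refine lt_of_le_of_lt ?_ hi
      exact mul_le_mul_of_nonneg_left hlog.le (by linarith)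
    have h5 : ((T i).1 : ℝ) < 2 * N + 1 := by linarith [hN.2]
    exact_mod_cast h5
  have hxb : (T i).2.1 < N + 1 := by
    have h4 : Real.log (T i).2.1 < B := by
      refine lt_of_le_of_lt ?_ hi
      have h5 : 0 ≤ Real.log (T i).2.1 := by linarith
      nlinarith
    have h5 : ((T i).2.1 : ℝ) < Real.exp B := (Real.log_lt_iff_lt_exp (by linarith)).1 h4
    have h6 : ((T i).2.1 : ℝ) < N + 1 := by linarith [hN.1]
    exact_mod_cast h6
  have hyb : (T i).2.2 < M + 1 := by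
    have hN1 : 1 ≤ N := by omega
    have h4 : (T i).2.1 ^ (T i).1 ≤ N ^ (2 * N + 1) :=
      (Nat.pow_le_pow_left (by omega) _).trans (Nat.pow_le_pow_right hN1 (by omega))
    have h5 : 4 * (T i).1 * (T i).2.1 ^ 2 ≤ 4 * (2 * N + 1) * N ^ 2 :=
      Nat.mul_le_mul (Nat.mul_le_mul_left _ (by omega)) (Nat.pow_le_pow_left (by omega) _)
    have h6 : (T i).2.2 ≤ (T i).2.2 ^ 2 := by
      rw [pow_two]
      exact Nat.le_mul_self _
    have h7 : (T i).2.2 ^ 2 ≤ M := by
      have h8 : 0 ≤ 4 * (T i).1 * (T i).2.1 := Nat.zero_le _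
      rw [hM]
      linarith
    omega
  exact ⟨hkb, hxb, hyb⟩

theorem log_small (A δ : ℝ) (hδ : 0 < δ) :
    ∀ᶠ h : ℝ in atTop, A + 2 * Real.log (8 * h) < δ * h := by
  have h1 := Real.isLittleO_log_id_atTop.bound (c := δ / 8) (by positivity)
  filter_upwards [h1, eventually_gt_atTop 0,
    eventually_gt_atTop ((|A| + 2 * Real.log 8) / (δ / 2))] with h h2 h3 h4
  rw [id, Real.norm_eq_abs, Real.norm_eq_abs, abs_of_pos h3] at h2
  rw [div_lt_iff₀ (by positivity)] at h4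
  rw [Real.log_mul (by norm_num) h3.ne']
  have h5 := le_abs_self (Real.log h)
  have h6 := le_abs_self A
  nlinarith

/-- the final comparison of the sizes -/
theorem final_cmp {D k x m μ : ℕ} {ε W H : ℝ} (hW : 1 ≤ W) (hk : 3 ≤ k)
    (hx : 2 ≤ x) (hH : H = k * Real.log x) (hμ3 : (x : ℝ) ^ (4 + ε * k) ≤ μ)
    (hμm : μ ≤ D * m ^ 2)
    (hR : W * (Real.log m - Real.log ((4 * k * (x * (x - 1)) + 1 : ℕ) : ℝ)) ≤ ε * W / 4 * H)
    (hL : Real.log D + 2 * Real.log (8 * H) < ε / 2 * H) : False := by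
  have hxR : (2 : ℝ) ≤ x := by exact_mod_cast hx
  have hkR : (3 : ℝ) ≤ k := by exact_mod_cast hk
  have hlogx : 1 / 2 < Real.log x := by
    have h4 : Real.log 2 ≤ Real.log x := Real.log_le_log (by norm_num) hxR
    have h5 := Real.log_two_gt_d9
    linarith
  have hμ0 : (0 : ℝ) < μ := lt_of_lt_of_le (Real.rpow_pos_of_pos (by linarith) _) hμ3
  have hμ1 : 0 < μ := by exact_mod_cast hμ0
  have hm0 : m ≠ 0 := by
    rintro rfl
    simp at hμm
    omega
  have hD0 : D ≠ 0 := by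
    rintro rfl
    simp at hμm
    omega
  have hmR : (0 : ℝ) < m := by exact_mod_cast Nat.pos_of_ne_zero hm0
  have hDR : (0 : ℝ) < D := by exact_mod_cast Nat.pos_of_ne_zero hD0
  have h1 : (4 + ε * k) * Real.log x ≤ Real.log D + 2 * Real.log m := by
    have h2 : (μ : ℝ) ≤ D * (m : ℝ) ^ 2 := by exact_mod_cast hμm
    have h3 := Real.log_le_log (Real.rpow_pos_of_pos (by linarith) _) (hμ3.trans h2)
    rwa [Real.log_rpow (by linarith), Real.log_mul hDR.ne' (by positivity), Real.log_pow,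
      Nat.cast_ofNat] at h3
  have h2 : Real.log ((4 * k * (x * (x - 1)) + 1 : ℕ) : ℝ) ≤ Real.log (4 * k) + 2 * Real.log x := by
    have h3 : 4 * k * (x * (x - 1)) + 1 ≤ 4 * k * x ^ 2 := by
      obtain ⟨u, rfl⟩ : ∃ u, x = u + 1 := ⟨x - 1, by omega⟩
      rw [Nat.add_sub_cancel]
      nlinarith
    have h4 : ((4 * k * (x * (x - 1)) + 1 : ℕ) : ℝ) ≤ 4 * k * (x : ℝ) ^ 2 := by
      exact_mod_cast h3
    have h5 : (0 : ℝ) < ((4 * k * (x * (x - 1)) + 1 : ℕ) : ℝ) := by positivity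
    have h6 := Real.log_le_log h5 h4
    rwa [Real.log_mul (by positivity) (by positivity), Real.log_pow, Nat.cast_ofNat] at h6
  have h3 : Real.log m - Real.log ((4 * k * (x * (x - 1)) + 1 : ℕ) : ℝ) ≤ ε / 4 * H := by
    have h4 : W * (Real.log m - Real.log ((4 * k * (x * (x - 1)) + 1 : ℕ) : ℝ)) ≤
        W * (ε / 4 * H) := by
      calc _ ≤ ε * W / 4 * H := hR
        _ = W * (ε / 4 * H) := by ring
    exact le_of_mul_le_mul_left h4 (by linarith)
  have h4 : Real.log (4 * k) ≤ Real.log (8 * H) := by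
    refine Real.log_le_log (by positivity) ?_
    rw [hH]
    nlinarith
  have h5 : (4 + ε * k) * Real.log x = 4 * Real.log x + ε * H := by
    rw [hH]
    ring
  linarith

/-- Theorem A -/
theorem spart_finite (P : Finset ℕ) (D : ℕ) (ε : ℝ) (hε : 0 < ε) :
    {t : ℕ × ℕ × ℕ | Big P D ε t.1 t.2.1 t.2.2}.Finite := by
  classical
  by_contra hinf
  obtain ⟨K, _, _, α, hα⟩ := exists_field D
  obtain ⟨Sg, hS0, hS1, hS2⟩ := exists_Sg K P
  let e := Set.Infinite.natEmbedding _ hinf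
  obtain ⟨T, hTe⟩ : ∃ T : ℕ → ℕ × ℕ × ℕ, ∀ i, T i = (e i).1 := ⟨fun i => (e i).1, fun _ => rfl⟩
  have hTinj : Function.Injective T := fun i j h => e.injective (Subtype.ext (by
    rw [← hTe, ← hTe, h]))
  have hT : ∀ i, Big P D ε (T i).1 (T i).2.1 (T i).2.2 := fun i => by
    rw [hTe]
    exact (e i).2
  unfold Big at hT
  choose hk hx heq hds hμ using hT
  choose d s hd hs using hds
  choose μ hμ1 hμ2 hμ3 using hμ
  have hdat := fun i => sol_data (hk i) (hx i) (heq i) (hs i)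
  have hy0 : ∀ i, (T i).2.2 ≠ 0 := by
    intro i h0
    have h1 := sol_y_lower (hx i) (heq i)
    rw [h0] at h1
    have h2 : 0 < (T i).2.1 ^ (T i).1 := by
      have := hx i
      positivity
    omega
  -- the `P`-part
  have hm : ∀ i, ∃ m, m ∣ 2 * s i * (T i).2.2 ∧ (∀ p, p.Prime → p ∣ m → p ∈ P) ∧
      μ i ≤ D * m ^ 2 := by
    intro i
    obtain ⟨m, n', h1, h2, h3⟩ := exists_part P (s i * (T i).2.2)
      (mul_ne_zero (by have := (hdat i).2.1; omega) (hy0 i))
    refine ⟨m, ?_, h2, ?_⟩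
    · rw [mul_assoc, h1]
      exact Dvd.dvd.mul_left (Dvd.intro _ rfl) 2
    · have h4 : μ i ∣ d i * (m * n') ^ 2 := by
        rw [← h1]
        have h5 := hμ1 i
        rw [hs i] at h5
        have h6 : d i * s i ^ 2 * (T i).2.2 ^ 2 = d i * (s i * (T i).2.2) ^ 2 := by ring
        rwa [h6] at h5
      have h5 := part_dvd (hμ2 i) h3 h4
      have hm0 : m ≠ 0 := by
        rintro rfl
        rw [zero_mul] at h1
        exact (mul_ne_zero (by have := (hdat i).2.1; omega) (hy0 i)) h1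
      have h6 : 0 < d i * m ^ 2 := by
        have := (hdat i).1
        positivity
      exact (Nat.le_of_dvd h6 h5).trans (Nat.mul_le_mul_right _ (hd i))
  choose m hm1 hm2 hm3 using hm
  obtain ⟨H, hHd⟩ : ∃ H : ℕ → ℝ, ∀ i, H i = ((T i).1 : ℝ) * Real.log (T i).2.1 :=
    ⟨fun i => ((T i).1 : ℝ) * Real.log (T i).2.1, fun _ => rfl⟩
  have hH : Tendsto H (hyperfilter ℕ : Filter ℕ) atTop := by
    have h1 := tendsto_H T hTinj fun i => ⟨hk i, hx i, heq i⟩
    have h2 : H = fun i => ((T i).1 : ℝ) * Real.log (T i).2.1 := funext hHd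
    rwa [h2]
  have hxR : ∀ i, (2 : ℝ) ≤ (T i).2.1 := fun i => by exact_mod_cast hx i
  have hkR : ∀ i, (3 : ℝ) ≤ (T i).1 := fun i => by exact_mod_cast hk i
  have hH0 : ∀ i, 0 ≤ H i := fun i => by
    rw [hHd]
    exact mul_nonneg (by linarith [hkR i]) (Real.log_nonneg (by linarith [hxR i]))
  obtain ⟨W, hWd⟩ : ∃ W : ℝ, W = totalWeight K := ⟨_, rfl⟩
  have hW : 1 ≤ W := by
    rw [hWd]
    exact_mod_cast NumberField.totalWeight_pos (K := K)
  -- the approximations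
  obtain ⟨t, ht⟩ : ∃ t : ℕ → K, ∀ i, t i =
      ((2 * s i : ℕ) : K) / (((T i).2.2 : K) + ((2 * s i : ℕ) : K)) := ⟨_, fun _ => rfl⟩
  have hlogt : ∀ i, logHeight₁ (t i) = W * Real.log (((T i).2.2 : ℝ) + ((2 * s i : ℕ) : ℝ)) := by
    intro i
    rw [ht, hWd]
    exact height_t (hdat i).2.2.1 (by have := (hdat i).2.1; omega)
  have hlow : ∀ i, H i / 2 ≤ Real.log (((T i).2.2 : ℝ) + ((2 * s i : ℕ) : ℝ)) := by
    intro i
    have h1 := sol_y_lower (hx i) (heq i)
    have h2 : ((T i).2.1 : ℝ) ^ (T i).1 ≤ ((T i).2.2 : ℝ) ^ 2 := by exact_mod_cast h1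
    have h3 := Real.log_le_log (pow_pos (by linarith [hxR i]) _) h2
    rw [Real.log_pow, Real.log_pow, Nat.cast_ofNat, ← hHd] at h3
    have hyR : (0 : ℝ) < (T i).2.2 := by exact_mod_cast Nat.pos_of_ne_zero (hy0 i)
    have h4 : Real.log (T i).2.2 ≤ Real.log (((T i).2.2 : ℝ) + ((2 * s i : ℕ) : ℝ)) :=
      Real.log_le_log hyR (by
        have : (0 : ℝ) ≤ ((2 * s i : ℕ) : ℝ) := Nat.cast_nonneg _
        linarith)
    linarith
  have hupp : ∀ i, Real.log (((T i).2.2 : ℝ) + ((2 * s i : ℕ) : ℝ)) ≤ 2 * H i := by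
    intro i
    have h1 := sol_upper (hk i) (hx i) (heq i) (hs i)
    have h2 : (((T i).2.2 : ℝ) + ((2 * s i : ℕ) : ℝ)) ≤ ((T i).2.1 : ℝ) ^ (2 * (T i).1) := by
      exact_mod_cast h1
    have hyR : (0 : ℝ) < (T i).2.2 := by exact_mod_cast Nat.pos_of_ne_zero (hy0 i)
    have h3 := Real.log_le_log (by
      have : (0 : ℝ) ≤ ((2 * s i : ℕ) : ℝ) := Nat.cast_nonneg _
      linarith) h2
    have h4 : ((2 * (T i).1 : ℕ) : ℝ) * Real.log (T i).2.1 = 2 * H i := by
      rw [hHd]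
      push_cast
      ring
    rw [Real.log_pow, h4] at h3
    exact h3
  -- the targets
  choose f hf using fun i => exists_target (t i) (α (d i))
  have hfH : ∀ v ∈ Sg, oH H fun i => logHeight₁ (f i v) := by
    intro v hv
    set B : ℝ := logHeight₁ (0 : K) + logHeight₁ (1 : K) +
      ∑ j ∈ Finset.range (D + 1), (logHeight₁ (1 / (1 + α j)) + logHeight₁ (1 / (1 - α j)))
      with hB
    have h0 : 0 ≤ logHeight₁ (0 : K) := zero_le_logHeight₁ _
    have h1 : 0 ≤ logHeight₁ (1 : K) := zero_le_logHeight₁ _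
    have hj : ∀ j, 0 ≤ logHeight₁ (1 / (1 + α j)) + logHeight₁ (1 / (1 - α j)) := fun j =>
      add_nonneg (zero_le_logHeight₁ _) (zero_le_logHeight₁ _)
    have hsum : ∀ i, logHeight₁ (1 / (1 + α (d i))) + logHeight₁ (1 / (1 - α (d i))) ≤
        ∑ j ∈ Finset.range (D + 1), (logHeight₁ (1 / (1 + α j)) + logHeight₁ (1 / (1 - α j))) :=
      fun i => Finset.single_le_sum
        (f := fun j => logHeight₁ (1 / (1 + α j)) + logHeight₁ (1 / (1 - α j)))
        (fun j _ => hj j) (Finset.mem_range.2 (by have := hd i; omega))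
    refine (oH_const hH B).mono (Eventually.of_forall fun i => ?_)
    have h2 := hsum i
    have h3 : 0 ≤ logHeight₁ (1 / (1 + α (d i))) := zero_le_logHeight₁ _
    have h4 : 0 ≤ logHeight₁ (1 / (1 - α (d i))) := zero_le_logHeight₁ _
    rcases (hf i v).1 with h | h | h | h <;> rw [h] <;> linarith
  have hR := R0 hH Sg hS0 t (fun v i => f i v)
    ⟨W / 2, by linarith, Eventually.of_forall fun i => by
      rw [hlogt]
      have := mul_le_mul_of_nonneg_left (hlow i) (by linarith : (0 : ℝ) ≤ W)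
      linarith⟩
    ⟨2 * W, Eventually.of_forall fun i => by
      rw [hlogt]
      have := mul_le_mul_of_nonneg_left (hupp i) (by linarith : (0 : ℝ) ≤ W)
      linarith⟩ hfH (ε * W / 4) (by positivity)
  have hL := hH.eventually (log_small (Real.log D) (ε / 2) (by positivity))
  obtain ⟨i, hRi, hLi⟩ := (hR.and hL).exists
  refine final_cmp hW (hk i) (hx i) (hHd i) (hμ3 i) (hm3 i) ?_ hLi
  have hne := t_ne (hα _ (hd i)) (hdat i).2.2.2 (by have := (hdat i).2.1; omega)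
    (Nat.succ_le_succ (Nat.zero_le _))
  have hl := low hS1 hS2 (hα _ (hd i)) (hdat i).1 (hdat i).2.2.2 (hdat i).2.2.1
    (by have := (hdat i).2.1; omega) (Nat.succ_le_succ (Nat.zero_le _)) (hm1 i) (hm2 i)
    (fun v => f i v) (fun v => by
      rw [← ht]
      rcases (hf i v).1 with h | h | h | h
      · rw [h, ht]
        exact hne.1
      · rw [h, ht]
        exact hne.2.1
      · rw [h, ht]
        exact hne.2.2.1
      · rw [h, ht]
        exact hne.2.2.2)
    (fun v => by rw [← ht]; exact (hf i v).2.1) (fun v => by rw [← ht]; exact (hf i v).2.2.1)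
    (fun v => by rw [← ht]; exact (hf i v).2.2.2.1)
    (fun v => by rw [← ht]; exact (hf i v).2.2.2.2)
  rw [← ht, ← hWd] at hl
  have h5 := hl.trans hRi
  rw [hlogt] at h5
  linarith

end Pool.Agent.Lib.MP_776dcc_nt
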