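import Pool.Agent.Lib.MP_776dcc_nt.Bnd

/-!
MP_776dcc_nt, part Sie: Siegel's lemma gives good approximations of `w`.
-/

set_option autoImplicit false

namespace Pool.Agent.Lib.MP_776dcc_nt

open scoped PowerSeries Matrix.Norms.Elementwise

/-- the bound of Siegel's lemma -/
noncomputable def sb (k : ℤ) (p q E : ℕ) : ℝ :=
  (((q + 1 : ℕ) : ℝ) * (8 * k) ^ (p + E)) ^ ((E : ℝ) / (((q + 1 : ℕ) : ℝ) - E))

theorem coeff_mul_ws (k : ℤ) (q : ℕ) (t : ℕ → ℤ) (i : ℕ) :
    PowerSeries.coeff i (((∑ j ∈ Finset.range (q + 1), Polynomial.C (t j) * Polynomial.X ^ j :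
      Polynomial ℤ) : PowerSeries ℤ) * ws k) =
      ∑ j ∈ Finset.range (q + 1), t j * (if j ≤ i then wc k (i - j) else 0) := by
  have h1 : ((∑ j ∈ Finset.range (q + 1), Polynomial.C (t j) * Polynomial.X ^ j :
      Polynomial ℤ) : PowerSeries ℤ) =
      ∑ j ∈ Finset.range (q + 1), PowerSeries.C (t j) * PowerSeries.X ^ j := by
    rw [← Polynomial.coeToPowerSeries.ringHom_apply, map_sum]
    refine Finset.sum_congr rfl fun j _ => ?_
    rw [Polynomial.coeToPowerSeries.ringHom_apply, Polynomial.coe_mul, Polynomial.coe_pow,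
      Polynomial.coe_C, Polynomial.coe_X]
  rw [h1, Finset.sum_mul, map_sum]
  refine Finset.sum_congr rfl fun j _ => ?_
  rw [mul_assoc, PowerSeries.coeff_C_mul, PowerSeries.coeff_X_pow_mul']
  congr 1
  unfold ws
  rw [PowerSeries.coeff_mk]

theorem siegel {k : ℤ} (hk : 1 ≤ k) {p q E : ℕ} (hE : 1 ≤ E) (hEq : E < q + 1) (hqp : q ≤ p) :
    ∃ P Q : Polynomial ℤ, Q ≠ 0 ∧ PowerSeries.X ^ (p + 1 + E) ∣ lf k P Q ∧
      Bd q (sb k p q E) Q ∧ Bd p (((q : ℝ) + 1) * sb k p q E * (8 * k) ^ p) P := by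
  classical
  have hkR : (1 : ℝ) ≤ k := by exact_mod_cast hk
  have h8 : (1 : ℝ) ≤ 8 * k := by linarith
  have hwR : ∀ n : ℕ, |(wc k n : ℝ)| ≤ (8 * k) ^ n := by
    intro n
    have h1 := wc_bound hk n
    have h2 : ((|wc k n| : ℤ) : ℝ) ≤ (((8 * k) ^ n : ℤ) : ℝ) := Int.cast_le.2 h1
    rw [Int.cast_abs] at h2
    push_cast at h2
    exact h2
  let A : Matrix (Fin E) (Fin (q + 1)) ℤ := fun r j => wc k (p + 1 + r - j)
  have hA : ‖A‖ ≤ (8 * (k : ℝ)) ^ (p + E) := by
    rw [Matrix.norm_le_iff (by positivity)]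
    intro r j
    show ‖wc k (p + 1 + r - j)‖ ≤ _
    rw [Int.norm_eq_abs]
    refine (hwR _).trans (pow_le_pow_right₀ h8 ?_)
    have := r.2
    omega
  obtain ⟨t, ht0, htA, htn⟩ := Int.Matrix.exists_ne_zero_int_vec_norm_le A
    (by simpa using hEq) (by rw [Fintype.card_fin]; omega)
  rw [Fintype.card_fin, Fintype.card_fin] at htn
  have hexp : (0 : ℝ) ≤ (E : ℝ) / (((q + 1 : ℕ) : ℝ) - E) := by
    refine div_nonneg (Nat.cast_nonneg _) ?_
    have : (E : ℝ) ≤ ((q + 1 : ℕ) : ℝ) := by exact_mod_cast hEq.le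
    linarith
  have htS : ‖t‖ ≤ sb k p q E := by
    refine htn.trans (Real.rpow_le_rpow (by positivity) ?_ hexp)
    refine mul_le_mul_of_nonneg_left (max_le (one_le_pow₀ h8) hA) (Nat.cast_nonneg _)
  have hS0 : 0 ≤ sb k p q E := (norm_nonneg _).trans htS
  obtain ⟨t', ht'⟩ : ∃ t' : ℕ → ℤ, ∀ j, t' j = if h : j < q + 1 then t ⟨j, h⟩ else 0 :=
    ⟨_, fun _ => rfl⟩
  have ht'b : ∀ j, |(t' j : ℝ)| ≤ sb k p q E := by
    intro j
    rw [ht']
    split_ifs with h
    · have h1 := norm_le_pi_norm t ⟨j, h⟩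
      rw [Int.norm_eq_abs] at h1
      exact h1.trans htS
    · simpa using hS0
  set Q : Polynomial ℤ := ∑ j ∈ Finset.range (q + 1), Polynomial.C (t' j) * Polynomial.X ^ j
    with hQ
  have hQc : ∀ i, Q.coeff i = t' i := by
    intro i
    rw [hQ, Polynomial.finsetSum_coeff]
    simp only [Polynomial.coeff_C_mul, Polynomial.coeff_X_pow, mul_ite, mul_one, mul_zero]
    rw [Finset.sum_ite_eq]
    split_ifs with h
    · rfl
    · rw [ht', dif_neg (by simpa using h)]
  have hcoef : ∀ i, |((PowerSeries.coeff i ((Q : PowerSeries ℤ) * ws k) : ℤ) : ℝ)| ≤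
      ((q : ℝ) + 1) * sb k p q E * (8 * k) ^ i := by
    intro i
    rw [hQ, coeff_mul_ws]
    push_cast
    refine (Finset.abs_sum_le_sum_abs _ _).trans ?_
    refine (Finset.sum_le_card_nsmul _ _ (sb k p q E * (8 * (k : ℝ)) ^ i) ?_).trans
      (le_of_eq ?_)
    · intro j _
      rw [abs_mul]
      refine mul_le_mul (ht'b j) ?_ (abs_nonneg _) hS0
      split_ifs
      · exact (hwR _).trans (pow_le_pow_right₀ h8 (Nat.sub_le _ _))
      · rw [abs_zero]
        positivity
    · rw [Finset.card_range, nsmul_eq_mul]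
      push_cast
      ring
  refine ⟨PowerSeries.trunc (p + 1) ((Q : PowerSeries ℤ) * ws k), Q, ?_, ?_, ?_, ?_⟩
  · intro h0
    apply ht0
    funext j
    have h1 := hQc j
    rw [h0, Polynomial.coeff_zero, ht', dif_pos j.2] at h1
    exact h1.symm
  · rw [PowerSeries.X_pow_dvd_iff]
    intro i hi
    unfold lf
    rw [map_sub, Polynomial.coeff_coe, PowerSeries.coeff_trunc]
    split_ifs with h
    · rw [sub_self]
    · rw [zero_sub, neg_eq_zero, hQ, coeff_mul_ws]
      have h1 := congrFun htA ⟨i - (p + 1), by omega⟩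
      rw [Matrix.mulVec, dotProduct] at h1
      rw [Finset.sum_range]
      rw [Pi.zero_apply] at h1
      rw [← h1]
      refine Finset.sum_congr rfl fun j _ => ?_
      have hj := j.2
      rw [if_pos (by omega), ht', dif_pos hj, mul_comm]
      show wc k (i - j) * t j = wc k (p + 1 + (i - (p + 1)) - j) * t j
      have h2 : p + 1 + (i - (p + 1)) = i := by omega
      rw [h2]
  · refine ⟨fun i hi => ?_, fun i => ?_⟩
    · rw [hQc, ht', dif_neg (by omega)]
    · rw [hQc]
      exact ht'b i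
  · refine ⟨fun i hi => ?_, fun i => ?_⟩
    · rw [PowerSeries.coeff_trunc, if_neg (by omega)]
    · rw [PowerSeries.coeff_trunc]
      split_ifs with h
      · refine (hcoef i).trans ?_
        refine mul_le_mul_of_nonneg_left (pow_le_pow_right₀ h8 (by omega)) (by positivity)
      · simp only [Int.cast_zero, abs_zero]
        positivity

end Pool.Agent.Lib.MP_776dcc_nt
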