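import Mathlib

/-!
MP_776dcc_nt, part WSer: the power series `w` with `w² - w = k (X² - X)`, `w(0) = 0`.
-/

set_option autoImplicit false

namespace Pool.Agent.Lib.MP_776dcc_nt

/-- the coefficients of `w` -/
def wc (k : ℤ) : ℕ → ℤ
  | n => (if n = 1 then k else if n = 2 then -k else 0) +
      ∑ i : Fin n, if 0 < (i : ℕ) then (if n - (i : ℕ) < n then wc k i * wc k (n - i) else 0) else 0
termination_by n => n
decreasing_by
  · exact i.2
  · assumption

theorem wc_zero (k : ℤ) : wc k 0 = 0 := by
  rw [wc]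
  simp

theorem wc_eq (k : ℤ) (n : ℕ) : wc k n = (if n = 1 then k else if n = 2 then -k else 0) +
    ∑ ij ∈ Finset.HasAntidiagonal.antidiagonal n, wc k ij.1 * wc k ij.2 := by
  rw [wc]
  congr 1
  rw [Finset.Nat.sum_antidiagonal_eq_sum_range_succ (fun a b => wc k a * wc k b) n,
    Finset.sum_range_succ, Nat.sub_self, wc_zero, mul_zero, add_zero, Finset.sum_range]
  refine Finset.sum_congr rfl fun i _ => ?_
  by_cases h : 0 < (i : ℕ)
  · have hi := i.2
    rw [if_pos h, if_pos (by omega)]
  · rw [if_neg h]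
    have h0 : (i : ℕ) = 0 := by omega
    rw [h0, wc_zero, zero_mul]

theorem catalan_le (n : ℕ) : catalan n ≤ 4 ^ n := by
  rw [catalan_eq_centralBinom_div]
  refine (Nat.div_le_self _ _).trans ?_
  rw [Nat.centralBinom]
  refine (Nat.choose_le_two_pow _ _).trans ?_
  rw [pow_mul]
  norm_num

theorem wc_bound_cat {k : ℤ} (hk : 1 ≤ k) : ∀ n : ℕ, 2 * |wc k (n + 1)| ≤
    (2 * k) ^ (n + 1) * catalan n := by
  intro n
  induction n using Nat.strong_induction_on with
  | _ n ih =>
    have hanti : ∑ ij ∈ Finset.HasAntidiagonal.antidiagonal (n + 1), wc k ij.1 * wc k ij.2 =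
        ∑ i : Fin n, wc k (i + 1) * wc k (n - i) := by
      rw [Finset.Nat.sum_antidiagonal_eq_sum_range_succ (fun a b => wc k a * wc k b) (n + 1),
        Finset.sum_range_succ, Nat.sub_self, wc_zero, mul_zero, add_zero,
        Finset.sum_range_succ', wc_zero, zero_mul, add_zero, Finset.sum_range]
      refine Finset.sum_congr rfl fun i _ => ?_
      have h1 : n + 1 - ((i : ℕ) + 1) = n - i := by omega
      rw [h1]
    have hsum : 4 * |∑ i : Fin n, wc k (i + 1) * wc k (n - i)| ≤
        (2 * k) ^ (n + 1) * ∑ i : Fin n, (catalan i * catalan (n - 1 - i) : ℤ) := by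
      rw [Finset.mul_sum]
      have h1 : 4 * |∑ i : Fin n, wc k (i + 1) * wc k (n - i)| ≤
          ∑ i : Fin n, 4 * |wc k (i + 1) * wc k (n - i)| := by
        rw [← Finset.mul_sum]
        exact mul_le_mul_of_nonneg_left (Finset.abs_sum_le_sum_abs _ _) (by norm_num)
      refine h1.trans (Finset.sum_le_sum fun i _ => ?_)
      have hi := i.2
      have h2 := ih i (by omega)
      have h3 := ih (n - 1 - i) (by omega)
      have h4 : n - 1 - (i : ℕ) + 1 = n - i := by omega
      rw [h4] at h3
      have h5 := mul_le_mul h2 h3 (by positivity) (by positivity)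
      have h6 : (2 * k) ^ ((i : ℕ) + 1) * (catalan i : ℤ) *
          ((2 * k) ^ (n - (i : ℕ)) * (catalan (n - 1 - i) : ℤ)) =
          (2 * k) ^ (n + 1) * ((catalan i : ℤ) * (catalan (n - 1 - i) : ℤ)) := by
        have h7 : (i : ℕ) + 1 + (n - i) = n + 1 := by omega
        rw [← h7, pow_add]
        ring
      rw [h6] at h5
      rw [abs_mul]
      linarith
    rw [wc_eq, hanti]
    rcases n with _ | _ | n
    · simp only [Finset.univ_eq_empty, Finset.sum_empty]
      norm_num [catalan_zero]
      rw [abs_of_pos (by omega)]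
    · have h1 : catalan 1 = 1 := catalan_one
      norm_num at *
      have h2 : wc k 1 = k := by
        rw [wc_eq]
        simp [Finset.Nat.antidiagonal_succ, wc_zero]
      rw [h2]
      rw [abs_of_nonneg (by nlinarith)]
      nlinarith
    · have h1 : ((catalan (n + 1 + 1) : ℕ) : ℤ) =
          ∑ i : Fin (n + 1 + 1), (catalan i * catalan (n + 1 + 1 - 1 - i) : ℤ) := by
        rw [catalan_succ]
        push_cast
        rfl
      rw [if_neg (by omega), if_neg (by omega), zero_add, h1]
      have h2 : (0 : ℤ) ≤ |∑ i : Fin (n + 1 + 1), wc k (i + 1) * wc k (n + 1 + 1 - i)| :=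
        abs_nonneg _
      linarith

theorem wc_bound {k : ℤ} (hk : 1 ≤ k) (n : ℕ) : |wc k n| ≤ (8 * k) ^ n := by
  rcases n with _ | n
  · rw [wc_zero, abs_zero, pow_zero]
    norm_num
  · have h1 := wc_bound_cat hk n
    have h2 : ((catalan n : ℕ) : ℤ) ≤ 4 ^ n := by exact_mod_cast catalan_le n
    have h3 : (2 * k) ^ (n + 1) * (catalan n : ℤ) ≤ (2 * k) ^ (n + 1) * 4 ^ n :=
      mul_le_mul_of_nonneg_left h2 (by positivity)
    have h4 : (8 * k) ^ (n + 1) = (2 * k) ^ (n + 1) * 4 ^ n * 4 := by
      have h5 : (8 * k) = (2 * k) * 4 := by ring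
      rw [h5, mul_pow, pow_succ 4]
      ring
    have h5 : (0 : ℤ) ≤ (2 * k) ^ (n + 1) * 4 ^ n := by positivity
    have h6 := abs_nonneg (wc k (n + 1))
    linarith

theorem wc_pos {k : ℤ} (hk : 2 ≤ k) : ∀ n : ℕ, 1 ≤ n → 0 < wc k n := by
  intro n
  induction n using Nat.strong_induction_on with
  | _ n ih =>
    intro hn
    have hnn : ∀ m, m < n → 0 ≤ wc k m := by
      intro m hm
      rcases Nat.eq_zero_or_pos m with rfl | h
      · rw [wc_zero]
      · exact (ih m hm h).le
    have h1 : wc k 1 = k := by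
      rw [wc_eq]
      simp [Finset.Nat.antidiagonal_succ, wc_zero]
    rcases n with _ | _ | n
    · omega
    · rw [zero_add, h1]
      omega
    · rw [wc_eq]
      have hterm : ∀ ij ∈ Finset.HasAntidiagonal.antidiagonal (n + 1 + 1), 0 ≤ wc k ij.1 * wc k ij.2 := by
        rintro ⟨a, b⟩ hab
        rw [Finset.HasAntidiagonal.mem_antidiagonal] at hab
        simp only at hab ⊢
        rcases Nat.eq_zero_or_pos a with rfl | ha
        · rw [wc_zero, zero_mul]
        · rcases Nat.eq_zero_or_pos b with rfl | hb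
          · rw [wc_zero, mul_zero]
          · exact mul_nonneg (hnn a (by omega)) (hnn b (by omega))
      have h2 : wc k 1 * wc k (n + 1) ≤
          ∑ ij ∈ Finset.HasAntidiagonal.antidiagonal (n + 1 + 1), wc k ij.1 * wc k ij.2 :=
        Finset.single_le_sum (f := fun ij : ℕ × ℕ => wc k ij.1 * wc k ij.2) hterm
          (a := (1, n + 1)) (Finset.HasAntidiagonal.mem_antidiagonal.2 (by
            show 1 + (n + 1) = n + 1 + 1
            omega))
      rcases n with _ | n
      · rw [if_neg (by omega), if_pos rfl]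
        rw [zero_add, h1] at h2
        nlinarith
      · rw [if_neg (by omega), if_neg (by omega), zero_add]
        have h3 := ih (n + 1 + 1) (by omega) (by omega)
        rw [h1] at h2
        have h4 : 0 < k * wc k (n + 1 + 1) := mul_pos (by omega) h3
        linarith

/-- the power series `w` -/
noncomputable def ws (k : ℤ) : PowerSeries ℤ := PowerSeries.mk (wc k)

/-- `k (X² - X)` -/
noncomputable def zp (k : ℤ) : Polynomial ℤ := Polynomial.C k * (Polynomial.X ^ 2 - Polynomial.X)

theorem zp_coeff (k : ℤ) (n : ℕ) : (zp k).coeff n =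
    -(if n = 1 then k else if n = 2 then -k else 0) := by
  unfold zp
  rw [Polynomial.coeff_C_mul, Polynomial.coeff_sub, Polynomial.coeff_X_pow, Polynomial.coeff_X]
  by_cases h1 : n = 1
  · subst h1
    norm_num
  · by_cases h2 : n = 2
    · subst h2
      norm_num
    · rw [if_neg h2, if_neg (Ne.symm h1), if_neg h1, if_neg h2]
      norm_num

theorem ws_eq (k : ℤ) : (ws k) ^ 2 - ws k = (zp k : PowerSeries ℤ) := by
  ext n
  rw [map_sub, pow_two, PowerSeries.coeff_mul, Polynomial.coeff_coe, zp_coeff]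
  unfold ws
  simp only [PowerSeries.coeff_mk]
  have h := wc_eq k n
  linarith

theorem ws_zero (k : ℤ) : PowerSeries.constantCoeff (ws k) = 0 := by
  rw [← PowerSeries.coeff_zero_eq_constantCoeff_apply]
  unfold ws
  rw [PowerSeries.coeff_mk, wc_zero]

end Pool.Agent.Lib.MP_776dcc_nt
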