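import Pool.Agent.Lib.MP_776dcc_nt.Cong

/-!
MP_776dcc_nt, part Zest: the zero estimate.
-/

set_option autoImplicit false

namespace Pool.Agent.Lib.MP_776dcc_nt

open scoped PowerSeries

/-- the sequence of derived pairs -/
noncomputable def sq (k : ℤ) (P Q : Polynomial ℤ) : ℕ → Polynomial ℤ × Polynomial ℤ
  | 0 => (P, Q)
  | j + 1 => (dP k (sq k P Q j).1 (sq k P Q j).2, dQ k (sq k P Q j).2)

/-- the brackets of the sequence -/
noncomputable def br (k : ℤ) (P Q : Polynomial ℤ) (i j : ℕ) : Polynomial ℤ :=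
  (sq k P Q i).1 * (sq k P Q j).2 - (sq k P Q j).1 * (sq k P Q i).2

theorem br_deriv (k : ℤ) (P Q : Polynomial ℤ) (i j : ℕ) :
    ap k * Polynomial.derivative (br k P Q i j) = br k P Q (i + 1) j + br k P Q i (j + 1) -
      2 * Polynomial.derivative (zp k) * br k P Q i j := by
  unfold br
  simp only [sq, dP, dQ, map_sub, Polynomial.derivative_mul]
  ring

theorem ap_eval (k x : ℤ) : (ap k).eval x = 4 * k * x * (x - 1) + 1 := by
  unfold ap zp
  simp
  ring

theorem pow_dvd_of_deriv {p : Polynomial ℚ} {a : ℚ} {r : ℕ} (h0 : p.eval a = 0)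
    (h : (Polynomial.X - Polynomial.C a) ^ r ∣ Polynomial.derivative p) :
    (Polynomial.X - Polynomial.C a) ^ (r + 1) ∣ p := by
  rcases eq_or_ne p 0 with rfl | hp
  · exact dvd_zero _
  have hd : Polynomial.derivative p ≠ 0 := by
    intro hd
    have h1 := Polynomial.derivative_eq_zero.1 hd
    rw [Polynomial.eq_C_of_natDegree_eq_zero h1, Polynomial.eval_C] at h0
    rw [Polynomial.eq_C_of_natDegree_eq_zero h1, h0, Polynomial.C_0] at hp
    exact hp rfl
  have h1 : r ≤ Polynomial.rootMultiplicity a (Polynomial.derivative p) :=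
    (Polynomial.le_rootMultiplicity_iff hd).2 h
  have h2 : p.IsRoot a := h0
  rw [Polynomial.derivative_rootMultiplicity_of_root h2] at h1
  have h3 : 0 < Polynomial.rootMultiplicity a p := (Polynomial.rootMultiplicity_pos hp).2 h2
  exact (Polynomial.le_rootMultiplicity_iff hp).1 (by omega)

theorem br_vanish {k x N : ℤ} (hk : 0 ≤ k) {P Q : Polynomial ℤ} {J : ℕ}
    (h : ∀ j ≤ J, (sq k P Q j).1.eval x = (sq k P Q j).2.eval x * N) :
    ∀ r i j : ℕ, i + r ≤ J + 1 → j + r ≤ J + 1 →
      (Polynomial.X - Polynomial.C (x : ℚ)) ^ r ∣ (br k P Q i j).map (Int.castRingHom ℚ) := by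
  intro r
  induction r with
  | zero =>
    intro i j _ _
    rw [pow_zero]
    exact one_dvd _
  | succ r ih =>
    intro i j hi hj
    have h0 : ((br k P Q i j).map (Int.castRingHom ℚ)).eval (x : ℚ) = 0 := by
      have h1 : (br k P Q i j).eval x = 0 := by
        unfold br
        rw [Polynomial.eval_sub, Polynomial.eval_mul, Polynomial.eval_mul, h i (by omega),
          h j (by omega)]
        ring
      have h2 : (x : ℚ) = Int.castRingHom ℚ x := rfl
      rw [h2, Polynomial.eval_map_apply, h1, map_zero]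
    refine pow_dvd_of_deriv h0 ?_
    have h1 := congrArg (Polynomial.map (Int.castRingHom ℚ)) (br_deriv k P Q i j)
    rw [Polynomial.map_mul, Polynomial.map_sub, Polynomial.map_add, Polynomial.map_mul,
      ← Polynomial.derivative_map] at h1
    have h2 : (Polynomial.X - Polynomial.C (x : ℚ)) ^ r ∣
        (ap k).map (Int.castRingHom ℚ) *
          Polynomial.derivative ((br k P Q i j).map (Int.castRingHom ℚ)) := by
      rw [h1]
      exact dvd_sub (dvd_add (ih _ _ (by omega) (by omega)) (ih _ _ (by omega) (by omega)))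
        ((ih _ _ (by omega) (by omega)).mul_left _)
    refine IsCoprime.dvd_of_dvd_mul_left ?_ h2
    refine IsCoprime.pow_left ?_
    refine (Polynomial.irreducible_X_sub_C (x : ℚ)).coprime_iff_not_dvd.2 ?_
    rw [Polynomial.dvd_iff_isRoot, Polynomial.IsRoot.def]
    have h3 : (x : ℚ) = Int.castRingHom ℚ x := rfl
    rw [h3, Polynomial.eval_map_apply, ap_eval]
    intro h4
    have h5 : 4 * k * x * (x - 1) + 1 = 0 :=
      (map_eq_zero_iff (Int.castRingHom ℚ) (RingHom.injective_int _)).1 h4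
    have h6 : 0 ≤ x * (x - 1) := by
      rcases le_or_gt x 0 with h7 | h7
      · nlinarith
      · nlinarith
    nlinarith [mul_nonneg hk h6]

theorem br_order {k : ℤ} {P Q : Polynomial ℤ} {m : ℕ}
    (h : PowerSeries.X ^ (m + 1) ∣ lf k P Q) : Polynomial.X ^ m ∣ br k P Q 0 1 := by
  apply coe_dvd
  have e1 : ((br k P Q 0 1 : Polynomial ℤ) : PowerSeries ℤ) =
      lf k P Q * (dQ k Q : PowerSeries ℤ) - lf k (dP k P Q) (dQ k Q) * (Q : PowerSeries ℤ) := by
    unfold br lf
    simp only [sq]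
    push_cast
    ring
  rw [e1]
  exact dvd_sub (((pow_dvd_pow _ (Nat.le_succ m)).trans h).mul_right _) ((lf_dvd h).mul_right _)

/-- `w` is not rational -/
theorem lf_ne_zero {k : ℤ} (hk : 2 ≤ k) {P Q : Polynomial ℤ} (hQ : Q ≠ 0) : lf k P Q ≠ 0 := by
  intro h0
  have h1 : ((2 * P - Q) ^ 2 : Polynomial ℤ) = ap k * Q ^ 2 := by
    have h2 : (((2 * P - Q) ^ 2 : Polynomial ℤ) : PowerSeries ℤ) =
        ((ap k * Q ^ 2 : Polynomial ℤ) : PowerSeries ℤ) := by
      have h3 : (P : PowerSeries ℤ) = (Q : PowerSeries ℤ) * ws k := by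
        unfold lf at h0
        exact sub_eq_zero.1 h0
      have h4 := ws_eq k
      unfold ap
      push_cast
      rw [coe_two, coe_four, h3, ← h4]
      ring
    exact Polynomial.coe_inj.1 h2
  -- a simple real root
  obtain ⟨r, hr⟩ : ∃ r : ℝ, r = (1 - Real.sqrt (1 - 1 / k)) / 2 := ⟨_, rfl⟩
  have hkR : (2 : ℝ) ≤ k := by exact_mod_cast hk
  have hkin : (0 : ℝ) < 1 - 1 / k := by
    have : (1 : ℝ) / k ≤ 1 / 2 := by
      apply one_div_le_one_div_of_le <;> linarith
    linarith
  have hs := Real.sq_sqrt hkin.le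
  have hs0 := Real.sqrt_pos.2 hkin
  have hroot : 4 * (k : ℝ) * (r ^ 2 - r) + 1 = 0 := by
    have h2 : r ^ 2 - r = (Real.sqrt (1 - 1 / k) ^ 2 - 1) / 4 := by
      rw [hr]
      ring
    rw [h2, hs]
    field_simp
    ring
  set A : Polynomial ℝ := (ap k).map (Int.castRingHom ℝ) with hA
  have hAe : A = 1 + 4 * (Polynomial.C (k : ℝ) * (Polynomial.X ^ 2 - Polynomial.X)) := by
    rw [hA]
    unfold ap zp
    simp
  have hA0 : A.eval r = 0 := by
    rw [hAe]
    simp
    linarith
  have hA1 : (Polynomial.derivative A).eval r ≠ 0 := by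
    have h2 : (Polynomial.derivative A).eval r = 4 * k * (2 * r - 1) := by
      rw [hAe]
      simp
      ring
    rw [h2, hr]
    have h3 : 4 * (k : ℝ) * (2 * ((1 - Real.sqrt (1 - 1 / k)) / 2) - 1) =
        - (4 * k * Real.sqrt (1 - 1 / k)) := by ring
    rw [h3]
    exact neg_ne_zero.2 (by positivity)
  have hAn : A ≠ 0 := by
    intro h2
    rw [h2] at hA1
    simp at hA1
  have hmul1 : Polynomial.rootMultiplicity r A = 1 := by
    have h2 : 0 < Polynomial.rootMultiplicity r A := (Polynomial.rootMultiplicity_pos hAn).2 hA0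
    have h3 : ¬ 1 < Polynomial.rootMultiplicity r A := by
      intro h4
      rw [Polynomial.one_lt_rootMultiplicity_iff_isRoot hAn] at h4
      exact hA1 h4.2
    omega
  have hQn : Q.map (Int.castRingHom ℝ) ≠ 0 :=
    (Polynomial.map_ne_zero_iff (RingHom.injective_int _)).2 hQ
  have h2 := congrArg (Polynomial.map (Int.castRingHom ℝ)) h1
  rw [Polynomial.map_mul, Polynomial.map_pow, Polynomial.map_pow] at h2
  have h3 := congrArg (Polynomial.rootMultiplicity r) h2
  have hAQ : A * (Q.map (Int.castRingHom ℝ)) ^ 2 ≠ 0 := mul_ne_zero hAn (pow_ne_zero 2 hQn)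
  rw [Polynomial.rootMultiplicity_mul hAQ, hmul1, ← Polynomial.count_roots,
    ← Polynomial.count_roots, Polynomial.roots_pow, Polynomial.roots_pow, Multiset.count_nsmul,
    Multiset.count_nsmul] at h3
  omega

theorem exists_lead {φ : PowerSeries ℤ} (h : φ ≠ 0) :
    ∃ (n : ℕ) (u : PowerSeries ℤ), φ = PowerSeries.X ^ n * u ∧
      PowerSeries.constantCoeff u ≠ 0 ∧ PowerSeries.coeff n φ ≠ 0 := by
  classical
  have hex : ∃ n, PowerSeries.coeff n φ ≠ 0 := by
    by_contra hcon
    push Not at hcon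
    exact h (PowerSeries.ext fun n => by rw [hcon n, map_zero])
  obtain ⟨n, h1, hmin⟩ : ∃ n, PowerSeries.coeff n φ ≠ 0 ∧
      ∀ m < n, PowerSeries.coeff m φ = 0 := by
    refine ⟨Nat.find hex, Nat.find_spec hex, fun m hm => ?_⟩
    have := Nat.find_min hex hm
    rwa [not_not] at this
  have h2 : PowerSeries.X ^ n ∣ φ := by
    rw [PowerSeries.X_pow_dvd_iff]
    exact hmin
  obtain ⟨u, hu⟩ := h2
  refine ⟨n, u, hu, ?_, h1⟩
  have h3 : PowerSeries.coeff n φ = PowerSeries.constantCoeff u := by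
    rw [hu]
    have := PowerSeries.coeff_X_pow_mul u n 0
    rw [zero_add, PowerSeries.coeff_zero_eq_constantCoeff_apply] at this
    exact this
  rwa [h3] at h1

theorem X_mul_deriv (n : ℕ) (u : PowerSeries ℤ) :
    PowerSeries.X * PowerSeries.derivative ℤ (PowerSeries.X ^ n * u) =
      PowerSeries.X ^ n * ((n : PowerSeries ℤ) * u +
        PowerSeries.X * PowerSeries.derivative ℤ u) := by
  rw [Derivation.leibniz, PowerSeries.derivative_pow, PowerSeries.derivative_X, smul_eq_mul,
    smul_eq_mul]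
  rcases n with _ | n
  · simp
  · rw [Nat.add_sub_cancel]
    ring

theorem br_ne_zero {k : ℤ} (hk : 2 ≤ k) {P Q : Polynomial ℤ} {m q : ℕ} (hQ : Q ≠ 0)
    (hq : Q.natDegree ≤ q) (hqm : q ≤ m) (h : PowerSeries.X ^ (m + 1) ∣ lf k P Q) :
    br k P Q 0 1 ≠ 0 := by
  intro h0
  have e1 : lf k P Q * (dQ k Q : PowerSeries ℤ) -
      lf k (dP k P Q) (dQ k Q) * (Q : PowerSeries ℤ) = 0 := by
    have e2 : ((br k P Q 0 1 : Polynomial ℤ) : PowerSeries ℤ) =
        lf k P Q * (dQ k Q : PowerSeries ℤ) -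
          lf k (dP k P Q) (dQ k Q) * (Q : PowerSeries ℤ) := by
      unfold br lf
      simp only [sq]
      push_cast
      ring
    rw [← e2, h0]
    simp
  rw [← lf_deriv] at e1
  have hQ0 : (Q : PowerSeries ℤ) ≠ 0 := fun hc => hQ (Polynomial.coe_inj.1 (by simpa using hc))
  obtain ⟨l, L, hL, hLc, hLl⟩ := exists_lead (lf_ne_zero hk (P := P) hQ)
  obtain ⟨o, R, hR, hRc, hRo⟩ := exists_lead hQ0
  have hl : m + 1 ≤ l := by
    by_contra hcon
    rw [PowerSeries.X_pow_dvd_iff] at h
    exact hLl (h l (by omega))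
  have ho : o ≤ q := by
    by_contra hcon
    rw [Polynomial.coeff_coe] at hRo
    exact hRo (Polynomial.coeff_eq_zero_of_natDegree_lt (by omega))
  have hdQ : ((dQ k Q : Polynomial ℤ) : PowerSeries ℤ) =
      (ap k : PowerSeries ℤ) * PowerSeries.derivative ℤ (Q : PowerSeries ℤ) +
        2 * (Polynomial.derivative (zp k) : PowerSeries ℤ) * (Q : PowerSeries ℤ) := by
    unfold dQ
    push_cast
    rw [coe_two, PowerSeries.derivative_coe]
  have e3 : (PowerSeries.X ^ l * PowerSeries.X ^ o) *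
      ((ap k : PowerSeries ℤ) * (((o : PowerSeries ℤ) - (l : PowerSeries ℤ)) * (L * R) +
        PowerSeries.X * (L * PowerSeries.derivative ℤ R - PowerSeries.derivative ℤ L * R)) +
        PowerSeries.X * (2 * (Polynomial.derivative (zp k) : PowerSeries ℤ) * (L * R))) = 0 := by
    have e4 : PowerSeries.X * (lf k P Q * (dQ k Q : PowerSeries ℤ) -
      (ap k : PowerSeries ℤ) * PowerSeries.derivative ℤ (lf k P Q) * (Q : PowerSeries ℤ)) = 0 := by
      rw [e1, mul_zero]
    rw [hdQ] at e4
    have e5 := X_mul_deriv l L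
    have e6 := X_mul_deriv o R
    rw [← hL] at e5
    rw [← hR] at e6
    have e7 : PowerSeries.X * (lf k P Q * ((ap k : PowerSeries ℤ) *
        PowerSeries.derivative ℤ (Q : PowerSeries ℤ) +
        2 * (Polynomial.derivative (zp k) : PowerSeries ℤ) * (Q : PowerSeries ℤ)) -
      (ap k : PowerSeries ℤ) * PowerSeries.derivative ℤ (lf k P Q) * (Q : PowerSeries ℤ)) =
      lf k P Q * (ap k : PowerSeries ℤ) *
        (PowerSeries.X * PowerSeries.derivative ℤ (Q : PowerSeries ℤ)) +
        PowerSeries.X * (2 * (Polynomial.derivative (zp k) : PowerSeries ℤ)) *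
          (lf k P Q * (Q : PowerSeries ℤ)) -
      (ap k : PowerSeries ℤ) * (PowerSeries.X * PowerSeries.derivative ℤ (lf k P Q)) *
        (Q : PowerSeries ℤ) := by
      ring
    rw [e7, e5, e6, hL, hR] at e4
    rw [← e4]
    ring
  rcases mul_eq_zero.1 e3 with e4 | e4
  · exact (mul_ne_zero (pow_ne_zero l PowerSeries.X_ne_zero)
      (pow_ne_zero o PowerSeries.X_ne_zero)) e4
  · have e5 := congrArg PowerSeries.constantCoeff e4
    have hap0 : PowerSeries.constantCoeff (ap k : PowerSeries ℤ) = 1 := by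
      rw [← PowerSeries.coeff_zero_eq_constantCoeff_apply, Polynomial.coeff_coe,
        Polynomial.coeff_zero_eq_eval_zero, ap_eval]
      ring
    simp only [map_add, map_mul, map_sub, hap0, PowerSeries.constantCoeff_X, zero_mul, add_zero,
      one_mul, map_natCast, map_zero] at e5
    rcases mul_eq_zero.1 e5 with e6 | e6
    · have : (o : ℤ) = l := sub_eq_zero.1 e6
      omega
    · exact (mul_ne_zero hLc hRc) e6

end Pool.Agent.Lib.MP_776dcc_nt
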